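import Pool.Agent.TwoLIS.Cnt
import Pool.Agent.BaxterLIS.BaxterMain

/-!
The theorem for semi-Baxter and strong-Baxter permutations.
-/

namespace Pool.Agent.TwoLIS

open Md Ty
open scoped ENNReal List
open Filter Topology
open Pool.Agent.BaxterLIS (PL PL_perm PL_inj PL_surj PL_pairwise sublist_PL_of_pairwise
  chain_to_finset asym SubStr subStr_poly ratio_tendsto ind)

/-- semi-Baxter permutations, as in the problem -/
def IsSemi (n : ℕ) (σ : Equiv.Perm (Fin n)) : Prop :=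
  ∀ i j j' k : Fin n, i < j → (j' : ℕ) = (j : ℕ) + 1 → j' < k →
    ¬ (σ j' < σ i ∧ σ i < σ k ∧ σ k < σ j)

/-- strong-Baxter permutations, as in the problem -/
def IsStrong (n : ℕ) (σ : Equiv.Perm (Fin n)) : Prop :=
  ∀ i j j' k : Fin n, i < j → (j' : ℕ) = (j : ℕ) + 1 → j' < k →
    ¬ (σ j' < σ i ∧ σ i < σ k ∧ σ k < σ j) ∧ ¬ (σ j < σ k ∧ σ k < σ i ∧ σ i < σ j') ∧
    ¬ (σ j' < σ k ∧ σ k < σ i ∧ σ i < σ j)

lemma sub4 {n : ℕ} (σ : Equiv.Perm (Fin n)) (a b c d : Fin n) :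
    [(a : ℕ), (b : ℕ), (c : ℕ), (d : ℕ)] <+ PL σ ↔ σ a < σ b ∧ σ b < σ c ∧ σ c < σ d := by
  constructor
  · intro hs
    have hp := (PL_pairwise σ).sublist hs
    simp only [List.pairwise_cons, List.mem_cons, List.not_mem_nil, or_false, forall_eq_or_imp,
      forall_eq] at hp
    obtain ⟨⟨p1, p2, p3⟩, ⟨p4, p5⟩, p6, _⟩ := hp
    exact ⟨p1 a.2 b.2, p4 b.2 c.2, p6 c.2 d.2⟩
  · rintro ⟨a1, a2, a3⟩
    have := sublist_PL_of_pairwise σ [a, b, c, d] (by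
      simp only [List.pairwise_cons, List.mem_cons, List.not_mem_nil, or_false, forall_eq_or_imp,
        forall_eq]
      refine ⟨⟨a1, a1.trans a2, a1.trans (a2.trans a3)⟩, ⟨a2, a2.trans a3⟩, a3, ?_⟩
      simp)
    simpa using this

lemma mem_lt_of_sub {n : ℕ} {σ : Equiv.Perm (Fin n)} {c : List ℕ} (h : c <+ PL σ) :
    ∀ x ∈ c, x < n := by
  intro x hx
  have := (PL_perm σ).subset (h.subset hx)
  simpa using this

lemma semi_iff {n : ℕ} (σ : Equiv.Perm (Fin n)) : IsSemi n σ ↔ ClassL semi (PL σ) := by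
  constructor
  · intro h i j k hij hjk
    refine ⟨fun hs => ?_, fun h => absurd h (by decide)⟩
    have hm := mem_lt_of_sub hs
    have hi : i < n := hm _ (by simp)
    have hj1 : j + 1 < n := hm _ (by simp)
    have hj : j < n := hm _ (by simp)
    have hk : k < n := hm _ (by simp)
    exact h ⟨i, hi⟩ ⟨j, hj⟩ ⟨j + 1, hj1⟩ ⟨k, hk⟩ hij rfl hjk
      ((sub4 σ ⟨j + 1, hj1⟩ ⟨i, hi⟩ ⟨k, hk⟩ ⟨j, hj⟩).mp hs)
  · intro h i j j' k hij hj' hjk hp
    have hjk' : (j : ℕ) + 1 < k := by rw [← hj']; exact hjk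
    apply (h i j k hij hjk').1
    rw [← hj']
    exact (sub4 σ j' i k j).mpr hp

lemma strong_iff {n : ℕ} (σ : Equiv.Perm (Fin n)) : IsStrong n σ ↔ ClassL strong (PL σ) := by
  constructor
  · intro h i j k hij hjk
    refine ⟨fun hs => ?_, fun _ => ⟨fun hs => ?_, fun hs => ?_⟩⟩
    · have hm := mem_lt_of_sub hs
      have hi : i < n := hm _ (by simp)
      have hj1 : j + 1 < n := hm _ (by simp)
      have hj : j < n := hm _ (by simp)
      have hk : k < n := hm _ (by simp)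
      exact (h ⟨i, hi⟩ ⟨j, hj⟩ ⟨j + 1, hj1⟩ ⟨k, hk⟩ hij rfl hjk).1
        ((sub4 σ ⟨j + 1, hj1⟩ ⟨i, hi⟩ ⟨k, hk⟩ ⟨j, hj⟩).mp hs)
    · have hm := mem_lt_of_sub hs
      have hi : i < n := hm _ (by simp)
      have hj1 : j + 1 < n := hm _ (by simp)
      have hj : j < n := hm _ (by simp)
      have hk : k < n := hm _ (by simp)
      exact (h ⟨i, hi⟩ ⟨j, hj⟩ ⟨j + 1, hj1⟩ ⟨k, hk⟩ hij rfl hjk).2.1
        ((sub4 σ ⟨j, hj⟩ ⟨k, hk⟩ ⟨i, hi⟩ ⟨j + 1, hj1⟩).mp hs)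
    · have hm := mem_lt_of_sub hs
      have hi : i < n := hm _ (by simp)
      have hj1 : j + 1 < n := hm _ (by simp)
      have hj : j < n := hm _ (by simp)
      have hk : k < n := hm _ (by simp)
      exact (h ⟨i, hi⟩ ⟨j, hj⟩ ⟨j + 1, hj1⟩ ⟨k, hk⟩ hij rfl hjk).2.2
        ((sub4 σ ⟨j + 1, hj1⟩ ⟨k, hk⟩ ⟨i, hi⟩ ⟨j, hj⟩).mp hs)
  · intro h i j j' k hij hj' hjk
    have hjk' : (j : ℕ) + 1 < k := by rw [← hj']; exact hjk
    have h0 := h i j k hij hjk'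
    rw [← hj'] at h0
    exact ⟨fun hp => h0.1 ((sub4 σ j' i k j).mpr hp),
      fun hp => (h0.2 rfl).1 ((sub4 σ j k i j').mpr hp),
      fun hp => (h0.2 rfl).2 ((sub4 σ j' k i j).mpr hp)⟩

lemma semi_one (n : ℕ) : IsSemi n 1 := by
  intro i j j' k hij hj' hjk hp
  have h1 : j' < i := by simpa using hp.1
  have h2 : j < j' := by rw [Fin.lt_def, hj']; omega
  exact absurd (h1.trans (hij.trans h2)) (lt_irrefl _)

lemma strong_one (n : ℕ) : IsStrong n 1 := by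
  intro i j j' k hij hj' hjk
  have h2 : j < j' := by rw [Fin.lt_def, hj']; omega
  refine ⟨fun hp => ?_, fun hp => ?_, fun hp => ?_⟩
  · have h1 : j' < i := by simpa using hp.1
    exact absurd (h1.trans (hij.trans h2)) (lt_irrefl _)
  · have h1 : j < k := by simpa using hp.1
    have h3 : k < i := by simpa using hp.2.1
    exact absurd (h1.trans (h3.trans hij)) (lt_irrefl _)
  · have h1 : j' < k := by simpa using hp.1
    have h3 : k < i := by simpa using hp.2.1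
    exact absurd (h1.trans (h3.trans (hij.trans h2))) (lt_irrefl _)

section
variable {P : Prm} (D : TD P) (J : JD P) (Q : WT P) (hz : MZ P)
  (Pc : (n : ℕ) → Equiv.Perm (Fin n) → Prop)
  (hPc : ∀ (n : ℕ) (σ : Equiv.Perm (Fin n)), Pc n σ ↔ ClassL P.ty (PL σ))

include hPc in
lemma cnt_le_card {n : ℕ} (hn : 1 ≤ n) :
    cnt P.ty (n - 1) (0, 0) ≤ (({σ : Equiv.Perm (Fin n) | Pc n σ}.ncard : ℕ) : ℝ≥0∞) := by
  classical
  obtain ⟨T, hT1, hT2⟩ := words (ty := P.ty) (n - 1) init good_init class_init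
  have hps : ps init = (0, 0) := by simp [ps, init]
  rw [hps] at hT1
  refine hT1.trans ?_
  have hcard : T.card ≤ {σ : Equiv.Perm (Fin n) | Pc n σ}.ncard := by
    have key : ∀ w ∈ T, ∃ σ : Equiv.Perm (Fin n), Pc n σ ∧ ∃ s', Run P.ty init w s' ∧
        s'.mode = I ∧ s'.n = n ∧ PL σ = arr s' := by
      intro w hw
      obtain ⟨s', h1, h2, h3, h4⟩ := hT2 w hw
      have hsn : s'.n = n := by rw [h4]; show 1 + (n - 1) = n; omega
      have h5 := (wf_run h1 wf_init).perm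
      rw [hsn] at h5
      obtain ⟨σ, hσ⟩ := PL_surj h5
      refine ⟨σ, ?_, s', h1, h2.mode, hsn, hσ⟩
      rw [hPc, hσ]
      exact h3
    choose! f hf using key
    rw [← Set.ncard_coe_finset T]
    apply Set.ncard_le_ncard_of_injOn f
    · intro w hw
      exact (hf w hw).1
    · intro w hw w' hw' h
      obtain ⟨_, s1, a1, a2, a3, a4⟩ := hf w hw
      obtain ⟨_, s2, b1, b2, b3, b4⟩ := hf w' hw'
      apply run_inj wf_init a1 b1 a2 b2 (by rw [a3, b3])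
      rw [← a4, ← b4]
      exact congrArg PL h
  exact_mod_cast hcard

/-- members of the class with no increasing subsequence of length at least `r` -/
def BadS (n : ℕ) (r : ℝ) : Set (Equiv.Perm (Fin n)) :=
  {σ | Pc n σ ∧ ¬ ∃ s : Finset (Fin n), StrictMonoOn (fun i => σ i) (s : Set (Fin n)) ∧
    r ≤ (s.card : ℝ)}

include D Q hPc in
theorem bad_le {n h q : ℕ} {r : ℝ} (hn : 1 ≤ n) (hh : 1 ≤ h)
    (hPE : 3 / 4 ≤ (PE P h r).toReal) (hq : q * (400 * h ^ 2 + 4) ≤ 2 * (n - 1)) :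
    ((BadS Pc n r).ncard : ℝ) * Q.κ ^ (n - 1) ≤ (1 - P.gw) ^ q := by
  classical
  have hκ := Q.κ0
  have key : ∀ σ ∈ BadS Pc n r, ∃ w s', Run P.ty init w s' ∧ s'.mode = I ∧ s'.n = n ∧
      arr s' = PL σ := by
    intro σ hσ
    exact exists_run hn (PL_perm σ) ((hPc n σ).mp hσ.1)
  choose! f g hf using key
  have hfin : (BadS Pc n r).Finite := Set.toFinite _
  have h1 : ∑ σ ∈ hfin.toFinset, P.ch.wt I (f σ) ≤
      P.ch.FN (4 * (n - 1)) I (fun x => ind (badWins P h r (400 * h ^ 2 + 4) q x)) := by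
    apply sum_wt_le
    · intro σ hσ τ hτ x y hxy
      rw [Set.Finite.mem_toFinset] at hσ hτ
      obtain ⟨a1, a2, a3, a4⟩ := hf σ hσ
      obtain ⟨b1, b2, b3, b4⟩ := hf τ hτ
      have h2 := word_prefix_free a1 a2 b1 b2 (by rw [a3, b3]) hxy
      rw [h2] at a1
      have h3 := run_det a1 b1
      apply PL_inj
      rw [← a4, ← b4, h3]
    · intro σ hσ
      rw [Set.Finite.mem_toFinset] at hσ
      obtain ⟨a1, a2, a3, a4⟩ := hf σ hσ
      have hl := (word_len a1 a2).1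
      rwa [a3] at hl
    · intro σ hσ x
      rw [Set.Finite.mem_toFinset] at hσ
      obtain ⟨a1, a2, a3, a4⟩ := hf σ hσ
      have hl := (word_len a1 a2).2
      rw [a3] at hl
      apply badWins_of_run a1 (hq.trans hl)
      rintro ⟨c, c1, c2, c3⟩
      rw [a4] at c1
      obtain ⟨s, s1, s2⟩ := chain_to_finset σ c1 c2
      exact hσ.2 ⟨s, s1, by rw [s2]; exact c3⟩
  have h2 := badWins_prob D h (400 * h ^ 2) r hPE (un_quad D h hh) q (4 * (n - 1)) I (by omega)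
  have h3 : (((BadS Pc n r).ncard : ℕ) : ℝ≥0∞) * ENNReal.ofReal (Q.κ ^ (n - 1)) ≤
      ∑ σ ∈ hfin.toFinset, P.ch.wt I (f σ) := by
    rw [Set.ncard_eq_toFinset_card _ hfin, ← nsmul_eq_mul]
    apply Finset.card_nsmul_le_sum
    intro σ hσ
    rw [Set.Finite.mem_toFinset] at hσ
    obtain ⟨a1, a2, a3, a4⟩ := hf σ hσ
    have := word_weight Q a1 a2
    rwa [a3] at this
  have h4 := (h3.trans h1).trans h2
  have hg := P.gw_lt
  have hpow : 0 ≤ (1 - P.gw) ^ q := pow_nonneg (by linarith) q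
  have h5 : ENNReal.ofReal (((BadS Pc n r).ncard : ℝ) * Q.κ ^ (n - 1)) ≤
      ENNReal.ofReal ((1 - P.gw) ^ q) := by
    rw [ENNReal.ofReal_mul (Nat.cast_nonneg _), ENNReal.ofReal_natCast]
    exact h4
  exact (ENNReal.ofReal_le_ofReal_iff hpow).mp h5

include hz hPc in
lemma total_ge : ∃ a b : ℝ, 0 < a ∧ ∀ᶠ n : ℕ in atTop,
    a * ((n - 1 : ℕ) : ℝ) ^ (-b) ≤ Q.κ ^ (n - 1) * ({σ : Equiv.Perm (Fin n) | Pc n σ}.ncard : ℝ) := by
  obtain ⟨a, b, ha, n₀, h⟩ := (wk P hz).lower (fun z => ENNReal.ofReal (Q.om z))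
    (fun z _ => ENNReal.ofReal_pos.mpr (Q.om_pos z))
  refine ⟨a, b, ha, ?_⟩
  filter_upwards [eventually_ge_atTop (n₀ + 1)] with n hn
  have h1 := h (n - 1) (by omega)
  rw [W_eq Q hz] at h1
  have h2 := cnt_le_card Pc hPc (show 1 ≤ n by omega)
  have hκ := Q.κ0
  have h3 : Q.om (0, 0) = 1 := by simp [WT.om]
  rw [h3, mul_one] at h1
  have h4 : ENNReal.ofReal (a * ((n - 1 : ℕ) : ℝ) ^ (-b)) ≤
      ENNReal.ofReal (Q.κ ^ (n - 1) * ({σ : Equiv.Perm (Fin n) | Pc n σ}.ncard : ℝ)) := by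
    refine h1.trans ?_
    rw [ENNReal.ofReal_mul (by positivity : 0 ≤ Q.κ ^ (n - 1)), ENNReal.ofReal_natCast]
    gcongr
  exact (ENNReal.ofReal_le_ofReal_iff (by positivity)).mp h4

lemma subStr_of_le {F : ℕ → ℝ} {K : ℝ} {k : ℕ} (h0 : ∀ n, 0 ≤ F n)
    (h : ∀ᶠ n : ℕ in atTop, F n ≤ K * ((n:ℝ) + 2) ^ k) : SubStr F := by
  intro η c hη hc
  have h1 := subStr_poly K k η c hη hc
  refine squeeze_zero' (Eventually.of_forall fun n => mul_nonneg (h0 n) (Real.exp_pos _).le) ?_ h1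
  filter_upwards [h] with n hn
  exact mul_le_mul_of_nonneg_right hn (Real.exp_pos _).le

include D J Q hz hPc in
/-- **Main theorem for one class** -/
theorem main_cls (hone : ∀ n, Pc n 1) : ∃ α : ℝ, 1 / 2 < α ∧
    Tendsto
        (fun n : ℕ =>
          (({σ : Equiv.Perm (Fin n) | Pc n σ ∧ ∃ s : Finset (Fin n),
              StrictMonoOn (fun i => σ i) (s : Set (Fin n)) ∧ (n : ℝ) ^ α ≤ (s.card : ℝ)}.ncard : ℝ) /
            ({σ : Equiv.Perm (Fin n) | Pc n σ}.ncard : ℝ)))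
        atTop (𝓝 1) := by
  obtain ⟨h₀, C, δ, hh₀, hC, hδ, hg⟩ := growth D J
  have hκ := Q.κ0
  have hgw0 := P.gw_pos
  have hgw1 := P.gw_lt
  have hpos : ∀ n, 0 < {σ : Equiv.Perm (Fin n) | Pc n σ}.ncard := by
    intro n
    rw [Set.ncard_pos (Set.toFinite _)]
    exact ⟨1, hone n⟩
  have htot : ∀ n, 1 ≤ n → (0:ℝ) < ({σ : Equiv.Perm (Fin n) | Pc n σ}.ncard : ℝ) := by
    intro n _
    exact_mod_cast hpos n
  have hmono : ∀ (n : ℕ) (r r' : ℝ), r ≤ r' →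
      ((BadS Pc n r).ncard : ℝ) ≤ ((BadS Pc n r').ncard : ℝ) := by
    intro n r r' hr
    have : (BadS Pc n r).ncard ≤ (BadS Pc n r').ncard := by
      apply Set.ncard_le_ncard _ (Set.toFinite _)
      rintro σ ⟨h1, h2⟩
      refine ⟨h1, ?_⟩
      rintro ⟨s, s1, s2⟩
      exact h2 ⟨s, s1, hr.trans s2⟩
    exact_mod_cast this
  set F : ℕ → ℝ := fun n => 1 / (Q.κ ^ (n - 1) * ({σ : Equiv.Perm (Fin n) | Pc n σ}.ncard : ℝ))
    with hF
  have hF0 : ∀ n, 0 ≤ F n := by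
    intro n
    rw [hF]; positivity
  have hFS : SubStr F := by
    obtain ⟨a, b, ha, h⟩ := total_ge Q hz Pc hPc
    obtain ⟨k, hk⟩ := exists_nat_ge b
    apply subStr_of_le (K := 1 / a) (k := k) hF0
    filter_upwards [h, eventually_ge_atTop 2] with n hn hn2
    have hn1 : (1:ℝ) ≤ ((n - 1 : ℕ) : ℝ) := by
      have : 1 ≤ n - 1 := by omega
      exact_mod_cast this
    have e0 : 0 < ((n - 1 : ℕ) : ℝ) ^ (-b) := Real.rpow_pos_of_pos (by linarith) _
    have e1 : 0 < a * ((n - 1 : ℕ) : ℝ) ^ (-b) := mul_pos ha e0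
    have e2 : F n ≤ 1 / (a * ((n - 1 : ℕ) : ℝ) ^ (-b)) := by
      rw [hF]
      exact one_div_le_one_div_of_le e1 hn
    refine e2.trans ?_
    have e3 : 1 / (a * ((n - 1 : ℕ) : ℝ) ^ (-b)) = 1 / a * ((n - 1 : ℕ) : ℝ) ^ b := by
      rw [Real.rpow_neg (by linarith)]
      have : ((n - 1 : ℕ) : ℝ) ^ b ≠ 0 := (Real.rpow_pos_of_pos (by linarith) _).ne'
      field_simp
    rw [e3]
    have e4 : ((n - 1 : ℕ) : ℝ) ^ b ≤ ((n:ℝ) + 2) ^ k := by
      calc ((n - 1 : ℕ) : ℝ) ^ b ≤ ((n - 1 : ℕ) : ℝ) ^ (k:ℝ) :=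
            Real.rpow_le_rpow_of_exponent_le hn1 hk
        _ = ((n - 1 : ℕ) : ℝ) ^ k := Real.rpow_natCast _ _
        _ ≤ _ := by
          apply pow_le_pow_left₀ (by linarith)
          have : n - 1 ≤ n := Nat.sub_le _ _
          have : ((n - 1 : ℕ) : ℝ) ≤ n := by exact_mod_cast this
          linarith
    gcongr
  have hmain : ∀ n j q : ℕ, 1 ≤ n → q * (400 * (h₀ * C ^ j) ^ 2 + 4) ≤ 2 * (n - 1) →
      ((BadS Pc n (((1 + δ) * C) ^ j)).ncard : ℝ) ≤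
        (1 - P.gw) ^ q * F n * ({σ : Equiv.Perm (Fin n) | Pc n σ}.ncard : ℝ) := by
    intro n j q hn hq
    have hh : 1 ≤ h₀ * C ^ j := Nat.succ_le_of_lt (by positivity)
    have h1 := bad_le D Q Pc hPc (q := q) hn hh (hg j) hq
    have h2 := htot n hn
    have h3 : F n * ({σ : Equiv.Perm (Fin n) | Pc n σ}.ncard : ℝ) = 1 / Q.κ ^ (n - 1) := by
      rw [hF]; field_simp
    rw [mul_assoc, h3, mul_one_div, le_div_iff₀ (by positivity)]
    exact h1
  obtain ⟨α, hα, hlim⟩ := asym (h₀ := h₀) (C := C) (K := 400) (δ := δ) (ρ := 1 - P.gw) hC hδ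
    (by linarith) (by linarith)
    (fun n => ({σ : Equiv.Perm (Fin n) | Pc n σ}.ncard : ℝ))
    (fun n r => ((BadS Pc n r).ncard : ℝ))
    F hFS hF0 htot (fun n r => Nat.cast_nonneg _) hmono hmain
  exact ⟨α, hα, ratio_tendsto Pc α (fun n _ => hpos n) hlim⟩

end

theorem semi_main : ∃ α : ℝ, 1 / 2 < α ∧
    Tendsto
        (fun n : ℕ =>
          (({σ : Equiv.Perm (Fin n) | IsSemi n σ ∧ ∃ s : Finset (Fin n),
              StrictMonoOn (fun i => σ i) (s : Set (Fin n)) ∧ (n : ℝ) ^ α ≤ (s.card : ℝ)}.ncard : ℝ) /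
            ({σ : Equiv.Perm (Fin n) | IsSemi n σ}.ncard : ℝ)))
        atTop (𝓝 1) :=
  main_cls Dsemi Jsemi Qsemi MZsemi IsSemi (fun _ σ => semi_iff σ) semi_one

theorem strong_main : ∃ α : ℝ, 1 / 2 < α ∧
    Tendsto
        (fun n : ℕ =>
          (({σ : Equiv.Perm (Fin n) | IsStrong n σ ∧ ∃ s : Finset (Fin n),
              StrictMonoOn (fun i => σ i) (s : Set (Fin n)) ∧ (n : ℝ) ^ α ≤ (s.card : ℝ)}.ncard : ℝ) /
            ({σ : Equiv.Perm (Fin n) | IsStrong n σ}.ncard : ℝ)))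
        atTop (𝓝 1) :=
  main_cls Dstrong Jstrong Qstrong MZstrong IsStrong (fun _ σ => strong_iff σ) strong_one

end Pool.Agent.TwoLIS
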