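import Pool.Agent.TwoLIS.WtInst
import Pool.Agent.BaxterLIS.Conv

/-!
Counting the lists of the class: polynomial-times-exponential lower bound.
-/

namespace Pool.Agent.TwoLIS

open Md Ty
open scoped ENNReal List
open Filter Topology
open Pool.Agent.BaxterLIS (replicate_true_inj)

/-- number of macro-paths staying in the quadrant -/
noncomputable def cnt (ty : Ty) : ℕ → Z2 → ℝ≥0∞
  | 0, _ => 1
  | t + 1, z => ∑' i, if Quad (z + wξ ty i) then cnt ty t (z + wξ ty i) else 0

variable {P : Prm} (Q : WT P)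

/-- exponential weight -/
noncomputable def WT.om (z : Z2) : ℝ := Q.u ^ z.1 * Q.v ^ z.2

lemma WT.om_pos (z : Z2) : 0 < Q.om z := by
  have := Q.u0; have := Q.v0
  unfold WT.om; positivity

lemma WT.om_add (z z' : Z2) : Q.om (z + z') = Q.om z * Q.om z' := by
  have := Q.u0; have := Q.v0
  unfold WT.om
  rw [Prod.fst_add, Prod.snd_add, zpow_add₀ (by positivity), zpow_add₀ (by positivity)]
  ring

lemma macro_weight (i : ℕ ⊕ ℕ) : wμ P i * Q.om (wξ P.ty i) = Q.κ := by
  have a1 := Q.eI1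
  have a2 := Q.eI0
  have a3 := Q.eR0
  have a4 := Q.eR1
  have a5 := Q.eL1
  have a6 := Q.eM1
  have a7 := Q.eL0
  have a8 := Q.eM0
  have hI := Q.hI
  have hu := Q.u0
  have hv := Q.v0
  have hR := Q.h0 R
  have hL := Q.h0 L
  have hM := Q.h0 M
  rw [hI] at a1 a2 a3 a7 a8
  have k1 : P.qR * (1 - P.y) * Q.u = Q.κ := by
    linear_combination P.qR * a3 + Q.κ * a1
  have k2 : (1 - P.qR) * (1 - P.qL) * Q.v = Q.κ := by
    linear_combination (1 - P.qR) * a7 + Q.κ * a2
  match i with
  | Sum.inl b =>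
    unfold WT.om
    cases hty : P.ty
    · simp only [hty, if_true] at a4
      simp only [wμ, wξ, alz, one_mul]
      have e1 : Q.u ^ (1 + (b:ℤ)) = Q.u * Q.u ^ b := by
        rw [zpow_add₀ hu.ne', zpow_one, zpow_natCast]
      have e2 : Q.v ^ (-(b:ℤ)) = (Q.v ^ b)⁻¹ := by
        rw [zpow_neg, zpow_natCast]
      rw [e1, e2, ← a4, mul_pow]
      have h1 : P.y ^ b ≠ 0 := by have := P.y0; positivity
      have h2 : Q.u ^ b ≠ 0 := by positivity
      rw [mul_inv]
      calc P.qR * (P.y ^ b * (1 - P.y)) * (Q.u * Q.u ^ b * ((P.y ^ b)⁻¹ * (Q.u ^ b)⁻¹)) =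
          P.qR * (1 - P.y) * Q.u * (P.y ^ b * (P.y ^ b)⁻¹) * (Q.u ^ b * (Q.u ^ b)⁻¹) := by ring
        _ = Q.κ := by rw [mul_inv_cancel₀ h1, mul_inv_cancel₀ h2, mul_one, mul_one, k1]
    · simp only [hty, reduceCtorEq, if_false] at a4
      simp only [wμ, wξ, alz, zero_mul, add_zero, zpow_one]
      have e2 : Q.v ^ (-(b:ℤ)) = (Q.v ^ b)⁻¹ := by
        rw [zpow_neg, zpow_natCast]
      have h1 : P.y ^ b ≠ 0 := by have := P.y0; positivity
      rw [e2, ← a4, mul_one]
      calc P.qR * (P.y ^ b * (1 - P.y)) * (Q.u * (P.y ^ b)⁻¹) =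
          P.qR * (1 - P.y) * Q.u * (P.y ^ b * (P.y ^ b)⁻¹) := by ring
        _ = Q.κ := by rw [mul_inv_cancel₀ h1, mul_one, k1]
  | Sum.inr 0 =>
    unfold WT.om
    simp only [wμ, wξ, zpow_zero, zpow_one, one_mul]
    exact k2
  | Sum.inr (a + 1) =>
    unfold WT.om
    have e1 : Q.u ^ (-((a:ℤ) + 1)) = (Q.u ^ a * Q.u)⁻¹ := by
      rw [zpow_neg, zpow_add₀ hu.ne', zpow_one, zpow_natCast]
    have h1 : Q.u ^ a ≠ 0 := by positivity
    cases hty : P.ty
    · simp only [hty, if_true] at a8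
      simp only [wμ, wξ, alz, zpow_one]
      have k3 : (1 - P.qR) * P.qL * (1 - P.x) * Q.v = Q.κ * Q.u := by
        have : (1 - P.x) * Q.v = Q.h M * Q.κ := by linarith
        calc (1 - P.qR) * P.qL * (1 - P.x) * Q.v = (1 - P.qR) * P.qL * ((1 - P.x) * Q.v) := by ring
          _ = (1 - P.qR) * (P.qL * Q.h M) * Q.κ := by rw [this]; ring
          _ = ((1 - P.qR) * Q.h L) * Q.u * Q.κ := by rw [a5]; ring
          _ = _ := by rw [a2]; ring
      rw [e1, a6, mul_inv]
      have k3' := k3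
      rw [a6] at k3'
      calc (1 - P.qR) * (P.qL * (Q.u ^ a * (1 - Q.u))) * ((Q.u ^ a)⁻¹ * Q.u⁻¹ * Q.v) =
          ((1 - P.qR) * P.qL * (1 - Q.u) * Q.v) * (Q.u ^ a * (Q.u ^ a)⁻¹) * Q.u⁻¹ := by ring
        _ = Q.κ := by rw [mul_inv_cancel₀ h1, k3', mul_one, mul_assoc, mul_inv_cancel₀ hu.ne', mul_one]
    · simp only [hty, reduceCtorEq, if_false] at a8
      simp only [wμ, wξ, alz, zpow_zero, mul_one]
      have k3 : (1 - P.qR) * P.qL * (1 - P.x) = Q.κ * Q.u := by
        have : (1 - P.x) = Q.h M * Q.κ := by linarith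
        calc (1 - P.qR) * P.qL * (1 - P.x) = (1 - P.qR) * (P.qL * Q.h M) * Q.κ := by rw [this]; ring
          _ = ((1 - P.qR) * Q.h L) * Q.u * Q.κ := by rw [a5]; ring
          _ = _ := by rw [a2]; ring
      rw [e1, a6, mul_inv]
      have k3' := k3
      rw [a6] at k3'
      calc (1 - P.qR) * (P.qL * (Q.u ^ a * (1 - Q.u))) * ((Q.u ^ a)⁻¹ * Q.u⁻¹) =
          ((1 - P.qR) * P.qL * (1 - Q.u)) * (Q.u ^ a * (Q.u ^ a)⁻¹) * Q.u⁻¹ := by ring
        _ = Q.κ := by rw [mul_inv_cancel₀ h1, k3', mul_one, mul_assoc, mul_inv_cancel₀ hu.ne', mul_one]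

/-- the weighted number of paths -/
lemma W_eq (hz : MZ P) (t : ℕ) (z : Z2) :
    (wk P hz).W t (fun z => ENNReal.ofReal (Q.om z)) z =
      ENNReal.ofReal (Q.κ ^ t * Q.om z) * cnt P.ty t z := by
  induction t generalizing z with
  | zero => simp [Walk.W, cnt]
  | succ t ih =>
    simp only [Walk.W, cnt]
    rw [← ENNReal.tsum_mul_left]
    congr 1
    ext i
    have hκ := Q.κ0
    have e0 : (wk P hz).ξ i = wξ P.ty i := rfl
    have e1 : (wk P hz).μ i = wμ P i := rfl
    rw [e0, e1]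
    split_ifs with hq
    · rw [ih, ← mul_assoc, ← ENNReal.ofReal_mul (wμ_nonneg P i)]
      congr 2
      rw [Q.om_add]
      have := macro_weight Q i
      calc wμ P i * (Q.κ ^ t * (Q.om z * Q.om (wξ P.ty i))) =
          Q.κ ^ t * Q.om z * (wμ P i * Q.om (wξ P.ty i)) := by ring
        _ = _ := by rw [this]; ring
    · simp

/-- direction and number of pops -/
def dc : ℕ ⊕ ℕ → Bool × ℕ
  | Sum.inl b => (true, b)
  | Sum.inr a => (false, a)

lemma dc_inj {i j : ℕ ⊕ ℕ} (h : dc i = dc j) : i = j := by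
  cases i <;> cases j <;> simp [dc] at h <;> rw [h]

/-- position of a state -/
def ps (s : St) : Z2 := ((s.left.length : ℤ), (s.right.length : ℤ))

lemma ps_mac {ty : Ty} (s : St) (i : ℕ ⊕ ℕ) (hv : vld s (dc i).1 (dc i).2) :
    ps (mac ty s (dc i).1 (dc i).2) = ps s + wξ ty i := by
  match i with
  | Sum.inl b =>
    have hv' : b ≤ s.right.length := by simpa [vld, dc] using hv
    cases ty
    · simp only [dc, mac, ps, wξ, alz, Prod.mk_add_mk, Prod.mk.injEq, List.length_append,
        List.length_reverse, List.length_take, List.length_cons, List.length_drop]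
      omega
    · simp only [dc, mac, ps, wξ, alz, Prod.mk_add_mk, Prod.mk.injEq, List.length_cons,
        List.length_drop]
      omega
  | Sum.inr 0 =>
    cases ty
    · simp [dc, mac, ps, wξ]
    · simp [dc, mac, ps, wξ]
  | Sum.inr (a + 1) =>
    have hv' : a + 1 ≤ s.left.length := by simpa [vld, dc] using hv
    cases ty
    · simp only [dc, mac, ps, wξ, alz, Prod.mk_add_mk, Prod.mk.injEq, List.length_cons,
        List.length_drop]
      omega
    · simp only [dc, mac, ps, wξ, alz, Prod.mk_add_mk, Prod.mk.injEq, List.length_drop]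
      omega

lemma vld_of_quad {ty : Ty} (s : St) (i : ℕ ⊕ ℕ) (h : Quad (ps s + wξ ty i)) :
    vld s (dc i).1 (dc i).2 := by
  match i with
  | Sum.inl b =>
    have := h.2
    simp only [ps, wξ, Prod.mk_add_mk] at this
    simp only [vld, dc, if_true]
    omega
  | Sum.inr 0 => simp [vld, dc]
  | Sum.inr (a + 1) =>
    have := h.1
    simp only [ps, wξ, Prod.mk_add_mk] at this
    simp only [vld, dc, Bool.false_eq_true, if_false]
    omega

lemma enc_inj {i j : ℕ ⊕ ℕ} {w w' : List Bool}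
    (h : enc (dc i).1 (dc i).2 ++ w = enc (dc j).1 (dc j).2 ++ w') : i = j ∧ w = w' := by
  unfold enc at h
  rw [List.cons_append, List.cons_append, List.cons.injEq] at h
  obtain ⟨h1, h2⟩ := replicate_true_inj h.2
  exact ⟨dc_inj (Prod.ext h.1 h1), h2⟩

/-- valid words -/
lemma words {ty : Ty} (t : ℕ) (s : St) (hg : Good ty s) (hc : ClassL ty (arr s)) :
    ∃ T : Finset (List Bool), cnt ty t (ps s) ≤ (T.card : ℝ≥0∞) ∧
      ∀ w ∈ T, ∃ s', Run ty s w s' ∧ Good ty s' ∧ ClassL ty (arr s') ∧ s'.n = s.n + t := by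
  classical
  induction t generalizing s with
  | zero => exact ⟨{[]}, by simp [cnt], by
      intro w hw
      rw [Finset.mem_singleton] at hw
      subst hw
      exact ⟨s, Run.nil s, hg, hc, rfl⟩⟩
  | succ t ih =>
    have key : ∀ i : ℕ ⊕ ℕ, ∃ T : Finset (List Bool),
        (if Quad (ps s + wξ ty i) then cnt ty t (ps s + wξ ty i) else 0) ≤ (T.card : ℝ≥0∞) ∧
        ∀ w ∈ T, vld s (dc i).1 (dc i).2 ∧ ∃ s', Run ty (mac ty s (dc i).1 (dc i).2) w s' ∧
          Good ty s' ∧ ClassL ty (arr s') ∧ s'.n = s.n + (t + 1) := by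
      intro i
      by_cases hq : Quad (ps s + wξ ty i)
      · have hv := vld_of_quad s i hq
        obtain ⟨T, h1, h2⟩ := ih (mac ty s (dc i).1 (dc i).2) (good_mac hg hv)
          (class_mac hg hc _ _)
        refine ⟨T, ?_, fun w hw => ⟨hv, ?_⟩⟩
        · rw [if_pos hq, ← ps_mac s i hv]; exact h1
        · obtain ⟨s', r1, r2, r3, r4⟩ := h2 w hw
          refine ⟨s', r1, r2, r3, ?_⟩
          rw [r4, mac_n]; ring
      · exact ⟨∅, by rw [if_neg hq]; exact bot_le, by simp⟩
    choose T hT1 hT2 using key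
    set F : Finset (ℕ ⊕ ℕ) := (Finset.range (s.right.length + 1)).disjSum
      (Finset.range (s.left.length + 1)) with hF
    have hout : ∀ i, i ∉ F → ¬ Quad (ps s + wξ ty i) := by
      intro i hi hq
      apply hi
      have hv := vld_of_quad s i hq
      match i with
      | Sum.inl b =>
        simp only [vld, dc, if_true] at hv
        rw [hF, Finset.inl_mem_disjSum, Finset.mem_range]; omega
      | Sum.inr a =>
        simp only [vld, dc, Bool.false_eq_true, if_false] at hv
        rw [hF, Finset.inr_mem_disjSum, Finset.mem_range]; omega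
    refine ⟨F.biUnion (fun i => (T i).image (fun w => enc (dc i).1 (dc i).2 ++ w)), ?_, ?_⟩
    · have hdisj : ∀ i ∈ F, ∀ j ∈ F, i ≠ j →
          Disjoint ((T i).image (fun w => enc (dc i).1 (dc i).2 ++ w))
            ((T j).image (fun w => enc (dc j).1 (dc j).2 ++ w)) := by
        intro i _ j _ hij
        rw [Finset.disjoint_left]
        intro x hx hx'
        obtain ⟨w, _, rfl⟩ := Finset.mem_image.mp hx
        obtain ⟨w', _, h⟩ := Finset.mem_image.mp hx'
        exact hij (enc_inj h.symm).1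
      rw [Finset.card_biUnion hdisj]
      have hcard : ∀ i ∈ F, ((T i).image (fun w => enc (dc i).1 (dc i).2 ++ w)).card = (T i).card := by
        intro i _
        apply Finset.card_image_of_injective
        intro w w' h
        exact (enc_inj h).2
      rw [Finset.sum_congr rfl hcard]
      simp only [cnt]
      rw [tsum_eq_sum (s := F)]
      · push_cast
        exact Finset.sum_le_sum fun i _ => hT1 i
      · intro i hi
        rw [if_neg (hout i hi)]
    · intro x hx
      obtain ⟨i, _, hx⟩ := Finset.mem_biUnion.mp hx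
      obtain ⟨w, hw, rfl⟩ := Finset.mem_image.mp hx
      obtain ⟨hv, s', r1, r2, r3, r4⟩ := hT2 i w hw
      exact ⟨s', run_append (run_mac hg.mode hv) r1, r2, r3, r4⟩

end Pool.Agent.TwoLIS
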