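import Pool.Agent.TwoLIS.Mach

/-!
Tail bound for the duration of a block, from linear and quadratic potentials.
-/

namespace Pool.Agent.TwoLIS

open scoped ENNReal
open Filter Topology
open Pool.Agent.BaxterLIS
open Md Ty

/-- height increment -/
def dK : Ty → Md → Bool → ℝ
  | _, R, true => -1
  | _, L, false => 1
  | semi, M, false => 1
  | _, _, _ => 0

lemma nK_cast (ty : Ty) (m : Md) (b : Bool) {k : ℕ} (hk : k ≠ 0) :
    ((nK ty m b k : ℕ) : ℝ) = k + dK ty m b := by
  obtain ⟨k, rfl⟩ := Nat.exists_eq_succ_of_ne_zero hk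
  cases ty <;> cases m <;> cases b <;> simp [nK, dK]

/-- potentials for the height -/
structure TD (P : Prm) where
  e : Md → ℝ
  σ : ℝ
  S1 : Md → ℝ
  S0 : Md → ℝ
  σ0 : 0 < σ
  σ3 : σ ≤ 3
  e0 : ∀ m, 0 ≤ e m
  eR : e R = 0
  S1R : S1 R = 0
  S0R : S0 R = 0
  hS1 : ∀ m, S1 m ≤ 6 * σ
  hS0 : ∀ m, S0 m ≤ 6 * σ * e m
  harm : ∀ m, P.pr m true * (dK P.ty m true + e (nM m true)) +
    P.pr m false * (dK P.ty m false + e (nM m false)) = e m
  quad : ∀ m (k : ℝ), P.pr m true * (σ * (k + dK P.ty m true) ^ 2 +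
      S1 (nM m true) * (k + dK P.ty m true) + S0 (nM m true)) +
    P.pr m false * (σ * (k + dK P.ty m false) ^ 2 +
      S1 (nM m false) * (k + dK P.ty m false) + S0 (nM m false)) =
      σ * k ^ 2 + S1 m * k + S0 m + 1

variable (P : Prm)

/-- unresolved probability of the height automaton -/
noncomputable def un (n : ℕ) (m : Md) (k : ℕ) : ℝ := unres P.ch (n1 P.ty) Prod.fst f1 n (m, k)

/-- two-sided exit -/
def f3 (B : ℕ) (t : Md × ℕ) : Prop := t.2 = 0 ∨ B ≤ t.2

noncomputable def vn (B n : ℕ) (m : Md) (k : ℕ) : ℝ :=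
  unres P.ch (n1 P.ty) Prod.fst (f3 B) n (m, k)

lemma un_zero (m : Md) (k : ℕ) : un P 0 m k = if k = 0 then 0 else 1 := by
  by_cases h : k = 0 <;> simp [un, unres, f1, h]

lemma un_succ (n : ℕ) (m : Md) (k : ℕ) : un P (n + 1) m k = if k = 0 then 0 else
    P.pr m true * un P n (nM m true) (nK P.ty m true k) +
    P.pr m false * un P n (nM m false) (nK P.ty m false k) := by
  simp [un, unres, f1, n1]

lemma vn_zero (B : ℕ) (m : Md) (k : ℕ) : vn P B 0 m k = if k = 0 ∨ B ≤ k then 0 else 1 := by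
  by_cases h : k = 0 ∨ B ≤ k <;> simp [vn, unres, f3, h]

lemma vn_succ (B n : ℕ) (m : Md) (k : ℕ) : vn P B (n + 1) m k = if k = 0 ∨ B ≤ k then 0 else
    P.pr m true * vn P B n (nM m true) (nK P.ty m true k) +
    P.pr m false * vn P B n (nM m false) (nK P.ty m false k) := by
  simp [vn, unres, f3, n1]

lemma un_le_one (n : ℕ) (m : Md) (k : ℕ) : un P n m k ≤ 1 := unres_le_one _ _ _
lemma un_nonneg (n : ℕ) (m : Md) (k : ℕ) : 0 ≤ un P n m k := unres_nonneg _ _ _
lemma vn_nonneg (B n : ℕ) (m : Md) (k : ℕ) : 0 ≤ vn P B n m k := unres_nonneg _ _ _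
lemma vn_le_one (B n : ℕ) (m : Md) (k : ℕ) : vn P B n m k ≤ 1 := unres_le_one _ _ _

lemma pr_sum (m : Md) : P.pr m true + P.pr m false = 1 := P.ch.p_sum m

variable {P} (D : TD P)

/-- linear harmonic function -/
def TD.ell (m : Md) (k : ℝ) : ℝ := k + D.e m

/-- quadratic function with mean decrease one -/
def TD.Qf (B : ℝ) (m : Md) (k : ℝ) : ℝ :=
  D.σ * (B + 6) * (k + D.e m) - (D.σ * k ^ 2 + D.S1 m * k + D.S0 m)

lemma TD.ell_ge (m : Md) (k : ℕ) : (k : ℝ) ≤ D.ell m k := by
  have := D.e0 m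
  unfold TD.ell; linarith

lemma TD.ell_nonneg (m : Md) (k : ℕ) : 0 ≤ D.ell m k :=
  le_trans (Nat.cast_nonneg k) (D.ell_ge m k)

lemma TD.ell_harm (m : Md) (k : ℕ) (hk : k ≠ 0) :
    P.pr m true * D.ell (nM m true) (nK P.ty m true k) +
    P.pr m false * D.ell (nM m false) (nK P.ty m false k) = D.ell m k := by
  rw [nK_cast _ _ _ hk, nK_cast _ _ _ hk]
  unfold TD.ell
  have h1 := D.harm m
  have h2 := pr_sum P m
  linear_combination h1 + (k:ℝ) * h2

lemma TD.Qf_harm (B : ℝ) (m : Md) (k : ℕ) (hk : k ≠ 0) :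
    P.pr m true * D.Qf B (nM m true) (nK P.ty m true k) +
    P.pr m false * D.Qf B (nM m false) (nK P.ty m false k) = D.Qf B m k - 1 := by
  rw [nK_cast _ _ _ hk, nK_cast _ _ _ hk]
  unfold TD.Qf
  have h1 := D.harm m
  have h2 := pr_sum P m
  have h3 := D.quad m k
  linear_combination D.σ * (B + 6) * h1 + D.σ * (B + 6) * (k:ℝ) * h2 - h3

lemma TD.Qf_nonneg (B : ℕ) (m : Md) (k : ℕ) (hk : k ≤ B) : 0 ≤ D.Qf B m k := by
  have h : (k : ℝ) ≤ B := by exact_mod_cast hk
  have h0 : (0:ℝ) ≤ k := by positivity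
  have hB : (0:ℝ) ≤ B := by positivity
  have hσ := D.σ0
  have he := D.e0 m
  have e1 : 0 ≤ D.σ * k * (B - k) := by
    have : 0 ≤ (B:ℝ) - k := by linarith
    positivity
  have e2 : D.S1 m * k ≤ 6 * D.σ * k := mul_le_mul_of_nonneg_right (D.hS1 m) h0
  have e3 := D.hS0 m
  have e4 : 0 ≤ D.σ * D.e m * B := by positivity
  unfold TD.Qf
  nlinarith

include D in
lemma un_le_ell_add_vn (B n : ℕ) (hB : 1 ≤ B) (m : Md) (k : ℕ) :
    un P n m k ≤ D.ell m k / B + vn P B n m k := by
  have hB' : (0:ℝ) < B := by exact_mod_cast hB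
  have far : ∀ (n : ℕ) (m : Md) (k : ℕ), B ≤ k → un P n m k ≤ D.ell m k / B := by
    intro n m k h
    have h1 : (1:ℝ) ≤ D.ell m k / B := by
      rw [le_div_iff₀ hB', one_mul]
      exact le_trans (by exact_mod_cast h) (D.ell_ge m k)
    exact (un_le_one _ _ _ _).trans h1
  induction n generalizing m k with
  | zero =>
    by_cases h0 : k = 0
    · rw [un_zero, if_pos h0]
      have := D.ell_nonneg m k
      have := vn_nonneg P B 0 m k
      positivity
    · by_cases h1 : B ≤ k
      · have := far 0 m k h1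
        have := vn_nonneg P B 0 m k
        linarith
      · rw [un_zero, if_neg h0, vn_zero, if_neg (by tauto)]
        have := D.ell_nonneg m k
        have : 0 ≤ D.ell m k / B := by positivity
        linarith
  | succ n ih =>
    by_cases h0 : k = 0
    · rw [un_succ, if_pos h0]
      have := D.ell_nonneg m k
      have := vn_nonneg P B (n+1) m k
      positivity
    · by_cases h1 : B ≤ k
      · have := far (n+1) m k h1
        have := vn_nonneg P B (n+1) m k
        linarith
      · rw [un_succ, if_neg h0, vn_succ, if_neg (by tauto)]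
        have i1 := mul_le_mul_of_nonneg_left (ih (nM m true) (nK P.ty m true k)) (P.pr_pos m true).le
        have i2 := mul_le_mul_of_nonneg_left (ih (nM m false) (nK P.ty m false k)) (P.pr_pos m false).le
        have h3 := D.ell_harm m k h0
        rw [← h3, add_div, mul_div_assoc, mul_div_assoc]
        linarith

include D in
lemma vn_le (B n : ℕ) (m : Md) (k : ℕ) (hk : k ≤ B) : n * vn P B n m k ≤ D.Qf B m k := by
  induction n generalizing m k with
  | zero => simpa using D.Qf_nonneg B m k hk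
  | succ n ih =>
    by_cases h0 : k = 0 ∨ B ≤ k
    · rw [vn_succ, if_pos h0]
      simpa using D.Qf_nonneg B m k hk
    · rw [vn_succ, if_neg h0]
      push Not at h0
      have hk1 : ∀ b, nK P.ty m b k ≤ B := by
        intro b
        have hty := P.ty
        cases h : P.ty <;> cases m <;> cases b <;> simp [nK] <;> omega
      have p1 := (P.pr_pos m true).le
      have p2 := (P.pr_pos m false).le
      have i1 := mul_le_mul_of_nonneg_left (ih (nM m true) (nK P.ty m true k) (hk1 _)) p1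
      have i2 := mul_le_mul_of_nonneg_left (ih (nM m false) (nK P.ty m false k) (hk1 _)) p2
      have h3 := D.Qf_harm B m k h0.1
      have j1 := mul_le_mul_of_nonneg_left (vn_le_one P B n (nM m true) (nK P.ty m true k)) p1
      have j2 := mul_le_mul_of_nonneg_left (vn_le_one P B n (nM m false) (nK P.ty m false k)) p2
      have h4 := pr_sum P m
      push_cast
      nlinarith

include D in
/-- tail bound for the duration of a block -/
lemma un_bound (B n h : ℕ) (hB : 1 ≤ B) (hn : 1 ≤ n) (hh : h ≤ B) :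
    un P n R h ≤ h / B + 3 * h * (B + 6) / n := by
  have h1 := un_le_ell_add_vn D B n hB R h
  have h2 := vn_le D B n R h hh
  have hn' : (0:ℝ) < n := by exact_mod_cast hn
  have h3 : vn P B n R h ≤ D.Qf B R h / n := by
    rw [le_div_iff₀ hn']; linarith
  have h4 : D.Qf B R h ≤ 3 * h * (B + 6) := by
    simp only [TD.Qf, D.eR, D.S1R, D.S0R]
    have h0 : (0:ℝ) ≤ h := by positivity
    have hB0 : (0:ℝ) ≤ (B:ℝ) + 6 := by positivity
    have := D.σ3
    have := D.σ0
    have e1 : D.σ * (B + 6) * (h + 0) ≤ 3 * (B + 6) * (h + 0) := by gcongr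
    have e2 : 0 ≤ D.σ * (h:ℝ) ^ 2 := by positivity
    nlinarith
  have h5 : D.Qf B R h / n ≤ 3 * h * (B + 6) / n := by gcongr
  have h6 : D.ell R (h:ℝ) = h := by unfold TD.ell; rw [D.eR, add_zero]
  rw [h6] at h1
  linarith

include D in
/-- the unresolved probability tends to zero -/
lemma un_tendsto (h : ℕ) : Tendsto (fun n => un P n R h) atTop (𝓝 0) := by
  rw [Metric.tendsto_atTop]
  intro ε hε
  obtain ⟨B, hB⟩ := exists_nat_gt (2 * h / ε)
  have hB1 : 1 ≤ max B (max h 1) := le_trans (le_max_right _ _) (le_max_right _ _)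
  set B' := max B (max h 1) with hB'
  have hBpos : (0:ℝ) < B' := by exact_mod_cast hB1
  obtain ⟨N, hN⟩ := exists_nat_gt (6 * h * (B' + 6) / ε)
  refine ⟨max N 1, fun n hn => ?_⟩
  have hn1 : 1 ≤ n := le_trans (le_max_right _ _) hn
  have hnN : N ≤ n := le_trans (le_max_left _ _) hn
  have hnpos : (0:ℝ) < n := by exact_mod_cast hn1
  have h0 : 0 ≤ un P n R h := un_nonneg _ _ _ _
  rw [Real.dist_eq, sub_zero, abs_of_nonneg h0]
  have h1 := un_bound D B' n h hB1 hn1 (le_trans (le_max_left _ _) (le_max_right _ _))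
  have h2 : (h:ℝ) / B' ≤ ε / 2 := by
    rw [div_le_iff₀ hBpos]
    have : (B:ℝ) ≤ B' := by exact_mod_cast le_max_left _ _
    rw [div_lt_iff₀ hε] at hB
    nlinarith
  have h3 : 3 * (h:ℝ) * (B' + 6) / n < ε / 2 := by
    rw [div_lt_iff₀ hnpos]
    rw [div_lt_iff₀ hε] at hN
    have : (N:ℝ) ≤ n := by exact_mod_cast hnN
    nlinarith
  linarith

include D in
/-- with positive probability a block of height `h` lasts at most `C h ^ 2` flips -/
lemma un_quad (h : ℕ) (hh : 1 ≤ h) : un P (400 * h ^ 2) R h ≤ 1 / 4 := by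
  have h1 := un_bound D (8 * h) (400 * h ^ 2) h (by omega) (Nat.succ_le_of_lt (by positivity)) (by omega)
  have hpos : (1:ℝ) ≤ h := by exact_mod_cast hh
  have h2 : (h:ℝ) / ((8 * h : ℕ) : ℝ) = 1 / 8 := by
    push_cast; field_simp
  have h3 : 3 * (h:ℝ) * (((8 * h : ℕ) : ℝ) + 6) / ((400 * h ^ 2 : ℕ) : ℝ) ≤ 1 / 8 := by
    push_cast
    rw [div_le_iff₀ (by positivity)]
    nlinarith
  rw [h2] at h1
  linarith

end Pool.Agent.TwoLIS
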