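import Pool.Agent.BaxterLIS.Blocks
import Pool.Agent.TwoLIS.MTime

/-!
Blocks of the machine: total mass one, Laplace transforms, tails.
-/

namespace Pool.Agent.TwoLIS

open scoped ENNReal
open Filter Topology
open Pool.Agent.BaxterLIS (Chain ind ind_le_one ind_true ind_false ind_mono acc unres kraft
  trunc_add_unres acc_prefix_free tsum_le_of_split tsum_ge_of_inj unres_nonneg unres_le_one potential)
open Md Ty

variable {P : Prm} (D : TD P)

include D in
/-- blocks of height `h` have total mass one -/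
lemma mass_one (h : ℕ) : P.ch.E R (fun w => ind (hits P.ty w R h)) = 1 := by
  apply le_antisymm
  · exact kraft (c := P.ch) (nt := n1 P.ty) (π := Prod.fst) (fun _ _ => rfl) f1 f1 (fun _ h => h)
      (R, h)
  · have h1 : ∀ n, ENNReal.ofReal (1 - un P n R h) ≤ P.ch.E R (fun w => ind (hits P.ty w R h)) := by
      intro n
      have := trunc_add_unres (c := P.ch) (nt := n1 P.ty) (π := Prod.fst) (fun _ _ => rfl) f1 n (R, h)
      rw [un, ← this]
      exact P.ch.E_mono _ (Chain.trunc_le n _)
    have h2 : Tendsto (fun n => ENNReal.ofReal (1 - un P n R h)) atTop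
        (𝓝 (ENNReal.ofReal (1 - 0))) :=
      (ENNReal.continuous_ofReal.tendsto _).comp (tendsto_const_nhds.sub (un_tendsto D h))
    simp only [sub_zero, ENNReal.ofReal_one] at h2
    exact le_of_tendsto' h2 h1

variable (P) in
/-- mass of the blocks with a property -/
noncomputable def PE (h : ℕ) (a : ℝ) : ℝ≥0∞ :=
  P.ch.E R (fun w => ind (hits P.ty w R h ∧ a ≤ rew P.ty w))

variable (P) in
/-- Laplace transform of the reward -/
noncomputable def LE (h : ℕ) (l : ℝ) : ℝ≥0∞ :=
  P.ch.E R (fun w => ind (hits P.ty w R h) * ENNReal.ofReal (Real.exp (-(l * rew P.ty w))))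

include D in
lemma PE_le_one (h : ℕ) (a : ℝ) : PE P h a ≤ 1 := by
  rw [← mass_one D h]
  exact P.ch.E_mono _ fun w => ind_mono fun h => h.1

include D in
lemma PE_ne_top (h : ℕ) (a : ℝ) : PE P h a ≠ ∞ :=
  ne_top_of_le_ne_top ENNReal.one_ne_top (PE_le_one D h a)

include D in
lemma LE_le_one (h : ℕ) (l : ℝ) (hl : 0 ≤ l) : LE P h l ≤ 1 := by
  rw [← mass_one D h]
  refine P.ch.E_mono _ fun w => ?_
  have : ENNReal.ofReal (Real.exp (-(l * rew P.ty w))) ≤ 1 := by
    rw [← ENNReal.ofReal_one]
    apply ENNReal.ofReal_le_ofReal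
    apply Real.exp_le_one_iff.mpr
    have : 0 ≤ l * (rew P.ty w : ℝ) := by positivity
    linarith
  calc _ ≤ ind (hits P.ty w R h) * 1 := by gcongr
    _ = _ := mul_one _

include D in
lemma LE_ne_top (h : ℕ) (l : ℝ) (hl : 0 ≤ l) : LE P h l ≠ ∞ :=
  ne_top_of_le_ne_top ENNReal.one_ne_top (LE_le_one D h l hl)

lemma LE_add (h₁ h₂ : ℕ) (l : ℝ) (hl : 0 ≤ l) : LE P (h₁ + h₂) l ≤ LE P h₁ l * LE P h₂ l := by
  have key : LE P (h₁ + h₂) l ≤ ∑' u, ∑' v,
      (P.ch.wt R u * (ind (hits P.ty u R h₁) * ENNReal.ofReal (Real.exp (-(l * rew P.ty u))))) *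
      (P.ch.wt R v * (ind (hits P.ty v R h₂) * ENNReal.ofReal (Real.exp (-(l * rew P.ty v))))) := by
    unfold LE Chain.E
    apply tsum_le_of_split
    intro w hw
    have hw1 : hits P.ty w R (h₁ + h₂) := by
      by_contra hcon
      apply hw
      beta_reduce
      rw [ind_false hcon]; simp
    obtain ⟨u, v, rfl, hu, hv⟩ := hits_split (fun _ => rfl) hw1
    refine ⟨u, v, rfl, ?_⟩
    beta_reduce
    rw [ind_true hw1, ind_true hu, ind_true hv, P.ch.wt_append, hits_run P (fun _ => rfl) hu]
    simp only [one_mul]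
    have h1 : Real.exp (-(l * rew P.ty (u ++ v))) ≤
        Real.exp (-(l * rew P.ty u)) * Real.exp (-(l * rew P.ty v)) := by
      rw [← Real.exp_add]
      apply Real.exp_le_exp.mpr
      have h2 : ((rew P.ty u : ℝ) + rew P.ty v) ≤ rew P.ty (u ++ v) := by
        exact_mod_cast rew_append (ty := P.ty) hu
      nlinarith
    calc P.ch.wt R u * P.ch.wt R v * ENNReal.ofReal (Real.exp (-(l * rew P.ty (u ++ v))))
        ≤ P.ch.wt R u * P.ch.wt R v *
          ENNReal.ofReal (Real.exp (-(l * rew P.ty u)) * Real.exp (-(l * rew P.ty v))) := by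
          gcongr
      _ = _ := by
          rw [ENNReal.ofReal_mul (Real.exp_pos _).le]; ring
  refine key.trans (le_of_eq ?_)
  unfold LE Chain.E
  simp only [ENNReal.tsum_mul_left, ENNReal.tsum_mul_right]

include D in
lemma LE_le (h : ℕ) (l a₁ a₂ : ℝ) (hl : 0 ≤ l) (h1 : 0 ≤ a₁) (h12 : a₁ ≤ a₂) :
    LE P h l + (ENNReal.ofReal (1 - Real.exp (-(l * a₁))) * PE P h a₁ +
      ENNReal.ofReal (Real.exp (-(l * a₁)) - Real.exp (-(l * a₂))) * PE P h a₂) ≤ 1 := by
  unfold LE PE
  rw [← P.ch.E_mul_left, ← P.ch.E_mul_left, ← P.ch.E_add, ← P.ch.E_add, ← mass_one D h]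
  refine P.ch.E_mono _ fun w => ?_
  by_cases hw : hits P.ty w R h
  · simp only [hw, true_and]
    rw [ind_true trivial, one_mul]
    have e1 : Real.exp (-(l * a₂)) ≤ Real.exp (-(l * a₁)) := by
      apply Real.exp_le_exp.mpr; nlinarith
    have e2 : Real.exp (-(l * a₁)) ≤ 1 := by
      apply Real.exp_le_one_iff.mpr; nlinarith
    have e0 : Real.exp (-(l * rew P.ty w)) ≤ 1 := by
      apply Real.exp_le_one_iff.mpr
      have : 0 ≤ l * (rew P.ty w : ℝ) := by positivity
      linarith
    by_cases g1 : a₁ ≤ rew P.ty w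
    · by_cases g2 : a₂ ≤ rew P.ty w
      · rw [ind_true g1, ind_true g2, mul_one, mul_one, ← ENNReal.ofReal_add (by linarith) (by linarith),
          ← ENNReal.ofReal_add (Real.exp_pos _).le (by linarith), ← ENNReal.ofReal_one]
        apply ENNReal.ofReal_le_ofReal
        have : Real.exp (-(l * rew P.ty w)) ≤ Real.exp (-(l * a₂)) := by
          apply Real.exp_le_exp.mpr; nlinarith
        linarith
      · rw [ind_true g1, ind_false g2, mul_one, mul_zero, add_zero,
          ← ENNReal.ofReal_add (Real.exp_pos _).le (by linarith), ← ENNReal.ofReal_one]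
        apply ENNReal.ofReal_le_ofReal
        have : Real.exp (-(l * rew P.ty w)) ≤ Real.exp (-(l * a₁)) := by
          apply Real.exp_le_exp.mpr; nlinarith
        linarith
    · have g2 : ¬ a₂ ≤ rew P.ty w := fun h => g1 (h12.trans h)
      rw [ind_false g1, ind_false g2]
      simp only [mul_zero, add_zero]
      rw [← ENNReal.ofReal_one]
      exact ENNReal.ofReal_le_ofReal e0
  · simp [hw, ind]

include D in
lemma one_le_tail (h : ℕ) (l a : ℝ) (hl : 0 ≤ l) :
    1 ≤ PE P h a + ENNReal.ofReal (Real.exp (l * a)) * LE P h l := by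
  unfold LE PE
  rw [← P.ch.E_mul_left, ← P.ch.E_add, ← mass_one D h]
  refine P.ch.E_mono _ fun w => ?_
  by_cases hw : hits P.ty w R h
  · simp only [hw, true_and]
    by_cases g : a ≤ rew P.ty w
    · rw [ind_true g]
      have := ind_le_one True
      exact this.trans (by simp)
    · rw [ind_false g, ind_true trivial, one_mul, zero_add, ← ENNReal.ofReal_mul (Real.exp_pos _).le,
        ← Real.exp_add, ← ENNReal.ofReal_one]
      apply ENNReal.ofReal_le_ofReal
      apply Real.one_le_exp
      push Not at g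
      nlinarith
  · simp [hw, ind]

lemma wt_replicate (h : ℕ) : P.ch.wt R (List.replicate h true) = ENNReal.ofReal P.y ^ h := by
  induction h with
  | zero => simp
  | succ h ih =>
    rw [List.replicate_succ, Chain.wt_cons]
    have e : P.ch.nx R true = R := rfl
    have e2 : P.ch.p R true = P.y := rfl
    rw [e, e2, ih, pow_succ, mul_comm]

include D in
lemma one_le_P_one (h : ℕ) : 1 ≤ PE P h 1 + ENNReal.ofReal P.y ^ h := by
  have h1 : P.ch.E R (fun w => ind (w = List.replicate h true)) = ENNReal.ofReal P.y ^ h := by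
    unfold Chain.E
    rw [tsum_eq_single (List.replicate h true)]
    · beta_reduce
      rw [ind_true rfl, mul_one, wt_replicate]
    · intro w hw
      beta_reduce
      rw [ind_false hw, mul_zero]
  rw [← h1]
  unfold PE
  rw [← P.ch.E_add, ← mass_one D h]
  refine P.ch.E_mono _ fun w => ?_
  by_cases hw : hits P.ty w R h
  · by_cases hne : w = List.replicate h true
    · rw [ind_true hne]
      exact (ind_le_one _).trans (by simp)
    · have h2 := one_le_rew hw hne
      have h3 : (1:ℝ) ≤ rew P.ty w := by exact_mod_cast h2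
      rw [ind_true (P := hits P.ty w R h ∧ (1:ℝ) ≤ rew P.ty w) ⟨hw, h3⟩]
      exact (ind_le_one _).trans (by simp)
  · rw [ind_false hw]; simp

end Pool.Agent.TwoLIS
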