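import Pool.Agent.TwoLIS.MBlocks

/-!
The jump event: without restarting, the walker is below zero at a moment when the height has
doubled.  Its probability is bounded below, by a polynomial harmonic function.
-/

namespace Pool.Agent.TwoLIS

open scoped ENNReal
open Filter Topology
open Pool.Agent.BaxterLIS (Chain ind ind_le_one ind_true ind_false ind_mono acc unres kraft
  trunc_add_unres acc_prefix_free tsum_le_of_split tsum_ge_of_inj unres_nonneg unres_le_one potential)
open Md Ty

/-- increment of the depth in the left stack -/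
def dN : Ty → Md → Bool → ℝ
  | semi, R, true => 1
  | _, R, false => 1
  | _, L, true => -1
  | _, M, true => -1
  | _, _, _ => 0

/-- harmonic data -/
structure JD (P : Prm) where
  V : Md → ℝ → ℝ → ℝ
  d : ℕ
  ψ : ℝ → ℝ
  ψR : ∀ k, V R 0 k = ψ k
  ψM : ∀ k, V M 0 k = ψ k
  harm : ∀ m N k, V m N k =
    P.pr m true * V (nM m true) (N + dN P.ty m true) (k + dK P.ty m true) +
    P.pr m false * V (nM m false) (N + dN P.ty m false) (k + dK P.ty m false)
  C : ℝ
  C0 : 0 < C
  up : ∀ m (N k T : ℝ), 1 ≤ T → 1 ≤ N → 0 ≤ k → k ≤ T → V m N k ≤ C * T ^ d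
  fail : ∀ N : ℝ, 0 ≤ N → V R N 0 ≤ 0
  ψeq : ∀ k, ψ k = k ^ d
  C1 : 1 ≤ C

variable {P : Prm} (D : TD P) (J : JD P)

variable (P) in
/-- state: mode, walker, height -/
def n2 (t : Md × ℤ × ℕ) (b : Bool) : Md × ℤ × ℕ :=
  (nM t.1 b, zz P.ty t.1 b t.2.1, nK P.ty t.1 b t.2.2)

/-- success: the walker is negative and the height is `T` -/
def sucJ (T : ℕ) (t : Md × ℤ × ℕ) : Prop := t.1 = I ∧ t.2.1 < 0 ∧ t.2.2 = T

/-- resolved -/
def finJ (T : ℕ) (t : Md × ℤ × ℕ) : Prop := t.2.2 = 0 ∨ sucJ T t

variable (P) in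
/-- jump words -/
def jmp (T : ℕ) (w : List Bool) (m : Md) (z : ℤ) (k : ℕ) : Prop :=
  acc (n2 P) (finJ T) (sucJ T) w (m, z, k)

noncomputable def JD.U (t : Md × ℤ × ℕ) : ℝ :=
  if t.2.1 < 0 then J.V t.1 (-(t.2.1 : ℝ)) t.2.2 else J.ψ ((t.2.2 : ℝ) - t.2.1)

def InvJ (T : ℕ) (t : Md × ℤ × ℕ) : Prop :=
  (t.2.1 < 0 → t.2.2 < T ∨ sucJ T t) ∧ (0 ≤ t.2.1 → t.2.1 ≤ t.2.2 ∧ (t.2.2 : ℤ) - t.2.1 < T)

lemma InvJ_step (T : ℕ) (t : Md × ℤ × ℕ) (b : Bool) (h : InvJ T t) (hf : ¬ finJ T t) :
    InvJ T (n2 P t b) := by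
  obtain ⟨m, z, k⟩ := t
  simp only [InvJ, finJ, sucJ, n2] at *
  push Not at hf
  obtain ⟨hk, hf⟩ := hf
  obtain ⟨h1, h2⟩ := h
  cases hty : P.ty <;> cases m <;> cases b <;> simp only [nM, zz, nK] at * <;> (try split_ifs) <;>
    refine ⟨?_, ?_⟩ <;> simp at * <;> omega

lemma U_le (T : ℕ) (hT : 1 ≤ T) (t : Md × ℤ × ℕ) (h : InvJ T t) : J.U t ≤ J.C * (T : ℝ) ^ J.d := by
  obtain ⟨m, z, k⟩ := t
  obtain ⟨h1, h2⟩ := h
  simp only at h1 h2
  have hT' : (1:ℝ) ≤ T := by exact_mod_cast hT
  unfold JD.U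
  by_cases hz : z < 0
  · simp only [hz, if_true]
    have hkT : (k:ℝ) ≤ T := by
      rcases h1 hz with h | h
      · exact_mod_cast h.le
      · exact_mod_cast h.2.2.le
    apply J.up _ _ _ _ hT' _ (Nat.cast_nonneg k) hkT
    have : z ≤ -1 := by omega
    have : (z:ℝ) ≤ -1 := by exact_mod_cast this
    linarith
  · simp only [hz, if_false]
    obtain ⟨g1, g2⟩ := h2 (not_lt.mp hz)
    have g1' : (0:ℝ) ≤ (k:ℝ) - z := by
      have : (z:ℝ) ≤ k := by exact_mod_cast g1
      linarith
    have g2' : (k:ℝ) - z ≤ T := by exact_mod_cast g2.le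
    rw [J.ψeq]
    calc ((k:ℝ) - z) ^ J.d ≤ (T:ℝ) ^ J.d := pow_le_pow_left₀ g1' g2' _
      _ = 1 * (T:ℝ) ^ J.d := by ring
      _ ≤ _ := by
        have := J.C1
        gcongr

lemma U_fail (T : ℕ) (t : Md × ℤ × ℕ) (h : InvJ T t) (hf : finJ T t) (hs : ¬ sucJ T t)
    (hm : t.2.2 = 0 → t.1 = R) : J.U t ≤ 0 := by
  obtain ⟨m, z, k⟩ := t
  obtain ⟨h1, h2⟩ := h
  simp only [finJ] at *
  rcases hf with hk | hf
  · subst hk
    obtain rfl := hm rfl
    unfold JD.U
    by_cases hz : z < 0
    · simp only [hz, if_true, Nat.cast_zero]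
      apply J.fail
      have : (z:ℝ) < 0 := by exact_mod_cast hz
      linarith
    · obtain ⟨g1, g2⟩ := h2 (not_lt.mp hz)
      have hz0 : z = 0 := by
        have : z ≤ 0 := by simpa using g1
        omega
      subst hz0
      simp only [lt_self_iff_false, if_false, Nat.cast_zero, Int.cast_zero, sub_zero]
      rw [← J.ψR]
      exact J.fail 0 le_rfl
  · exact absurd hf hs

lemma zz_cast (ty : Ty) (m : Md) (b : Bool) {z : ℤ} (hz : z < 0) :
    ((zz ty m b z : ℤ) : ℝ) = z - dN ty m b := by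
  have h1 : z ≤ -1 := by omega
  have h2 : z ≤ 0 := by omega
  have h3 : ¬ (1 ≤ z) := by omega
  have h4 : ¬ (0 ≤ z) := by omega
  cases ty <;> cases m <;> cases b <;> simp [zz, dN, h1, h2, h3, h4]

lemma zz_neg_cases (ty : Ty) (m : Md) (b : Bool) {z : ℤ} (hz : z < 0) :
    zz ty m b z < 0 ∨ (zz ty m b z = 0 ∧ nM m b = M) := by
  cases ty <;> cases m <;> cases b <;> simp only [zz, nM] <;> (try split_ifs) <;>
    first | (left; omega) | (by_cases h : z = -1 <;> [(right; exact ⟨by omega, trivial⟩); (left; omega)])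

lemma U_harm_neg (m : Md) (z : ℤ) (k : ℕ) (hk : k ≠ 0) (hz : z < 0) :
    J.U (m, z, k) = P.pr m true * J.U (n2 P (m, z, k) true) + P.pr m false * J.U (n2 P (m, z, k) false) := by
  have key : ∀ b, J.U (n2 P (m, z, k) b) =
      J.V (nM m b) (-(z:ℝ) + dN P.ty m b) (k + dK P.ty m b) := by
    intro b
    have e1 := zz_cast P.ty m b hz
    have e2 := nK_cast P.ty m b hk
    unfold JD.U n2
    simp only
    rcases zz_neg_cases P.ty m b hz with h | ⟨h, hM⟩
    · rw [if_pos h, e1, e2]; congr 1; ring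
    · rw [if_neg (by omega), hM, e2]
      have e3 : -(z:ℝ) + dN P.ty m b = 0 := by
        have : ((zz P.ty m b z : ℤ) : ℝ) = 0 := by rw [h]; simp
        linarith
      rw [e3, J.ψM, h]
      simp
  rw [key, key]
  have h0 : J.U (m, z, k) = J.V m (-(z:ℝ)) k := by
    unfold JD.U; simp only [hz, if_true]
  rw [h0]
  exact J.harm m (-(z:ℝ)) k

lemma U_harm_zero (m : Md) (k : ℕ) (hk : k ≠ 0) :
    J.U (m, 0, k) = P.pr m true * J.U (n2 P (m, 0, k) true) + P.pr m false * J.U (n2 P (m, 0, k) false) := by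
  have h0 : J.U (m, 0, k) = J.ψ k := by unfold JD.U; simp
  have hs := pr_sum P m
  rw [h0]
  by_cases hm : m = R
  · subst hm
    rw [← J.ψR, J.harm R 0 k]
    have e2 := nK_cast P.ty R true hk
    have e3 := nK_cast P.ty R false hk
    have k1 : J.U (n2 P (R, 0, k) true) = J.V R (0 + dN P.ty R true) (k + dK P.ty R true) := by
      unfold JD.U n2
      simp only
      rw [← e2]
      cases hty : P.ty
      · have : zz semi R true 0 = -1 := by decide
        rw [this]; simp [nM, dN]
      · have : zz strong R true 0 = 0 := by decide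
        rw [this]; simp [dN, J.ψR]
    have k2 : J.U (n2 P (R, 0, k) false) = J.V I (0 + dN P.ty R false) (k + dK P.ty R false) := by
      unfold JD.U n2
      simp only
      rw [← e3]
      have : zz P.ty R false 0 = -1 := by cases P.ty <;> decide
      rw [this]; cases P.ty <;> simp [nM, dN]
    rw [k1, k2]
    rfl
  · have key : ∀ b, J.U (n2 P (m, 0, k) b) = J.ψ k := by
      intro b
      unfold JD.U n2
      simp only
      cases hty : P.ty <;> cases m <;> cases b <;> simp [zz, nK] at hm ⊢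
    rw [key, key]
    linear_combination -(J.ψ k) * hs

lemma U_harm_pos (m : Md) (z : ℤ) (k : ℕ) (hk : k ≠ 0) (hz : 0 < z) :
    J.U (m, z, k) = P.pr m true * J.U (n2 P (m, z, k) true) + P.pr m false * J.U (n2 P (m, z, k) false) := by
  have h0 : J.U (m, z, k) = J.ψ (k - z) := by
    unfold JD.U; simp only; rw [if_neg (by omega)]
  have hs := pr_sum P m
  rw [h0]
  have key : ∀ b, J.U (n2 P (m, z, k) b) = J.ψ (k - z) := by
    intro b
    have e2 := nK_cast P.ty m b hk
    unfold JD.U n2
    simp only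
    rw [e2]
    have h1 : ¬ (z ≤ 0) := by omega
    have h2 : 1 ≤ z := by omega
    have h3 : 0 ≤ z := by omega
    have h4 : ¬ (z ≤ -1) := by omega
    have h5 : ¬ (z < 0) := by omega
    have h6 : ¬ (z + 1 < 0) := by omega
    have h7 : ¬ (z - 1 < 0) := by omega
    cases hty : P.ty <;> cases m <;> cases b <;>
      simp [zz, dK, h1, h2, h3, h4, h5, h6, h7] <;> congr 1 <;> ring
  rw [key, key]
  linear_combination -(J.ψ (k - z)) * hs

lemma U_harm (t : Md × ℤ × ℕ) (hk : t.2.2 ≠ 0) :
    J.U t = P.pr t.1 true * J.U (n2 P t true) + P.pr t.1 false * J.U (n2 P t false) := by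
  obtain ⟨m, z, k⟩ := t
  rcases lt_trichotomy z 0 with h | h | h
  · exact U_harm_neg J m z k hk h
  · subst h; exact U_harm_zero J m k hk
  · exact U_harm_pos J m z k hk h

lemma unres_le_un (T : ℕ) (n : ℕ) (m : Md) (z : ℤ) (k : ℕ) :
    unres P.ch (n2 P) Prod.fst (finJ T) n (m, z, k) ≤ un P n m k := by
  induction n generalizing m z k with
  | zero =>
    rw [un_zero]
    by_cases hk : k = 0
    · simp [unres, finJ, hk]
    · rw [if_neg hk]
      exact unres_le_one _ _ _
  | succ n ih =>
    rw [un_succ]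
    by_cases hk : k = 0
    · simp [unres, finJ, hk]
    · rw [if_neg hk]
      have p1 := (P.pr_pos m true).le
      have p2 := (P.pr_pos m false).le
      by_cases hf : finJ T (m, z, k)
      · simp only [unres, if_pos hf]
        have h1 := un_nonneg P n (nM m true) (nK P.ty m true k)
        have h2 := un_nonneg P n (nM m false) (nK P.ty m false k)
        positivity
      · simp only [unres, if_neg hf, ch_p, n2]
        have h1 := mul_le_mul_of_nonneg_left (ih (nM m true) (zz P.ty m true z) (nK P.ty m true k)) p1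
        have h2 := mul_le_mul_of_nonneg_left (ih (nM m false) (zz P.ty m false z) (nK P.ty m false k)) p2
        linarith

variable (P) in
/-- probability of a jump from height `D` to height `2 D` -/
noncomputable def PJ (H : ℕ) : ℝ≥0∞ := P.ch.E R (fun w => ind (jmp P (2 * H) w R 0 H))

/-- lower bound for the jump probability -/
noncomputable def JD.p (J : JD P) : ℝ := 1 / (J.C * 2 ^ J.d)

lemma JD.p_pos (J : JD P) : 0 < J.p := by
  unfold JD.p; have := J.C0; positivity

include D in
lemma PJ_ge (H : ℕ) (hH : 1 ≤ H) : ENNReal.ofReal J.p ≤ PJ P H := by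
  have hs : ∀ t, sucJ (2 * H) t → finJ (2 * H) t := fun t h => Or.inr h
  have hkraft : PJ P H ≤ 1 :=
    kraft (c := P.ch) (nt := n2 P) (π := Prod.fst) (fun _ _ => rfl) (finJ (2 * H)) (sucJ (2 * H)) hs
      (R, 0, H)
  have hne : PJ P H ≠ ∞ := ne_top_of_le_ne_top ENNReal.one_ne_top hkraft
  have hH' : (1:ℝ) ≤ H := by exact_mod_cast hH
  set CT : ℝ := J.C * ((2 * H : ℕ) : ℝ) ^ J.d with hCT
  have hCT0 : 0 < CT := by
    rw [hCT]; have := J.C0; push_cast; positivity
  have hpot : ∀ n, J.U (R, 0, H) ≤ CT * (PJ P H).toReal + CT * un P n R H := by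
    intro n
    have := potential (c := P.ch) (nt := n2 P) (π := Prod.fst) (fun _ _ => rfl) (finJ (2 * H))
      (sucJ (2 * H)) (fun t => InvJ (2 * H) t ∧ (t.2.2 = 0 → t.1 = R)) hs J.U
      CT hCT0.le
      (fun t h _ => U_le J (2 * H) (by omega) t h.1)
      (fun t h hf hns => U_fail J (2 * H) t h.1 hf hns h.2)
      (fun t h hf => by
        have := U_harm J t (fun h0 => hf (Or.inl h0))
        simp only [ch_p]
        exact this.le)
      (fun t b h hf => by
        refine ⟨InvJ_step (2 * H) t b h.1 hf, ?_⟩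
        obtain ⟨m, z, k⟩ := t
        intro h0
        have hk : k ≠ 0 := fun h => hf (Or.inl h)
        exact nK_zero_mode hk h0)
      n (R, 0, H) (by
        refine ⟨⟨by simp, fun _ => ⟨by simp, by simp; omega⟩⟩, fun _ => rfl⟩)
    refine this.trans ?_
    have h1 := unres_le_un (P := P) (2 * H) n R 0 H
    have h3 := mul_le_mul_of_nonneg_left h1 hCT0.le
    unfold PJ jmp
    linarith
  have hU : (H:ℝ) ^ J.d = J.U (R, 0, H) := by
    unfold JD.U
    simp only [lt_self_iff_false, if_false, Int.cast_zero, sub_zero]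
    rw [J.ψeq]
  have hlim : Tendsto (fun n => CT * (PJ P H).toReal + CT * un P n R H) atTop
      (𝓝 (CT * (PJ P H).toReal + CT * 0)) :=
    tendsto_const_nhds.add (tendsto_const_nhds.mul (un_tendsto D H))
  have hfin := ge_of_tendsto' hlim hpot
  rw [mul_zero, add_zero, ← hU] at hfin
  have h4 : J.p ≤ (PJ P H).toReal := by
    unfold JD.p
    have hC := J.C0
    rw [div_le_iff₀ (by positivity)]
    have h5 : (0:ℝ) < (H:ℝ)^J.d := by positivity
    have h6 : (H:ℝ) ^ J.d * 1 ≤ (H:ℝ) ^ J.d * ((PJ P H).toReal * (J.C * 2 ^ J.d)) := by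
      calc (H:ℝ) ^ J.d * 1 = (H:ℝ) ^ J.d := by ring
        _ ≤ CT * (PJ P H).toReal := hfin
        _ = _ := by rw [hCT]; push_cast; rw [mul_pow]; ring
    exact le_of_mul_le_mul_left h6 h5
  rw [← ENNReal.ofReal_toReal hne]
  exact ENNReal.ofReal_le_ofReal h4

/-- after a jump word the machine is idle with a negative walker; the block is not over -/
lemma jmp_end {T : ℕ} {w : List Bool} {m : Md} {z : ℤ} {k : ℕ} (h : jmp P T w m z k) :
    P.ch.run m w = I ∧ zrun P.ty w m z < 0 := by
  induction w generalizing m z k with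
  | nil => exact ⟨h.1, h.2.1⟩
  | cons b w ih => exact ih h.2

lemma jmp_hits {T : ℕ} {w v : List Bool} {m : Md} {z : ℤ} {k : ℕ} (h : jmp P T w m z k)
    (hv : hits P.ty v I T) : hits P.ty (w ++ v) m k := by
  induction w generalizing m z k with
  | nil =>
    obtain ⟨h1, h2, h3⟩ := h
    simp only at h1 h3
    subst h1; subst h3
    exact hv
  | cons b w ih =>
    rw [List.cons_append, hits_cons]
    refine ⟨fun hk => h.1 (Or.inl hk), ih h.2⟩

lemma jmp_prefix_free {T : ℕ} {u v x y : List Bool} {m : Md} {z : ℤ} {k : ℕ}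
    (hu : jmp P T u m z k) (hv : jmp P T v m z k) (h : u ++ x = v ++ y) : u = v :=
  acc_prefix_free (finJ T) (sucJ T) (fun _ h => Or.inr h) (m, z, k) u v x y hu hv h

include D in
/-- **Jump inequality** -/
lemma PE_jump (H : ℕ) (hH : 1 ≤ H) (a : ℝ) :
    ENNReal.ofReal (J.p * P.qR) * PE P (2 * H) a ≤ PE P H a := by
  have key : ∑' u, ∑' v, (P.ch.wt R u * ind (jmp P (2 * H) u R 0 H)) *
      (ENNReal.ofReal P.qR * (P.ch.wt R v * ind (hits P.ty v R (2 * H) ∧ a ≤ rew P.ty v))) ≤
      PE P H a := by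
    unfold PE Chain.E
    apply tsum_ge_of_inj (fun u v => u ++ (true :: v))
    · intro u v u' v' h1 h2 h3
      have j1 : jmp P (2 * H) u R 0 H := by
        by_contra hc; apply h1; rw [ind_false hc]; simp
      have j2 : jmp P (2 * H) u' R 0 H := by
        by_contra hc; apply h2; rw [ind_false hc]; simp
      have h4 := jmp_prefix_free j1 j2 h3
      subst h4
      refine ⟨rfl, ?_⟩
      have := List.append_cancel_left h3
      simpa using this
    · intro u v
      by_cases j1 : jmp P (2 * H) u R 0 H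
      · by_cases j2 : hits P.ty v R (2 * H) ∧ a ≤ rew P.ty v
        · rw [ind_true j1, ind_true j2]
          have hI : hits P.ty (true :: v) I (2 * H) := by
            rw [hits_cons]
            refine ⟨by omega, ?_⟩
            have e1 : nM I true = R := rfl
            have e2 : nK P.ty I true (2 * H) = 2 * H := by cases P.ty <;> rfl
            rw [e1, e2]; exact j2.1
          have g1 : hits P.ty (u ++ (true :: v)) R H := jmp_hits j1 hI
          obtain ⟨e1, e2⟩ := jmp_end j1
          have g2 : rew P.ty v ≤ rew P.ty (u ++ (true :: v)) := by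
            have h1 := best_append_ge (ty := P.ty) P u (true :: v) R 0
            rw [e1] at h1
            have h2 := best_ge_next (ty := P.ty) true v I (zrun P.ty u R 0)
            have h4 : zz P.ty I true (zrun P.ty u R 0) ≤ 0 := by
              have : zz P.ty I true (zrun P.ty u R 0) = zrun P.ty u R 0 := by cases P.ty <;> rfl
              rw [this]; omega
            have h5 := best_anti (ty := P.ty) v R h4
            have e3 : nM I true = R := rfl
            rw [e3] at h2
            exact le_trans h5 (le_trans h2 h1)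
          have g3 : a ≤ rew P.ty (u ++ (true :: v)) :=
            le_trans j2.2 (by exact_mod_cast g2)
          beta_reduce
          rw [ind_true (P := hits P.ty _ R H ∧ a ≤ _) ⟨g1, g3⟩, P.ch.wt_append, e1, Chain.wt_cons]
          have e4 : P.ch.p I true = P.qR := rfl
          have e5 : P.ch.nx I true = R := rfl
          rw [e4, e5]
          simp only [mul_one]
          exact le_rfl
        · rw [ind_false j2]; simp
      · rw [ind_false j1]; simp
  refine le_trans ?_ key
  have e : ∑' u, ∑' v, (P.ch.wt R u * ind (jmp P (2 * H) u R 0 H)) *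
      (ENNReal.ofReal P.qR * (P.ch.wt R v * ind (hits P.ty v R (2 * H) ∧ a ≤ rew P.ty v))) =
      PJ P H * (ENNReal.ofReal P.qR * PE P (2 * H) a) := by
    unfold PJ PE Chain.E
    simp only [ENNReal.tsum_mul_left, ENNReal.tsum_mul_right]
  rw [e]
  have h1 := PJ_ge D J H hH
  calc ENNReal.ofReal (J.p * P.qR) * PE P (2 * H) a
      = ENNReal.ofReal J.p * (ENNReal.ofReal P.qR * PE P (2 * H) a) := by
        rw [← mul_assoc, ← ENNReal.ofReal_mul J.p_pos.le]
    _ ≤ _ := by gcongr

end Pool.Agent.TwoLIS
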