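import Pool.Agent.TwoLIS.MGrowth
import Pool.Agent.BaxterLIS.Windows

/-!
Finite windows: the probability that none of the first `q` windows is good.
-/

namespace Pool.Agent.TwoLIS

open scoped ENNReal
open Filter Topology
open Pool.Agent.BaxterLIS (Chain ind ind_le_one ind_true ind_false ind_mono trunc_le_FN
  trunc_add_unres)
open Md Ty

variable {P : Prm} (D : TD P)

include D in
lemma PE_add_le (h n : ℕ) (a : ℝ) :
    PE P h a + ENNReal.ofReal (1 - un P n R h) ≤
      P.ch.E R (Chain.trunc n (fun w => ind (hits P.ty w R h ∧ a ≤ rew P.ty w))) + 1 := by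
  have h1 := trunc_add_unres (c := P.ch) (nt := n1 P.ty) (π := Prod.fst) (fun _ _ => rfl) f1 n (R, h)
  rw [un, ← h1, ← mass_one D h]
  unfold PE
  rw [← P.ch.E_add, ← P.ch.E_add]
  refine P.ch.E_mono _ fun w => ?_
  unfold Chain.trunc
  by_cases hn : w.length ≤ n
  · simp only [hn, if_true]
    exact le_rfl
  · simp only [hn, if_false, add_zero, zero_add]
    exact ind_mono fun h => h.1

variable (P) in
/-- a block in `w`'s beginning is good -/
def goodBlock (h : ℕ) (r : ℝ) (x : List Bool) : Prop :=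
  ∃ u, u <+: x ∧ (hits P.ty u R h ∧ r ≤ rew P.ty u)

variable (P) in
/-- a good window: synchronising flips followed by a good block -/
def goodWin (h : ℕ) (r : ℝ) (x : List Bool) : Prop :=
  ∃ y, x = false :: true :: false :: true :: y ∧ goodBlock P h r y

include D in
lemma goodBlock_prob (h n : ℕ) (r : ℝ) (h1 : 3 / 4 ≤ (PE P h r).toReal) (h2 : un P n R h ≤ 1 / 4) :
    ENNReal.ofReal (1 / 2) ≤ P.ch.FN n R (fun x => ind (goodBlock P h r x)) := by
  have h3 := PE_add_le D h n r
  have h4 : ENNReal.ofReal (3/4) ≤ PE P h r := by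
    rw [← ENNReal.ofReal_toReal (PE_ne_top D h r)]
    exact ENNReal.ofReal_le_ofReal h1
  have h5 : ENNReal.ofReal (3/4) ≤ ENNReal.ofReal (1 - un P n R h) :=
    ENNReal.ofReal_le_ofReal (by linarith)
  have h6 : ENNReal.ofReal (1/2) + 1 ≤
      P.ch.E R (Chain.trunc n (fun w => ind (hits P.ty w R h ∧ r ≤ rew P.ty w))) + 1 := by
    refine le_trans ?_ h3
    refine le_trans ?_ (add_le_add h4 h5)
    rw [← ENNReal.ofReal_add (by norm_num) (by norm_num), ← ENNReal.ofReal_one,
      ← ENNReal.ofReal_add (by norm_num) (by norm_num)]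
    apply ENNReal.ofReal_le_ofReal; norm_num
  have h7 : ENNReal.ofReal (1/2) ≤
      P.ch.E R (Chain.trunc n (fun w => ind (hits P.ty w R h ∧ r ≤ rew P.ty w))) :=
    (ENNReal.add_le_add_iff_right ENNReal.one_ne_top).mp h6
  refine h7.trans ?_
  exact trunc_le_FN P.ch n R (fun w => hits P.ty w R h ∧ r ≤ rew P.ty w)
    (fun u v x y hu hv h => hits_prefix_free hu.1 hv.1 h)

/-- smallest flip probability -/
noncomputable def Prm.pm (P : Prm) : ℝ :=
  min (min (min P.qR (1 - P.qR)) (min P.y (1 - P.y))) (min (min P.qL (1 - P.qL)) (min P.x (1 - P.x)))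

lemma Prm.pm_pos (P : Prm) : 0 < P.pm := by
  have := P.qR0; have := P.qR1; have := P.y0; have := P.y1
  have := P.qL0; have := P.qL1; have := P.x0; have := P.x1
  unfold Prm.pm
  simp only [lt_min_iff]
  refine ⟨⟨⟨?_, ?_⟩, ?_, ?_⟩, ⟨?_, ?_⟩, ?_, ?_⟩ <;> linarith

lemma Prm.pm_le (P : Prm) (m : Md) (b : Bool) : P.pm ≤ P.pr m b := by
  unfold Prm.pm
  cases m <;> cases b <;> simp only [Prm.pr] <;> simp [min_le_iff]

lemma Prm.pm_le_half (P : Prm) : P.pm ≤ 1 / 2 := by
  have h1 := P.pm_le I true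
  have h2 := P.pm_le I false
  simp only [Prm.pr] at h1 h2
  linarith

/-- lower bound for the probability of a good window -/
noncomputable def Prm.gw (P : Prm) : ℝ := P.pm ^ 4 / 2

lemma Prm.gw_pos (P : Prm) : 0 < P.gw := by
  unfold Prm.gw; have := P.pm_pos; positivity

lemma Prm.gw_lt (P : Prm) : P.gw < 1 := by
  unfold Prm.gw
  have h1 := P.pm_pos
  have h2 := P.pm_le_half
  have : P.pm ^ 4 ≤ 1 := pow_le_one₀ h1.le (by linarith)
  linarith

include D in
lemma goodWin_prob (h n : ℕ) (r : ℝ) (h1 : 3 / 4 ≤ (PE P h r).toReal) (h2 : un P n R h ≤ 1 / 4)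
    (s : Md) : ENNReal.ofReal P.gw ≤ P.ch.FN (n + 4) s (fun x => ind (goodWin P h r x)) := by
  have h3 := goodBlock_prob D h n r h1 h2
  have key : ∀ s, P.ch.nx (P.ch.nx (P.ch.nx (P.ch.nx s false) true) false) true = R := by
    intro s; cases s <;> rfl
  have step : ∀ (n : ℕ) (s : Md) (b : Bool) (f : List Bool → ℝ≥0∞),
      ENNReal.ofReal P.pm * P.ch.FN n (P.ch.nx s b) (fun w => f (b :: w)) ≤ P.ch.FN (n + 1) s f := by
    intro n s b f
    have h4 : ENNReal.ofReal P.pm ≤ ENNReal.ofReal (P.ch.p s b) :=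
      ENNReal.ofReal_le_ofReal (P.pm_le s b)
    refine le_trans (mul_le_mul_left h4 _) ?_
    simp only [Chain.FN]
    cases b
    · exact le_add_left le_rfl
    · exact le_add_right le_rfl
  have h4 := step (n + 3) s false (fun x => ind (goodWin P h r x))
  have h5 := step (n + 2) (P.ch.nx s false) true (fun x => ind (goodWin P h r (false :: x)))
  have h6 := step (n + 1) (P.ch.nx (P.ch.nx s false) true) false
    (fun x => ind (goodWin P h r (false :: true :: x)))
  have h7 := step n (P.ch.nx (P.ch.nx (P.ch.nx s false) true) false) true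
    (fun x => ind (goodWin P h r (false :: true :: false :: x)))
  rw [key] at h7
  have h8 : P.ch.FN n R (fun x => ind (goodBlock P h r x)) ≤
      P.ch.FN n R (fun x => ind (goodWin P h r (false :: true :: false :: true :: x))) :=
    P.ch.FN_mono _ _ fun w _ => ind_mono fun hw => ⟨w, rfl, hw⟩
  have h9 : ENNReal.ofReal P.pm * (ENNReal.ofReal P.pm * (ENNReal.ofReal P.pm *
      (ENNReal.ofReal P.pm * ENNReal.ofReal (1/2)))) ≤
      P.ch.FN (n + 4) s (fun x => ind (goodWin P h r x)) := by
    refine le_trans ?_ h4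
    gcongr
    refine le_trans ?_ h5
    gcongr
    refine le_trans ?_ h6
    gcongr
    refine le_trans ?_ h7
    gcongr
    exact h3.trans h8
  refine le_trans (le_of_eq ?_) h9
  have hp := P.pm_pos.le
  rw [← ENNReal.ofReal_mul hp, ← ENNReal.ofReal_mul hp, ← ENNReal.ofReal_mul hp,
    ← ENNReal.ofReal_mul hp]
  congr 1
  unfold Prm.gw; ring

variable (P) in
/-- the first `q` windows of length `m` are all bad -/
def badWins (h : ℕ) (r : ℝ) (m : ℕ) : ℕ → List Bool → Prop
  | 0, _ => True
  | q + 1, x => ¬ goodWin P h r (x.take m) ∧ badWins h r m q (x.drop m)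

include D in
lemma badWins_prob (h n : ℕ) (r : ℝ) (h1 : 3 / 4 ≤ (PE P h r).toReal) (h2 : un P n R h ≤ 1 / 4)
    (q N : ℕ) (s : Md) (hN : q * (n + 4) ≤ N) :
    P.ch.FN N s (fun x => ind (badWins P h r (n + 4) q x)) ≤ ENNReal.ofReal ((1 - P.gw) ^ q) := by
  have hg0 := P.gw_pos
  have hg1 := P.gw_lt
  induction q generalizing N s with
  | zero =>
    simp only [badWins, pow_zero, ENNReal.ofReal_one]
    calc _ ≤ P.ch.FN N s (fun _ => 1) := P.ch.FN_mono _ _ fun w _ => ind_le_one _
      _ = 1 := P.ch.FN_const _ _ _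
  | succ q ih =>
    obtain ⟨N', rfl⟩ : ∃ N', N = (n + 4) + N' := ⟨N - (n + 4), by
      have : (q + 1) * (n + 4) = q * (n + 4) + (n + 4) := by ring
      omega⟩
    have hN' : q * (n + 4) ≤ N' := by
      have : (q + 1) * (n + 4) = q * (n + 4) + (n + 4) := by ring
      omega
    rw [P.ch.FN_append]
    have h3 : P.ch.FN (n + 4) s (fun u => P.ch.FN N' (P.ch.run s u)
        (fun v => ind (badWins P h r (n + 4) (q + 1) (u ++ v)))) ≤
        P.ch.FN (n + 4) s (fun u => ENNReal.ofReal ((1 - P.gw) ^ q) * ind (¬ goodWin P h r u)) := by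
      refine P.ch.FN_mono _ _ fun u hu => ?_
      by_cases hg : goodWin P h r u
      · have : (fun v => ind (badWins P h r (n + 4) (q + 1) (u ++ v))) = fun _ => 0 := by
          ext v; apply ind_false
          simp only [badWins]
          rw [List.take_left' hu]
          tauto
        rw [this, P.ch.FN_const]; simp
      · rw [ind_true hg, mul_one]
        refine le_trans ?_ (ih N' (P.ch.run s u) hN')
        refine P.ch.FN_mono _ _ fun v _ => ind_mono ?_
        simp only [badWins]
        rw [List.drop_left' hu]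
        exact fun h => h.2
    refine h3.trans ?_
    rw [P.ch.FN_mul_left, pow_succ, ENNReal.ofReal_mul (pow_nonneg (by linarith) q)]
    gcongr
    have h4 := goodWin_prob D h n r h1 h2 s
    have h5 : P.ch.FN (n + 4) s (fun x => ind (goodWin P h r x)) +
        P.ch.FN (n + 4) s (fun x => ind (¬ goodWin P h r x)) = 1 := by
      rw [← P.ch.FN_add]
      have : (fun w => ind (goodWin P h r w) + ind (¬ goodWin P h r w)) = fun _ => 1 := by
        ext w
        by_cases hg : goodWin P h r w
        · rw [ind_true hg, ind_false (not_not.mpr hg), add_zero]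
        · rw [ind_false hg, ind_true hg, zero_add]
      rw [this, P.ch.FN_const]
    have h6 : ENNReal.ofReal P.gw + P.ch.FN (n + 4) s (fun x => ind (¬ goodWin P h r x)) ≤
        ENNReal.ofReal P.gw + ENNReal.ofReal (1 - P.gw) := by
      calc _ ≤ P.ch.FN (n + 4) s (fun x => ind (goodWin P h r x)) +
            P.ch.FN (n + 4) s (fun x => ind (¬ goodWin P h r x)) := by gcongr
        _ = 1 := h5
        _ = _ := by
          rw [← ENNReal.ofReal_add hg0.le (by linarith)]; simp
    exact (ENNReal.add_le_add_iff_left ENNReal.ofReal_ne_top).mp h6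

lemma badWins_of {h : ℕ} {r : ℝ} {m q : ℕ} {x : List Bool}
    (H : ∀ i < q, ¬ goodWin P h r ((x.drop (i * m)).take m)) : badWins P h r m q x := by
  induction q generalizing x with
  | zero => trivial
  | succ q ih =>
    refine ⟨?_, ih ?_⟩
    · have := H 0 (Nat.succ_pos q)
      simpa using this
    · intro i hi
      have := H (i + 1) (by omega)
      rw [List.drop_drop]
      have e : m + i * m = (i + 1) * m := by ring
      rw [e]; exact this

/-- total weight of a finite family of words forming a prefix code -/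
lemma sum_wt_le {s : Md} {ι : Type*} (S : Finset ι) (f : ι → List Bool)
    (hinj : ∀ i ∈ S, ∀ j ∈ S, ∀ x y, f i ++ x = f j ++ y → i = j) (N : ℕ)
    (hN : ∀ i ∈ S, (f i).length ≤ N) (G : List Bool → Prop)
    (hG : ∀ i ∈ S, ∀ x, G (f i ++ x)) :
    ∑ i ∈ S, P.ch.wt s (f i) ≤ P.ch.FN N s (fun x => ind (G x)) := by
  classical
  have h1 : ∑ i ∈ S, P.ch.wt s (f i) ≤
      P.ch.E s (Chain.trunc N (fun w => ind (∃ i ∈ S, w = f i))) := by
    have hf : Set.InjOn f S := by
      intro i hi j hj h
      exact hinj i hi j hj [] [] (by simp [h])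
    have h2 : ∑ i ∈ S, P.ch.wt s (f i) = ∑ w ∈ S.image f, P.ch.wt s w * 1 := by
      rw [Finset.sum_image hf]; simp
    rw [h2]
    unfold Chain.E
    calc ∑ w ∈ S.image f, P.ch.wt s w * 1 =
        ∑ w ∈ S.image f, P.ch.wt s w * Chain.trunc N (fun w => ind (∃ i ∈ S, w = f i)) w := by
          apply Finset.sum_congr rfl
          intro w hw
          obtain ⟨i, hi, rfl⟩ := Finset.mem_image.mp hw
          unfold Chain.trunc
          rw [if_pos (hN i hi)]
          show _ = P.ch.wt s (f i) * ind (∃ j ∈ S, f i = f j)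
          rw [ind_true ⟨i, hi, rfl⟩]
      _ ≤ _ := ENNReal.sum_le_tsum _
  refine h1.trans ?_
  refine (trunc_le_FN P.ch N s (fun w => ∃ i ∈ S, w = f i) ?_).trans ?_
  · rintro u v x y ⟨i, hi, rfl⟩ ⟨j, hj, rfl⟩ h
    rw [hinj i hi j hj x y h]
  · refine P.ch.FN_mono _ _ fun w _ => ind_mono ?_
    rintro ⟨u, ⟨x, rfl⟩, i, hi, rfl⟩
    exact hG i hi x

end Pool.Agent.TwoLIS
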