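import Pool.Agent.BaxterLIS.Words
import Pool.Agent.BaxterLIS.Renorm

/-!
The coin-flip machines for semi-Baxter and strong-Baxter permutations: modes, height, tracked
walker and the number of restarts of the walker.
-/

namespace Pool.Agent.TwoLIS

open scoped ENNReal
open Filter Topology
open Pool.Agent.BaxterLIS

/-- the two classes -/
inductive Ty
  | semi | strong
  deriving DecidableEq

/-- modes of the machine: `I` idle, `R` popping the right stack, `L` about to pop the left stack,
`M` popping the left stack after at least one pop -/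
inductive Md
  | I | R | L | M
  deriving DecidableEq

open Md Ty

/-- next mode -/
def nM : Md → Bool → Md
  | I, true => R
  | I, false => L
  | R, true => R
  | R, false => I
  | L, true => M
  | L, false => I
  | M, true => M
  | M, false => I

/-- height of the right stack above the reference level -/
def nK : Ty → Md → Bool → ℕ → ℕ
  | _, R, true, k => k - 1
  | _, L, false, k => k + 1
  | semi, M, false, k => k + 1
  | _, _, _, k => k

/-- depth of a tracked element: negative in the left stack, positive in the right stack, zero in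
the current block -/
def zz : Ty → Md → Bool → ℤ → ℤ
  | semi, R, true, z => z - 1
  | strong, R, true, z => if 1 ≤ z then z - 1 else z
  | _, R, false, z => if z ≤ 0 then z - 1 else z
  | _, L, true, z => if z ≤ -1 then z + 1 else z
  | _, M, true, z => if z ≤ -1 then z + 1 else z
  | _, L, false, z => if 0 ≤ z then z + 1 else z
  | semi, M, false, z => if 0 ≤ z then z + 1 else z
  | strong, M, false, z => z
  | _, I, _, z => z

/-- parameters of the machine -/
structure Prm where
  ty : Ty
  qR : ℝ
  y : ℝ
  qL : ℝ
  x : ℝ
  qR0 : 0 < qR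
  qR1 : qR < 1
  y0 : 0 < y
  y1 : y < 1
  qL0 : 0 < qL
  qL1 : qL < 1
  x0 : 0 < x
  x1 : x < 1

/-- flip probabilities -/
def Prm.pr (P : Prm) : Md → Bool → ℝ
  | I, true => P.qR
  | I, false => 1 - P.qR
  | R, true => P.y
  | R, false => 1 - P.y
  | L, true => P.qL
  | L, false => 1 - P.qL
  | M, true => P.x
  | M, false => 1 - P.x

lemma Prm.pr_pos (P : Prm) (m : Md) (b : Bool) : 0 < P.pr m b := by
  have := P.qR0; have := P.qR1; have := P.y0; have := P.y1
  have := P.qL0; have := P.qL1; have := P.x0; have := P.x1
  cases m <;> cases b <;> simp only [Prm.pr] <;> linarith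

/-- the chain on modes -/
def Prm.ch (P : Prm) : Chain Md where
  nx := nM
  p := P.pr
  p_nonneg := fun m b => (P.pr_pos m b).le
  p_sum := fun m => by cases m <;> simp [Prm.pr]

@[simp] lemma ch_nx (P : Prm) (m : Md) (b : Bool) : P.ch.nx m b = nM m b := rfl
@[simp] lemma ch_p (P : Prm) (m : Md) (b : Bool) : P.ch.p m b = P.pr m b := rfl

variable (ty : Ty)

/-- height automaton -/
def n1 (t : Md × ℕ) (b : Bool) : Md × ℕ := (nM t.1 b, nK ty t.1 b t.2)

/-- resolved: height zero -/
def f1 (t : Md × ℕ) : Prop := t.2 = 0

/-- `hits w m k`: reading `w` from mode `m`, the height `k` is brought to zero for the first time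
exactly at the end of `w` -/
def hits (w : List Bool) (m : Md) (k : ℕ) : Prop := acc (n1 ty) f1 f1 w (m, k)

variable {ty}

lemma hits_nil {m : Md} {k : ℕ} : hits ty [] m k ↔ k = 0 := Iff.rfl
lemma hits_cons {b : Bool} {w : List Bool} {m : Md} {k : ℕ} :
    hits ty (b :: w) m k ↔ k ≠ 0 ∧ hits ty w (nM m b) (nK ty m b k) := Iff.rfl

lemma nK_add {m : Md} {b : Bool} {a k : ℕ} (ha : a ≠ 0) :
    nK ty m b (a + k) = nK ty m b a + k := by
  cases ty <;> cases m <;> cases b <;> simp [nK] <;> omega

lemma nK_zero_mode {m : Md} {b : Bool} {a : ℕ} (ha : a ≠ 0) (h : nK ty m b a = 0) :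
    nM m b = R := by
  cases ty <;> cases m <;> cases b <;> simp [nK, nM] at * <;> omega

lemma hits_split {w : List Bool} {m : Md} {a k : ℕ} (hm : a = 0 → m = R)
    (h : hits ty w m (a + k)) :
    ∃ u v, w = u ++ v ∧ hits ty u m a ∧ hits ty v R k := by
  induction w generalizing m a with
  | nil =>
    have h0 : a + k = 0 := h
    obtain ⟨rfl, rfl⟩ : a = 0 ∧ k = 0 := by omega
    exact ⟨[], [], rfl, rfl, rfl⟩
  | cons b w ih =>
    by_cases ha : a = 0
    · subst ha
      obtain rfl := hm rfl
      refine ⟨[], b :: w, rfl, rfl, ?_⟩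
      simpa using h
    · rw [hits_cons, nK_add ha] at h
      obtain ⟨u, v, rfl, hu, hv⟩ := ih (fun h0 => nK_zero_mode ha h0) h.2
      exact ⟨b :: u, v, rfl, ⟨ha, hu⟩, hv⟩

lemma hits_append {u v : List Bool} {m : Md} {a k : ℕ} (hm : a = 0 → m = R) (hu : hits ty u m a)
    (hv : hits ty v R k) : hits ty (u ++ v) m (a + k) := by
  induction u generalizing m a with
  | nil =>
    have h0 : a = 0 := hu
    subst h0
    obtain rfl := hm rfl
    simpa using hv
  | cons b u ih =>
    rw [hits_cons] at hu
    rw [List.cons_append, hits_cons, nK_add hu.1]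
    exact ⟨by omega, ih (fun h0 => nK_zero_mode hu.1 h0) hu.2⟩

lemma hits_run (P : Prm) {u : List Bool} {m : Md} {a : ℕ} (hm : a = 0 → m = R)
    (hu : hits ty u m a) : P.ch.run m u = R := by
  induction u generalizing m a with
  | nil => exact hm hu
  | cons b u ih =>
    rw [hits_cons] at hu
    exact ih (fun h0 => nK_zero_mode hu.1 h0) hu.2

lemma hits_prefix_free {u v x y : List Bool} {m : Md} {k : ℕ} (hu : hits ty u m k)
    (hv : hits ty v m k) (h : u ++ x = v ++ y) : u = v :=
  acc_prefix_free f1 f1 (fun _ h => h) (m, k) u v x y hu hv h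

/-- the tracked element is to the left of a newly inserted one -/
def lft (m : Md) (z : ℤ) : Prop := (m = R ∧ z ≤ 0) ∨ (m ≠ I ∧ z < 0)

instance (m : Md) (z : ℤ) : Decidable (lft m z) := by unfold lft; infer_instance

variable (ty) in
/-- maximal number of restarts of the walker while reading `w` -/
def best : List Bool → Md → ℤ → ℕ
  | [], _, _ => 0
  | b :: w, m, z =>
    if b = false ∧ lft m z then
      max (best w (nM m b) (zz ty m b z)) (1 + best w I 0)
    else best w (nM m b) (zz ty m b z)

variable (ty) in
/-- reward of a block -/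
def rew (w : List Bool) : ℕ := best ty w R 0

lemma zz_mono (m : Md) (b : Bool) {z₁ z₂ : ℤ} (h : z₁ ≤ z₂) : zz ty m b z₁ ≤ zz ty m b z₂ := by
  cases ty <;> cases m <;> cases b <;> simp only [zz] <;> (try split_ifs) <;> omega

lemma lft_mono {m : Md} {z₁ z₂ : ℤ} (h : z₁ ≤ z₂) (h2 : lft m z₂) : lft m z₁ := by
  rcases h2 with ⟨h2, h3⟩ | ⟨h2, h3⟩
  · exact Or.inl ⟨h2, by omega⟩
  · exact Or.inr ⟨h2, by omega⟩

lemma best_anti (w : List Bool) (m : Md) {z₁ z₂ : ℤ} (h : z₁ ≤ z₂) :
    best ty w m z₂ ≤ best ty w m z₁ := by
  induction w generalizing m z₁ z₂ with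
  | nil => exact le_rfl
  | cons b w ih =>
    have h1 := ih (nM m b) (zz_mono (ty := ty) m b h)
    simp only [best]
    split_ifs with h2 h3
    · exact max_le_max h1 le_rfl
    · exfalso; exact h3 ⟨h2.1, lft_mono h h2.2⟩
    · exact h1.trans (le_max_left _ _)
    · exact h1

lemma best_ge_next (b : Bool) (w : List Bool) (m : Md) (z : ℤ) :
    best ty w (nM m b) (zz ty m b z) ≤ best ty (b :: w) m z := by
  simp only [best]; split_ifs
  · exact le_max_left _ _
  · exact le_rfl

variable (ty) in
/-- walker after reading a word, without restarts -/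
def zrun : List Bool → Md → ℤ → ℤ
  | [], _, z => z
  | b :: w, m, z => zrun w (nM m b) (zz ty m b z)

lemma best_append_ge (P : Prm) (u v : List Bool) (m : Md) (z : ℤ) :
    best ty v (P.ch.run m u) (zrun ty u m z) ≤ best ty (u ++ v) m z := by
  induction u generalizing m z with
  | nil => exact le_rfl
  | cons b u ih => exact (ih _ _).trans (best_ge_next _ _ _ _)

lemma zz_le {m : Md} {b : Bool} {z : ℤ} {k : ℕ} (hz : z ≤ k) :
    zz ty m b z ≤ (nK ty m b k : ℕ) := by
  cases ty <;> cases m <;> cases b <;> simp only [zz, nK] <;> (try split_ifs) <;> omega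

/-- superadditivity of the number of restarts over a completed block -/
lemma best_superadd {u v : List Bool} {m : Md} {z : ℤ} {k : ℕ} (hu : hits ty u m k)
    (hm : k = 0 → m = R) (hz : z ≤ k) :
    best ty u m z + best ty v R 0 ≤ best ty (u ++ v) m z := by
  induction u generalizing m z k with
  | nil =>
    have h0 : k = 0 := hu
    subst h0
    obtain rfl := hm rfl
    simpa [best] using best_anti (ty := ty) v R (z₁ := z) (z₂ := 0) (by simpa using hz)
  | cons b u ih =>
    rw [hits_cons] at hu
    obtain ⟨hk, hu⟩ := hu
    have hm' : nK ty m b k = 0 → nM m b = R := fun h0 => nK_zero_mode hk h0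
    have h1 : best ty u (nM m b) (zz ty m b z) + best ty v R 0 ≤
        best ty (u ++ v) (nM m b) (zz ty m b z) := ih hu hm' (zz_le hz)
    simp only [List.cons_append, best]
    split_ifs with h2
    · obtain ⟨rfl, hl⟩ := h2
      have hmI : m ≠ I := by
        rcases hl with ⟨h, _⟩ | ⟨h, _⟩
        · rw [h]; decide
        · exact h
      have hI : nM m false = I := by cases m <;> simp_all [nM]
      have h3 : best ty u I 0 + best ty v R 0 ≤ best ty (u ++ v) I 0 := by
        apply ih (k := nK ty m false k) (m := I) (z := 0)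
        · rw [← hI]; exact hu
        · intro h; rw [← hI]; exact hm' h
        · positivity
      omega
    · exact h1

lemma rew_append {u v : List Bool} {h : ℕ} (hu : hits ty u R h) :
    rew ty u + rew ty v ≤ rew ty (u ++ v) := by
  apply best_superadd hu
  · intro; rfl
  · positivity

lemma zz_R_le {z : ℤ} (hz : z ≤ 0) : zz ty R true z ≤ 0 := by
  cases ty <;> simp only [zz] <;> (try split_ifs) <;> omega

lemma one_le_best {w : List Bool} {h : ℕ} {z : ℤ} (hz : z ≤ 0) (hw : hits ty w R h)
    (hne : w ≠ List.replicate h true) : 1 ≤ best ty w R z := by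
  induction h generalizing w z with
  | zero =>
    cases w with
    | nil => simp at hne
    | cons b w => exact absurd rfl hw.1
  | succ h ih =>
    cases w with
    | nil => exact absurd (show h + 1 = 0 from hw) (by omega)
    | cons b w =>
      cases b with
      | true =>
        have h1 : hits ty w R h := by
          have h0 := (hits_cons.mp hw).2
          have e1 : nM R true = R := rfl
          have e2 : nK ty R true (h + 1) = h := by cases ty <;> rfl
          rwa [e1, e2] at h0
        have h2 : w ≠ List.replicate h true := by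
          intro h3; apply hne; rw [h3]; rfl
        have h3 := ih (zz_R_le (ty := ty) hz) h1 h2
        exact h3.trans (best_ge_next true w R z)
      | false =>
        simp only [best]
        rw [if_pos ⟨trivial, Or.inl ⟨rfl, hz⟩⟩]
        exact le_trans (by omega) (le_max_right _ _)

lemma one_le_rew {w : List Bool} {h : ℕ} (hw : hits ty w R h) (hne : w ≠ List.replicate h true) :
    1 ≤ rew ty w := one_le_best le_rfl hw hne

end Pool.Agent.TwoLIS
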