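import Pool.Agent.TwoLIS.MGrowth

/-!
Parameters of the two machines and their harmonic polynomials.
-/

namespace Pool.Agent.TwoLIS

open Md Ty

/-- the golden ratio conjugate -/
noncomputable def gr : ℝ := (Real.sqrt 5 - 1) / 2

lemma gr_sq : gr ^ 2 + gr - 1 = 0 := by
  have h : Real.sqrt 5 ^ 2 = 5 := Real.sq_sqrt (by norm_num)
  unfold gr
  nlinarith

lemma gr_lb : 0.618 < gr := by
  have h : 2.236 < Real.sqrt 5 := by
    rw [Real.lt_sqrt (by norm_num)]; norm_num
  unfold gr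
  linarith

lemma gr_ub : gr < 0.6181 := by
  have h : Real.sqrt 5 < 2.2362 := by
    rw [Real.sqrt_lt' (by norm_num)]; norm_num
  unfold gr
  linarith

lemma exists_sb : ∃ s : ℝ, s ^ 3 + s ^ 2 - 1 = 0 ∧ 0.7548 < s ∧ s < 0.7549 := by
  have hc : ContinuousOn (fun s : ℝ => s ^ 3 + s ^ 2 - 1) (Set.Icc 0.7548 0.7549) := by fun_prop
  have h := intermediate_value_Ioo (by norm_num : (0.7548 : ℝ) ≤ 0.7549) hc
  obtain ⟨s, hs, h2⟩ := h (show (0:ℝ) ∈ Set.Ioo _ _ by constructor <;> norm_num)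
  exact ⟨s, h2, hs.1, hs.2⟩

/-- the root of `s ^ 3 + s ^ 2 = 1` -/
noncomputable def sb : ℝ := exists_sb.choose

lemma sb_cu : sb ^ 3 + sb ^ 2 - 1 = 0 := exists_sb.choose_spec.1
lemma sb_lb : 0.7548 < sb := exists_sb.choose_spec.2.1
lemma sb_ub : sb < 0.7549 := exists_sb.choose_spec.2.2

/-- parameters for semi-Baxter permutations -/
noncomputable def Psemi : Prm where
  ty := semi
  qR := 1 - gr
  y := gr
  qL := gr
  x := gr
  qR0 := by have := gr_ub; linarith
  qR1 := by have := gr_lb; linarith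
  y0 := by have := gr_lb; linarith
  y1 := by have := gr_ub; linarith
  qL0 := by have := gr_lb; linarith
  qL1 := by have := gr_ub; linarith
  x0 := by have := gr_lb; linarith
  x1 := by have := gr_ub; linarith

/-- parameters for strong-Baxter permutations -/
noncomputable def Pstrong : Prm where
  ty := strong
  qR := 2/11 + 1/11 * sb + 4/11 * sb^2
  y := 1 - sb ^ 2
  qL := 2/5 - 1/5 * sb + 1/5 * sb^2
  x := sb^2
  qR0 := by have := sb_lb; have := sb_ub; nlinarith
  qR1 := by have := sb_lb; have := sb_ub; nlinarith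
  y0 := by have := sb_lb; have := sb_ub; nlinarith
  y1 := by have := sb_lb; have := sb_ub; nlinarith
  qL0 := by have := sb_lb; have := sb_ub; nlinarith
  qL1 := by have := sb_lb; have := sb_ub; nlinarith
  x0 := by have := sb_lb; have := sb_ub; nlinarith
  x1 := by have := sb_lb; have := sb_ub; nlinarith

/-- harmonic polynomial -/
noncomputable def VsemiR (r N k : ℝ) : ℝ := (-43) * N + (66) * r * N + (-45) * N * k + (-35) * N^2 + (65) * r * N * k + (50) * r * N^2 + (-30) * N * k^2 + (-50) * N^2 * k + (25) * N^3 + (40) * r * N * k^2 + (65) * r * N^2 * k + (-45) * r * N^3 + (-10) * N * k^3 + (-30) * N^2 * k^2 + (10) * N^3 * k + (20) * N^4 + (10) * r * N * k^3 + (30) * r * N^2 * k^2 + (-30) * r * N^3 * k + (-35) * r * N^4 + (1) * k^5 + (-10) * N^2 * k^3 + (15) * N^4 * k + (3) * N^5 + (5) * r * N * k^4 + (20) * r * N^2 * k^3 + (-25) * r * N^4 * k + (-5) * r * N^5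

/-- harmonic polynomial -/
noncomputable def VsemiI (r N k : ℝ) : ℝ := (2) * N + (1) * r * N + (15) * N * k + (-5) * N^2 + (-15) * r * N * k + (10) * r * N^2 + (-20) * N^2 * k + (-5) * N^3 + (10) * r * N * k^2 + (35) * r * N^2 * k + (5) * r * N^3 + (10) * N * k^3 + (-10) * N^3 * k + (5) * N^4 + (-10) * r * N * k^3 + (10) * r * N^3 * k + (-10) * r * N^4 + (1) * k^5 + (-10) * N^2 * k^3 + (15) * N^4 * k + (3) * N^5 + (5) * r * N * k^4 + (20) * r * N^2 * k^3 + (-25) * r * N^4 * k + (-5) * r * N^5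

/-- harmonic polynomial -/
noncomputable def VsemiL (r N k : ℝ) : ℝ := (-63) * N + (111) * r * N + (-65) * N * k + (-45) * N^2 + (125) * r * N * k + (80) * r * N^2 + (-30) * N * k^2 + (-50) * N^2 * k + (45) * N^3 + (70) * r * N * k^2 + (95) * r * N^2 * k + (-75) * r * N^3 + (-10) * N * k^3 + (-30) * N^2 * k^2 + (30) * N^3 * k + (30) * N^4 + (30) * r * N * k^3 + (60) * r * N^2 * k^2 + (-50) * r * N^3 * k + (-50) * r * N^4 + (1) * k^5 + (-10) * N^2 * k^3 + (15) * N^4 * k + (3) * N^5 + (5) * r * N * k^4 + (20) * r * N^2 * k^3 + (-25) * r * N^4 * k + (-5) * r * N^5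

/-- harmonic polynomial -/
noncomputable def VsemiM (r N k : ℝ) : ℝ := (-63) * N + (111) * r * N + (-65) * N * k + (-45) * N^2 + (125) * r * N * k + (80) * r * N^2 + (-30) * N * k^2 + (-50) * N^2 * k + (45) * N^3 + (70) * r * N * k^2 + (95) * r * N^2 * k + (-75) * r * N^3 + (-10) * N * k^3 + (-30) * N^2 * k^2 + (30) * N^3 * k + (30) * N^4 + (30) * r * N * k^3 + (60) * r * N^2 * k^2 + (-50) * r * N^3 * k + (-50) * r * N^4 + (1) * k^5 + (-10) * N^2 * k^3 + (15) * N^4 * k + (3) * N^5 + (5) * r * N * k^4 + (20) * r * N^2 * k^3 + (-25) * r * N^4 * k + (-5) * r * N^5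

/-- harmonic polynomials -/
noncomputable def Vsemi (r : ℝ) : Md → ℝ → ℝ → ℝ
  | R => VsemiR r
  | I => VsemiI r
  | L => VsemiL r
  | M => VsemiM r

lemma VsemiR_harm {r : ℝ} (h : r ^ 2 + r - 1 = 0) (N k : ℝ) :
    VsemiR r N k = r * VsemiR r (N + 1) (k - 1) +
      (1 - r) * VsemiI r (N + 1) k := by
  unfold VsemiR VsemiI
  linear_combination ((55) * N + (50) * N * k + (75) * N^2 + (30) * N * k^2 + (90) * N^2 * k + (20) * N^3 + (30) * N^2 * k^2 + (40) * N^3 * k) * h

lemma VsemiI_harm {r : ℝ} (h : r ^ 2 + r - 1 = 0) (N k : ℝ) :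
    VsemiI r N k = (1 - r) * VsemiR r N k +
      r * VsemiL r N k := by
  unfold VsemiI VsemiR VsemiL
  linear_combination ((-45) * N + (-60) * N * k + (-30) * N^2 + (-30) * N * k^2 + (-30) * N^2 * k + (30) * N^3 + (-20) * N * k^3 + (-30) * N^2 * k^2 + (20) * N^3 * k + (15) * N^4) * h

lemma VsemiL_harm {r : ℝ} (h : r ^ 2 + r - 1 = 0) (N k : ℝ) :
    VsemiL r N k = r * VsemiM r (N - 1) k +
      (1 - r) * VsemiI r N (k + 1) := by
  unfold VsemiL VsemiM VsemiI
  linear_combination ((1) + (5) * k + (90) * N + (10) * k^2 + (110) * N * k + (10) * N^2 + (10) * k^3 + (60) * N * k^2 + (-60) * N^3 + (5) * k^4 + (20) * N * k^3 + (-40) * N^3 * k + (-10) * N^4) * h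

lemma VsemiM_harm {r : ℝ} (h : r ^ 2 + r - 1 = 0) (N k : ℝ) :
    VsemiM r N k = r * VsemiM r (N - 1) k +
      (1 - r) * VsemiI r N (k + 1) := by
  unfold VsemiM VsemiI
  linear_combination ((1) + (5) * k + (90) * N + (10) * k^2 + (110) * N * k + (10) * N^2 + (10) * k^3 + (60) * N * k^2 + (-60) * N^3 + (5) * k^4 + (20) * N * k^3 + (-40) * N^3 * k + (-10) * N^4) * h

/-- potential -/
noncomputable def esemi (r : ℝ) : Md → ℝ
  | R => 0
  | I => (1) + (1) * r
  | L => (2) + (1) * r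
  | M => (2) + (1) * r

/-- potential -/
noncomputable def S1semi (r : ℝ) : Md → ℝ
  | R => 0
  | I => (3) + (1) * r
  | L => (4) + (3) * r
  | M => (4) + (3) * r

/-- potential -/
noncomputable def S0semi (r : ℝ) : Md → ℝ
  | R => 0
  | I => (1/2) + (1/2) * r
  | L => (2) + (3/2) * r
  | M => (2) + (3/2) * r

/-- potential -/
noncomputable def sgsemi (r : ℝ) : ℝ := (1/2) + (1) * r

/-- harmonic polynomial -/
noncomputable def VstrongR (s N k : ℝ) : ℝ := (-1) * N + (-2) * s * N + (1) * k^2 + (-2) * N * k + (2) * N^2 + (2) * s * N * k + (-1) * s * N^2 + (2) * s^2 * N * k + (-3) * s^2 * N^2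

/-- harmonic polynomial -/
noncomputable def VstrongI (s N k : ℝ) : ℝ := (1) + (2) * s + (-3) * s^2 + (2) * k + (-3) * N + (-2) * s * N + (-2) * s^2 * k + (6) * s^2 * N + (1) * k^2 + (-2) * N * k + (2) * N^2 + (2) * s * N * k + (-1) * s * N^2 + (2) * s^2 * N * k + (-3) * s^2 * N^2

/-- harmonic polynomial -/
noncomputable def VstrongL (s N k : ℝ) : ℝ := (3) + (1) * s + (-4) * s^2 + (14/5) * k + (-23/5) * N + (-2/5) * s * k + (4/5) * s * N + (-8/5) * s^2 * k + (36/5) * s^2 * N + (1) * k^2 + (-2) * N * k + (2) * N^2 + (2) * s * N * k + (-1) * s * N^2 + (2) * s^2 * N * k + (-3) * s^2 * N^2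

/-- harmonic polynomial -/
noncomputable def VstrongM (s N k : ℝ) : ℝ := (-1) * N + (2) * s^2 * N + (1) * k^2 + (-2) * N * k + (2) * N^2 + (2) * s * N * k + (-1) * s * N^2 + (2) * s^2 * N * k + (-3) * s^2 * N^2

/-- harmonic polynomials -/
noncomputable def Vstrong (s : ℝ) : Md → ℝ → ℝ → ℝ
  | R => VstrongR s
  | I => VstrongI s
  | L => VstrongL s
  | M => VstrongM s

lemma VstrongR_harm {s : ℝ} (h : s ^ 3 + s ^ 2 - 1 = 0) (N k : ℝ) :
    VstrongR s N k = (1 - s^2) * VstrongR s N (k - 1) +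
      (1 - (1 - s^2)) * VstrongI s (N + 1) k := by
  unfold VstrongR VstrongI
  linear_combination ((1) + (-2) * k + (2) * N + (-2) * s * N) * h

lemma VstrongI_harm {s : ℝ} (h : s ^ 3 + s ^ 2 - 1 = 0) (N k : ℝ) :
    VstrongI s N k = (2/11 + 1/11 * s + 4/11 * s^2) * VstrongR s N k +
      (1 - (2/11 + 1/11 * s + 4/11 * s^2)) * VstrongL s N k := by
  unfold VstrongI VstrongR VstrongL
  linear_combination ((16/11) + (-16/11) * s + (16/55) * k + (-52/55) * N + (-32/55) * s * k + (144/55) * s * N) * h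

lemma VstrongL_harm {s : ℝ} (h : s ^ 3 + s ^ 2 - 1 = 0) (N k : ℝ) :
    VstrongL s N k = (2/5 - 1/5 * s + 1/5 * s^2) * VstrongM s (N - 1) k +
      (1 - (2/5 - 1/5 * s + 1/5 * s^2)) * VstrongI s N (k + 1) := by
  unfold VstrongL VstrongM VstrongI
  linear_combination ((3/5) + (2/5) * k + (-2/5) * N) * h

lemma VstrongM_harm {s : ℝ} (h : s ^ 3 + s ^ 2 - 1 = 0) (N k : ℝ) :
    VstrongM s N k = s^2 * VstrongM s (N - 1) k +
      (1 - s^2) * VstrongI s N k := by
  unfold VstrongM VstrongI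
  linear_combination ((1) + (2) * s + (2) * k + (-2) * N + (-2) * s * N) * h

/-- potential -/
noncomputable def estrong (s : ℝ) : Md → ℝ
  | R => 0
  | I => (1) * s
  | L => (3/5) + (6/5) * s + (-1/5) * s^2
  | M => (1) * s

/-- potential -/
noncomputable def S1strong (s : ℝ) : Md → ℝ
  | R => 0
  | I => (5) + (-2) * s
  | L => (24/5) + (-2/5) * s + (17/5) * s^2
  | M => (5) + (-2) * s

/-- potential -/
noncomputable def S0strong (s : ℝ) : Md → ℝ
  | R => 0
  | I => (-3/2) + (2) * s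
  | L => (3/5) + (11/5) * s + (-7/10) * s^2
  | M => (-5/2) + (1) * s + (-1) * s^2

/-- potential -/
noncomputable def sgstrong (s : ℝ) : ℝ := (-1) + (5/2) * s + (5/2) * s^2

end Pool.Agent.TwoLIS
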