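import Pool.Agent.TwoLIS.Params

/-!
The potentials of the two machines.
-/

namespace Pool.Agent.TwoLIS

open Md Ty

lemma semi_pr (m : Md) (b : Bool) : Psemi.pr m b = match m, b with
  | I, true => 1 - gr
  | I, false => 1 - (1 - gr)
  | R, true => gr
  | R, false => 1 - gr
  | L, true => gr
  | L, false => 1 - gr
  | M, true => gr
  | M, false => 1 - gr := by
  cases m <;> cases b <;> rfl

lemma strong_pr (m : Md) (b : Bool) : Pstrong.pr m b = match m, b with
  | I, true => 2/11 + 1/11 * sb + 4/11 * sb^2
  | I, false => 1 - (2/11 + 1/11 * sb + 4/11 * sb^2)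
  | R, true => 1 - sb ^ 2
  | R, false => 1 - (1 - sb ^ 2)
  | L, true => 2/5 - 1/5 * sb + 1/5 * sb^2
  | L, false => 1 - (2/5 - 1/5 * sb + 1/5 * sb^2)
  | M, true => sb^2
  | M, false => 1 - sb^2 := by
  cases m <;> cases b <;> rfl

/-- time data, semi-Baxter -/
noncomputable def Dsemi : TD Psemi where
  e := esemi gr
  σ := sgsemi gr
  S1 := S1semi gr
  S0 := S0semi gr
  σ0 := by have := gr_lb; unfold sgsemi; linarith
  σ3 := by have := gr_ub; unfold sgsemi; linarith
  e0 := by
    have := gr_lb
    intro m; cases m <;> simp only [esemi] <;> linarith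
  eR := rfl
  S1R := rfl
  S0R := rfl
  hS1 := by
    have := gr_lb
    intro m; cases m <;> simp only [S1semi, sgsemi] <;> linarith
  hS0 := by
    have := gr_lb
    intro m; cases m <;> simp only [S0semi, sgsemi, esemi] <;> nlinarith
  harm := by
    have h := gr_sq
    intro m
    rw [semi_pr, semi_pr]
    cases m <;> simp only [nM, dK, esemi, Psemi]
    · linear_combination h
    · linear_combination -h
    · ring
    · ring
  quad := by
    have h := gr_sq
    intro m k
    rw [semi_pr, semi_pr]
    cases m <;> simp only [nM, dK, S1semi, S0semi, sgsemi, Psemi]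
    · linear_combination (3/2 + 3 * k) * h
    · linear_combination (1/2 - 3 * k) * h
    · linear_combination -h
    · linear_combination -h

/-- time data, strong-Baxter -/
noncomputable def Dstrong : TD Pstrong where
  e := estrong sb
  σ := sgstrong sb
  S1 := S1strong sb
  S0 := S0strong sb
  σ0 := by have := sb_lb; have := sb_ub; unfold sgstrong; nlinarith
  σ3 := by have := sb_lb; have := sb_ub; unfold sgstrong; nlinarith
  e0 := by
    have := sb_lb; have := sb_ub
    intro m; cases m <;> simp only [estrong] <;> nlinarith
  eR := rfl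
  S1R := rfl
  S0R := rfl
  hS1 := by
    have := sb_lb; have := sb_ub
    intro m; cases m <;> simp only [S1strong, sgstrong] <;> nlinarith
  hS0 := by
    have h1 := sb_lb
    have h2 := sb_ub
    have h3 := sb_cu
    have h4 : 0.5697 < sb ^ 2 := by nlinarith
    have h5 : sb ^ 2 < 0.57 := by nlinarith
    intro m; cases m <;> simp only [S0strong, sgstrong, estrong] <;> nlinarith
  harm := by
    have h := sb_cu
    intro m
    rw [strong_pr, strong_pr]
    cases m <;> simp only [nM, dK, estrong, Pstrong]
    · linear_combination (-27/55 + 4/55 * sb) * h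
    · linear_combination h
    · ring
    · ring
  quad := by
    have h := sb_cu
    intro m k
    rw [strong_pr, strong_pr]
    cases m <;> simp only [nM, dK, S1strong, S0strong, sgstrong, Pstrong]
    · linear_combination ((-109/110) + (14/55) * sb + (59/55) * k + (-68/55) * sb * k) * h
    · linear_combination ((2) + (-5/2) * sb + (-2) * k + (5) * sb * k) * h
    · linear_combination ((11/10) + (-7/10) * sb + (1) * k + (-1) * sb * k) * h
    · linear_combination (-sb) * h

end Pool.Agent.TwoLIS
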