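import Pool.Agent.TwoLIS.Params2

/-!
The harmonic data of the two machines.
-/

namespace Pool.Agent.TwoLIS

open Md Ty

lemma mono_le {N k T : ℝ} (i j d : ℕ) (hij : i + j ≤ d) (hT : 1 ≤ T) (hN : 1 ≤ N) (hk : 0 ≤ k)
    (hkT : k ≤ T) : N ^ i * k ^ j ≤ N ^ i * T ^ (d - i) := by
  have h1 : k ^ j ≤ T ^ j := pow_le_pow_left₀ hk hkT j
  have h2 : T ^ j ≤ T ^ (d - i) := pow_le_pow_right₀ hT (by omega)
  have h3 : 0 ≤ N ^ i := by positivity
  exact mul_le_mul_of_nonneg_left (h1.trans h2) h3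

lemma term_le {N k T c C : ℝ} (i j d : ℕ) (hij : i + j ≤ d) (hT : 1 ≤ T) (hN : 1 ≤ N) (hk : 0 ≤ k)
    (hkT : k ≤ T) (hc : c ≤ C) (hC : 0 ≤ C) :
    c * (N ^ i * k ^ j) ≤ C * (N ^ i * T ^ (d - i)) := by
  have h1 := mono_le i j d hij hT hN hk hkT
  have h2 : 0 ≤ N ^ i * k ^ j := by positivity
  calc c * (N ^ i * k ^ j) ≤ C * (N ^ i * k ^ j) := mul_le_mul_of_nonneg_right hc h2
    _ ≤ _ := mul_le_mul_of_nonneg_left h1 hC

lemma term_neg {N k c : ℝ} (i j : ℕ) (hN : 1 ≤ N) (hk : 0 ≤ k) (hc : c ≤ 0) :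
    c * (N ^ i * k ^ j) ≤ 0 := by
  have h2 : 0 ≤ N ^ i * k ^ j := by positivity
  exact mul_nonpos_of_nonpos_of_nonneg hc h2

lemma VsemiR_up {r N k T : ℝ} (h1 : 0.618 < r) (h2 : r < 0.6181) (hT : 1 ≤ T) (hN : 1 ≤ N)
    (hk : 0 ≤ k) (hkT : k ≤ T) :
    VsemiR r N k ≤ -(9/100) * N ^ 5 + 24 * (N ^ 2 * T ^ 3) + 50 * (N * T ^ 4) + T ^ 5 := by
  unfold VsemiR
  have t1 := term_le (c := ((1))) (C := 1) 0 5 5 (by norm_num) hT hN hk hkT (by linarith) (by norm_num)
  have t2 := term_neg (c := ((-43) + (66) * r)) 1 0 hN hk (by linarith)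
  have t3 := term_neg (c := ((-45) + (65) * r)) 1 1 hN hk (by linarith)
  have t4 := term_neg (c := ((-30) + (40) * r)) 1 2 hN hk (by linarith)
  have t5 := term_neg (c := ((-10) + (10) * r)) 1 3 hN hk (by linarith)
  have t6 := term_le (c := ((5) * r)) (C := 16/5) 1 4 5 (by norm_num) hT hN hk hkT (by linarith) (by norm_num)
  have t7 := term_neg (c := ((-35) + (50) * r)) 2 0 hN hk (by linarith)
  have t8 := term_neg (c := ((-50) + (65) * r)) 2 1 hN hk (by linarith)
  have t9 := term_neg (c := ((-30) + (30) * r)) 2 2 hN hk (by linarith)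
  have t10 := term_le (c := ((-10) + (20) * r)) (C := 5/2) 2 3 5 (by norm_num) hT hN hk hkT (by linarith) (by norm_num)
  have t11 := term_neg (c := ((25) + (-45) * r)) 3 0 hN hk (by linarith)
  have t12 := term_neg (c := ((10) + (-30) * r)) 3 1 hN hk (by linarith)
  have t13 := term_neg (c := ((20) + (-35) * r)) 4 0 hN hk (by linarith)
  have t14 := term_neg (c := ((15) + (-25) * r)) 4 1 hN hk (by linarith)
  have t15 : ((3) + (-5) * r) * N ^ 5 ≤ -(9/100) * N ^ 5 := mul_le_mul_of_nonneg_right (by linarith) (by positivity)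
  have p2 : 0 ≤ N ^ 2 * T ^ 3 := by positivity
  have p1 : 0 ≤ N * T ^ 4 := by positivity
  have p0 : 0 ≤ T ^ 5 := by positivity
  norm_num at t1 t2 t3 t4 t5 t6 t7 t8 t9 t10 t11 t12 t13 t14 t15
  linarith only [t1, t2, t3, t4, t5, t6, t7, t8, t9, t10, t11, t12, t13, t14, t15, p0, p1, p2]

lemma VsemiI_up {r N k T : ℝ} (h1 : 0.618 < r) (h2 : r < 0.6181) (hT : 1 ≤ T) (hN : 1 ≤ N)
    (hk : 0 ≤ k) (hkT : k ≤ T) :
    VsemiI r N k ≤ -(9/100) * N ^ 5 + 24 * (N ^ 2 * T ^ 3) + 50 * (N * T ^ 4) + T ^ 5 := by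
  unfold VsemiI
  have t1 := term_le (c := ((1))) (C := 1) 0 5 5 (by norm_num) hT hN hk hkT (by linarith) (by norm_num)
  have t2 := term_le (c := ((2) + (1) * r)) (C := 14/5) 1 0 5 (by norm_num) hT hN hk hkT (by linarith) (by norm_num)
  have t3 := term_le (c := ((15) + (-15) * r)) (C := 59/10) 1 1 5 (by norm_num) hT hN hk hkT (by linarith) (by norm_num)
  have t4 := term_le (c := ((10) * r)) (C := 63/10) 1 2 5 (by norm_num) hT hN hk hkT (by linarith) (by norm_num)
  have t5 := term_le (c := ((10) + (-10) * r)) (C := 4) 1 3 5 (by norm_num) hT hN hk hkT (by linarith) (by norm_num)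
  have t6 := term_le (c := ((5) * r)) (C := 16/5) 1 4 5 (by norm_num) hT hN hk hkT (by linarith) (by norm_num)
  have t7 := term_le (c := ((-5) + (10) * r)) (C := 13/10) 2 0 5 (by norm_num) hT hN hk hkT (by linarith) (by norm_num)
  have t8 := term_le (c := ((-20) + (35) * r)) (C := 9/5) 2 1 5 (by norm_num) hT hN hk hkT (by linarith) (by norm_num)
  have t9 := term_le (c := ((-10) + (20) * r)) (C := 5/2) 2 3 5 (by norm_num) hT hN hk hkT (by linarith) (by norm_num)
  have t10 := term_neg (c := ((-5) + (5) * r)) 3 0 hN hk (by linarith)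
  have t11 := term_neg (c := ((-10) + (10) * r)) 3 1 hN hk (by linarith)
  have t12 := term_neg (c := ((5) + (-10) * r)) 4 0 hN hk (by linarith)
  have t13 := term_neg (c := ((15) + (-25) * r)) 4 1 hN hk (by linarith)
  have t14 : ((3) + (-5) * r) * N ^ 5 ≤ -(9/100) * N ^ 5 := mul_le_mul_of_nonneg_right (by linarith) (by positivity)
  have p2 : 0 ≤ N ^ 2 * T ^ 3 := by positivity
  have p1 : 0 ≤ N * T ^ 4 := by positivity
  have p0 : 0 ≤ T ^ 5 := by positivity
  norm_num at t1 t2 t3 t4 t5 t6 t7 t8 t9 t10 t11 t12 t13 t14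
  linarith only [t1, t2, t3, t4, t5, t6, t7, t8, t9, t10, t11, t12, t13, t14, p0, p1, p2]

lemma VsemiL_up {r N k T : ℝ} (h1 : 0.618 < r) (h2 : r < 0.6181) (hT : 1 ≤ T) (hN : 1 ≤ N)
    (hk : 0 ≤ k) (hkT : k ≤ T) :
    VsemiL r N k ≤ -(9/100) * N ^ 5 + 24 * (N ^ 2 * T ^ 3) + 50 * (N * T ^ 4) + T ^ 5 := by
  unfold VsemiL
  have t1 := term_le (c := ((1))) (C := 1) 0 5 5 (by norm_num) hT hN hk hkT (by linarith) (by norm_num)
  have t2 := term_le (c := ((-63) + (111) * r)) (C := 29/5) 1 0 5 (by norm_num) hT hN hk hkT (by linarith) (by norm_num)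
  have t3 := term_le (c := ((-65) + (125) * r)) (C := 62/5) 1 1 5 (by norm_num) hT hN hk hkT (by linarith) (by norm_num)
  have t4 := term_le (c := ((-30) + (70) * r)) (C := 67/5) 1 2 5 (by norm_num) hT hN hk hkT (by linarith) (by norm_num)
  have t5 := term_le (c := ((-10) + (30) * r)) (C := 87/10) 1 3 5 (by norm_num) hT hN hk hkT (by linarith) (by norm_num)
  have t6 := term_le (c := ((5) * r)) (C := 16/5) 1 4 5 (by norm_num) hT hN hk hkT (by linarith) (by norm_num)
  have t7 := term_le (c := ((-45) + (80) * r)) (C := 23/5) 2 0 5 (by norm_num) hT hN hk hkT (by linarith) (by norm_num)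
  have t8 := term_le (c := ((-50) + (95) * r)) (C := 89/10) 2 1 5 (by norm_num) hT hN hk hkT (by linarith) (by norm_num)
  have t9 := term_le (c := ((-30) + (60) * r)) (C := 36/5) 2 2 5 (by norm_num) hT hN hk hkT (by linarith) (by norm_num)
  have t10 := term_le (c := ((-10) + (20) * r)) (C := 5/2) 2 3 5 (by norm_num) hT hN hk hkT (by linarith) (by norm_num)
  have t11 := term_neg (c := ((45) + (-75) * r)) 3 0 hN hk (by linarith)
  have t12 := term_neg (c := ((30) + (-50) * r)) 3 1 hN hk (by linarith)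
  have t13 := term_neg (c := ((30) + (-50) * r)) 4 0 hN hk (by linarith)
  have t14 := term_neg (c := ((15) + (-25) * r)) 4 1 hN hk (by linarith)
  have t15 : ((3) + (-5) * r) * N ^ 5 ≤ -(9/100) * N ^ 5 := mul_le_mul_of_nonneg_right (by linarith) (by positivity)
  have p2 : 0 ≤ N ^ 2 * T ^ 3 := by positivity
  have p1 : 0 ≤ N * T ^ 4 := by positivity
  have p0 : 0 ≤ T ^ 5 := by positivity
  norm_num at t1 t2 t3 t4 t5 t6 t7 t8 t9 t10 t11 t12 t13 t14 t15
  linarith only [t1, t2, t3, t4, t5, t6, t7, t8, t9, t10, t11, t12, t13, t14, t15, p0, p1, p2]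


lemma semi_up_aux {N T : ℝ} (hT : 1 ≤ T) (hN : 1 ≤ N) :
    -(9/100) * N ^ 5 + 24 * (N ^ 2 * T ^ 3) + 50 * (N * T ^ 4) + T ^ 5 ≤ 2000 * T ^ 5 := by
  rcases le_total N (8 * T) with h | h
  · have h2 : N ^ 2 ≤ (8 * T) ^ 2 := pow_le_pow_left₀ (by linarith) h 2
    have h3 : N ^ 2 * T ^ 3 ≤ (8 * T) ^ 2 * T ^ 3 := mul_le_mul_of_nonneg_right h2 (by positivity)
    have h4 : N * T ^ 4 ≤ (8 * T) * T ^ 4 := mul_le_mul_of_nonneg_right h (by positivity)
    have h5 : 0 ≤ N ^ 5 := by positivity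
    have h6 : 0 ≤ T ^ 5 := by positivity
    nlinarith only [h3, h4, h5, h6]
  · have hT' : T ≤ N / 8 := by linarith
    have h2 : T ^ 3 ≤ (N / 8) ^ 3 := pow_le_pow_left₀ (by linarith) hT' 3
    have h2' : T ^ 4 ≤ (N / 8) ^ 4 := pow_le_pow_left₀ (by linarith) hT' 4
    have h3 : N ^ 2 * T ^ 3 ≤ N ^ 2 * (N / 8) ^ 3 := mul_le_mul_of_nonneg_left h2 (by positivity)
    have h4 : N * T ^ 4 ≤ N * (N / 8) ^ 4 := mul_le_mul_of_nonneg_left h2' (by linarith)
    have h5 : 0 ≤ N ^ 5 := by positivity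
    have h6 : 0 ≤ T ^ 5 := by positivity
    nlinarith only [h3, h4, h5, h6]

/-- harmonic data, semi-Baxter -/
noncomputable def Jsemi : JD Psemi where
  V := Vsemi gr
  d := 5
  ψ := fun k => k ^ 5
  ψR := fun k => by simp only [Vsemi, VsemiR]; ring
  ψM := fun k => by simp only [Vsemi, VsemiM]; ring
  harm := by
    have h := gr_sq
    intro m N k
    rw [semi_pr, semi_pr]
    cases m <;> simp only [nM, dK, dN, Psemi, Vsemi]
    · rw [VsemiI_harm h]; simp
    · rw [VsemiR_harm h]; simp [sub_eq_add_neg]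
    · rw [VsemiL_harm h]; simp [sub_eq_add_neg]
    · rw [VsemiM_harm h]; simp [sub_eq_add_neg]
  C := 2000
  C0 := by norm_num
  up := by
    intro m N k T hT hN hk hkT
    have h0 := semi_up_aux hT hN
    cases m <;> simp only [Vsemi]
    · exact (VsemiI_up gr_lb gr_ub hT hN hk hkT).trans h0
    · exact (VsemiR_up gr_lb gr_ub hT hN hk hkT).trans h0
    · exact (VsemiL_up gr_lb gr_ub hT hN hk hkT).trans h0
    · exact (VsemiL_up gr_lb gr_ub hT hN hk hkT).trans h0
  fail := by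
    intro N hN
    have h1 := gr_lb
    have h2 := gr_ub
    simp only [Vsemi, VsemiR]
    have e1 : (-43 + 66 * gr) * N ≤ 0 := mul_nonpos_of_nonpos_of_nonneg (by linarith) (by positivity)
    have e2 : (-35 + 50 * gr) * N ^ 2 ≤ 0 :=
      mul_nonpos_of_nonpos_of_nonneg (by linarith) (by positivity)
    have e3 : (25 - 45 * gr) * N ^ 3 ≤ 0 :=
      mul_nonpos_of_nonpos_of_nonneg (by linarith) (by positivity)
    have e4 : (20 - 35 * gr) * N ^ 4 ≤ 0 :=
      mul_nonpos_of_nonpos_of_nonneg (by linarith) (by positivity)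
    have e5 : (3 - 5 * gr) * N ^ 5 ≤ 0 :=
      mul_nonpos_of_nonpos_of_nonneg (by linarith) (by positivity)
    linarith
  ψeq := fun _ => rfl
  C1 := by norm_num

/-- harmonic data, strong-Baxter -/
noncomputable def Jstrong : JD Pstrong where
  V := Vstrong sb
  d := 2
  ψ := fun k => k ^ 2
  ψR := fun k => by simp only [Vstrong, VstrongR]; ring
  ψM := fun k => by simp only [Vstrong, VstrongM]; ring
  harm := by
    have h := sb_cu
    intro m N k
    rw [strong_pr, strong_pr]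
    cases m <;> simp only [nM, dK, dN, Pstrong, Vstrong]
    · rw [VstrongI_harm h]; simp
    · rw [VstrongR_harm h]; simp [sub_eq_add_neg]
    · rw [VstrongL_harm h]; simp [sub_eq_add_neg]
    · rw [VstrongM_harm h]; simp [sub_eq_add_neg]
  C := 20
  C0 := by norm_num
  up := by
    intro m N k T hT hN hk hkT
    have h1 := sb_lb
    have h2 := sb_ub
    have h3 : 0.5697 < sb ^ 2 := by nlinarith
    have h4 : sb ^ 2 < 0.57 := by nlinarith
    have q1 : N * k ≤ N * T := mul_le_mul_of_nonneg_left hkT (by linarith)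
    have q0 : 0 ≤ N * k := mul_nonneg (by linarith) hk
    have q2 : k ^ 2 ≤ T ^ 2 := pow_le_pow_left₀ hk hkT 2
    have q3 : k ≤ T ^ 2 := by nlinarith
    have q4 : N ≤ N * T := by nlinarith
    have q5 : 1 ≤ T ^ 2 := by nlinarith
    have q6 : (-2 + 2 * sb + 2 * sb ^ 2) * (N * k) ≤ 0.66 * (N * T) := by
      calc _ ≤ 0.66 * (N * k) := mul_le_mul_of_nonneg_right (by linarith) q0
        _ ≤ _ := by linarith
    have q7 : (2 - sb - 3 * sb ^ 2) * N ^ 2 ≤ (-0.46) * N ^ 2 :=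
      mul_le_mul_of_nonneg_right (by linarith) (by positivity)
    have q8 : 0 ≤ N ^ 2 := by positivity
    have q9 : 0 ≤ (0.46 * N - T) ^ 2 := sq_nonneg _
    have hI : (-3 - 2 * sb + 6 * sb ^ 2) * N ≤ 0 :=
      mul_nonpos_of_nonpos_of_nonneg (by linarith) (by linarith)
    have hR : (-1 - 2 * sb) * N ≤ 0 :=
      mul_nonpos_of_nonpos_of_nonneg (by linarith) (by linarith)
    have hL : (-(23/5) + 4/5 * sb + 36/5 * sb ^ 2) * N ≤ 0.12 * N :=
      mul_le_mul_of_nonneg_right (by linarith) (by linarith)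
    have hM : (-1 + 2 * sb ^ 2) * N ≤ 0.15 * N :=
      mul_le_mul_of_nonneg_right (by linarith) (by linarith)
    have kI : (2 - 2 * sb ^ 2) * k ≤ 0.87 * k :=
      mul_le_mul_of_nonneg_right (by linarith) hk
    have kL : (14/5 - 2/5 * sb - 8/5 * sb ^ 2) * k ≤ 2 * k :=
      mul_le_mul_of_nonneg_right (by linarith) hk
    cases m <;> simp only [Vstrong, VstrongI, VstrongR, VstrongL, VstrongM]
    · linarith
    · linarith
    · linarith
    · linarith
  fail := by
    intro N hN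
    have h1 := sb_lb
    have h2 := sb_ub
    have h3 : 0.5697 < sb ^ 2 := by nlinarith
    simp only [Vstrong, VstrongR]
    have hR : (-1 - 2 * sb) * N ≤ 0 :=
      mul_nonpos_of_nonpos_of_nonneg (by linarith) (by linarith)
    have q7 : (2 - sb - 3 * sb ^ 2) * N ^ 2 ≤ 0 :=
      mul_nonpos_of_nonpos_of_nonneg (by linarith) (by positivity)
    linarith
  ψeq := fun _ => rfl
  C1 := by norm_num

end Pool.Agent.TwoLIS
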