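import Pool.Agent.TwoLIS.MWindows
import Pool.Agent.BaxterLIS.Chains

/-!
The stack machine with labels for semi-Baxter and strong-Baxter permutations.
-/

namespace Pool.Agent.TwoLIS

open Md Ty
open scoped List
open Pool.Agent.BaxterLIS (sublist_chain not_both_orders Chain)

/-- state of the stack machine; blocks are lists of labels, top block first;
`n` elements have been inserted (labels `0, ..., n-1`) -/
structure St where
  mode : Md
  left : List (List ℕ)
  cur : List ℕ
  right : List (List ℕ)
  n : ℕ

/-- one flip -/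
def stp : Ty → St → Bool → St
  | _, ⟨I, l, c, r, n⟩, true => ⟨R, l, c, r, n⟩
  | _, ⟨I, l, c, r, n⟩, false => ⟨L, l, c, r, n⟩
  | _, ⟨R, l, c, r, n⟩, false => ⟨I, c :: l, [n], r, n + 1⟩
  | semi, ⟨R, l, c, r, n⟩, true => ⟨R, c :: l, r.headD [], r.tail, n⟩
  | strong, ⟨R, l, c, r, n⟩, true => ⟨R, l, c ++ r.headD [], r.tail, n⟩
  | _, ⟨L, l, c, r, n⟩, true => ⟨M, l.tail, l.headD [] ++ c, r, n⟩
  | _, ⟨L, l, c, r, n⟩, false => ⟨I, l, [n], c :: r, n + 1⟩
  | _, ⟨M, l, c, r, n⟩, true => ⟨M, l.tail, l.headD [] ++ c, r, n⟩
  | semi, ⟨M, l, c, r, n⟩, false => ⟨I, l, [n], c :: r, n + 1⟩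
  | strong, ⟨M, l, c, r, n⟩, false => ⟨I, l, n :: c, r, n + 1⟩

/-- a pop is allowed only if the popped stack is nonempty -/
def okk : St → Bool → Prop
  | ⟨R, _, _, r, _⟩, true => r ≠ []
  | ⟨L, l, _, _, _⟩, true => l ≠ []
  | ⟨M, l, _, _, _⟩, true => l ≠ []
  | _, _ => True

/-- valid runs -/
inductive Run (ty : Ty) : St → List Bool → St → Prop
  | nil (s : St) : Run ty s [] s
  | cons {s : St} {b : Bool} {w : List Bool} {s' : St} (h : okk s b) (hr : Run ty (stp ty s b) w s') :
      Run ty s (b :: w) s'

/-- the arrangement of the inserted elements, from left to right -/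
def arr (s : St) : List ℕ := s.left.reverse.flatten ++ (s.cur ++ s.right.flatten)

/-- the initial state: one element -/
def init : St := ⟨I, [], [0], [], 1⟩

variable {ty : Ty}

lemma run_append {s s' s'' : St} {u v : List Bool} (h1 : Run ty s u s') (h2 : Run ty s' v s'') :
    Run ty s (u ++ v) s'' := by
  induction h1 with
  | nil => exact h2
  | cons h _ ih => exact Run.cons h (ih h2)

lemma run_split {s s'' : St} {u v : List Bool} (h : Run ty s (u ++ v) s'') :
    ∃ s', Run ty s u s' ∧ Run ty s' v s'' := by
  induction u generalizing s with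
  | nil => exact ⟨s, Run.nil s, h⟩
  | cons b u ih =>
    cases h with
    | cons hk hr =>
      obtain ⟨s', h1, h2⟩ := ih hr
      exact ⟨s', Run.cons hk h1, h2⟩

lemma stp_mode (s : St) (b : Bool) : (stp ty s b).mode = nM s.mode b := by
  obtain ⟨m, l, c, r, n⟩ := s
  cases ty <;> cases m <;> cases b <;> simp [stp, nM]

lemma run_mode (P : Prm) {s s' : St} {w : List Bool} (h : Run ty s w s') :
    s'.mode = P.ch.run s.mode w := by
  induction h with
  | nil => rfl
  | cons h hr ih => rw [ih, stp_mode]; rfl

lemma run_det {s s1 s2 : St} {w : List Bool} (h1 : Run ty s w s1) (h2 : Run ty s w s2) : s1 = s2 := by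
  induction h1 with
  | nil => cases h2; rfl
  | cons h hr ih => cases h2 with
    | cons h' hr' => exact ih hr'

/-- invariant: blocks nonempty, labels are exactly `0..n-1`, `n ≥ 1` -/
structure WF (s : St) : Prop where
  left_ne : ∀ b ∈ s.left, b ≠ []
  cur_ne : s.cur ≠ []
  right_ne : ∀ b ∈ s.right, b ≠ []
  perm : (arr s).Perm (List.range s.n)
  pos : 1 ≤ s.n

lemma wf_init : WF init := by
  refine ⟨by simp [init], by simp [init], by simp [init], ?_, le_rfl⟩
  simp [init, arr]

lemma headD_append_tail (l : List (List ℕ)) : l.headD [] ++ l.tail.flatten = l.flatten := by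
  cases l <;> simp

lemma headD_append_tail' (l : List (List ℕ)) : l.tail.reverse.flatten ++ l.headD [] = l.reverse.flatten := by
  cases l <;> simp

lemma arr_stp (s : St) (b : Bool) (hs : s.mode = I ∨ b = true) : arr (stp ty s b) = arr s := by
  obtain ⟨m, l, c, r, n⟩ := s
  have h1 := headD_append_tail r
  have h2 := headD_append_tail' l
  cases ty <;> cases m <;> cases b <;> simp only [stp, arr] at * <;> (try (simp at hs; done))
  all_goals first
    | (rw [← h2]; simp only [List.append_assoc]; done)
    | (rw [← h1]; simp only [List.append_assoc, List.reverse_cons, List.flatten_append, List.flatten_cons, List.flatten_nil,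
        List.append_nil]; done)

/-- the part of the arrangement before the place of insertion -/
def pre : St → List ℕ
  | ⟨R, l, c, _, _⟩ => l.reverse.flatten ++ c
  | ⟨_, l, _, _, _⟩ => l.reverse.flatten

/-- the part of the arrangement after the place of insertion -/
def post : St → List ℕ
  | ⟨R, _, _, r, _⟩ => r.flatten
  | ⟨_, _, c, r, _⟩ => c ++ r.flatten

lemma arr_pre_post (s : St) : arr s = pre s ++ post s := by
  obtain ⟨m, l, c, r, n⟩ := s
  cases m <;> simp [arr, pre, post]

lemma arr_stop (s : St) (hs : s.mode ≠ I) : arr (stp ty s false) = pre s ++ s.n :: post s := by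
  obtain ⟨m, l, c, r, n⟩ := s
  cases ty <;> cases m <;> simp [stp, arr, pre, post] at *

lemma arr_sublist (s : St) (b : Bool) : arr s <+ arr (stp ty s b) := by
  by_cases hs : s.mode = I ∨ b = true
  · rw [arr_stp s b hs]
  · push Not at hs
    have hb : b = false := by cases b <;> simp_all
    subst hb
    rw [arr_stop s hs.1, arr_pre_post s]
    exact List.Sublist.append_left (List.sublist_cons_self _ _) _

lemma run_arr_sublist {s s' : St} {w : List Bool} (h : Run ty s w s') : arr s <+ arr s' := by
  induction h with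
  | nil => exact List.Sublist.refl _
  | cons h hr ih => exact (arr_sublist _ _).trans ih

lemma stp_n (s : St) (b : Bool) :
    (stp ty s b).n = if s.mode ≠ I ∧ b = false then s.n + 1 else s.n := by
  obtain ⟨m, l, c, r, n⟩ := s
  cases ty <;> cases m <;> cases b <;> simp [stp]

lemma headD_mem {l : List (List ℕ)} (h : l ≠ []) : l.headD [] ∈ l := by
  cases l with
  | nil => exact absurd rfl h
  | cons a l => simp

lemma tail_mem {l : List (List ℕ)} {a : List ℕ} (h : a ∈ l.tail) : a ∈ l :=
  List.mem_of_mem_tail h

lemma wf_stp {s : St} {b : Bool} (h : okk s b) (hw : WF s) : WF (stp ty s b) := by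
  have hperm : (arr (stp ty s b)).Perm (List.range (stp ty s b).n) := by
    by_cases hs : s.mode = I ∨ b = true
    · rw [arr_stp s b hs, stp_n, if_neg]
      · exact hw.perm
      · rintro ⟨h1, h2⟩; rcases hs with h3 | h3
        · exact h1 h3
        · simp [h2] at h3
    · push Not at hs
      have hb : b = false := by cases b <;> simp_all
      subst hb
      rw [stp_n, if_pos ⟨hs.1, rfl⟩, arr_stop s hs.1, List.range_succ]
      have h3 := hw.perm
      rw [arr_pre_post] at h3
      exact List.perm_middle.trans ((List.Perm.cons _ h3).trans (List.perm_append_singleton _ _).symm)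
  have hpos : 1 ≤ (stp ty s b).n := by
    rw [stp_n]; have := hw.pos; split_ifs <;> omega
  have h1 := hw.left_ne
  have h2 := hw.cur_ne
  have h3 := hw.right_ne
  obtain ⟨m, l, c, r, n⟩ := s
  simp only at h1 h2 h3
  refine ⟨?_, ?_, ?_, hperm, hpos⟩
  · cases ty <;> cases m <;> cases b <;> simp only [stp] <;> intro d hd <;>
      first
        | exact h1 d hd
        | (rcases List.mem_cons.mp hd with rfl | hd
           · exact h2
           · exact h1 d hd)
        | exact h1 d (tail_mem hd)
  · cases ty <;> cases m <;> cases b <;> simp only [stp] <;>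
      first
        | exact h2
        | exact List.cons_ne_nil _ _
        | exact h3 _ (headD_mem h)
        | exact fun h => h2 (List.append_eq_nil_iff.mp h).2
        | exact fun h => h2 (List.append_eq_nil_iff.mp h).1
  · cases ty <;> cases m <;> cases b <;> simp only [stp] <;> intro d hd <;>
      first
        | exact h3 d hd
        | (rcases List.mem_cons.mp hd with rfl | hd
           · exact h2
           · exact h3 d hd)
        | exact h3 d (tail_mem hd)

lemma wf_run {s s' : St} {w : List Bool} (h : Run ty s w s') (hw : WF s) : WF s' := by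
  induction h with
  | nil => exact hw
  | cons h hr ih => exact ih (wf_stp h hw)

lemma WF.nodup {s : St} (h : WF s) : (arr s).Nodup :=
  h.perm.nodup_iff.mpr List.nodup_range

/-- block at a given depth -/
def blk (s : St) : ℤ → List ℕ
  | Int.ofNat 0 => s.cur
  | Int.ofNat (k + 1) => s.right.getD k []
  | Int.negSucc k => s.left.getD k []

lemma zz_dec (k : ℕ) : Int.negSucc k - 1 = Int.negSucc (k + 1) := by omega
lemma zz_inc0 : Int.negSucc 0 + 1 = Int.ofNat 0 := by decide
lemma zz_inc (k : ℕ) : Int.negSucc (k + 1) + 1 = Int.negSucc k := by omega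
lemma zz_decp (k : ℕ) : Int.ofNat (k + 1) - 1 = Int.ofNat k := by simp
lemma zz_dec0 : Int.ofNat 0 - 1 = Int.negSucc 0 := by decide
lemma zz_incp (k : ℕ) : Int.ofNat k + 1 = Int.ofNat (k + 1) := by simp
lemma zz_c1 (k : ℕ) : ¬ (Int.ofNat (k + 1) ≤ 0) := by have := Int.natCast_nonneg k; simp only [Int.ofNat_eq_natCast]; omega
lemma zz_c2 : Int.ofNat 0 ≤ 0 := by simp
lemma zz_c3 (k : ℕ) : Int.negSucc k ≤ 0 := by omega
lemma zz_c4 (k : ℕ) : ¬ (Int.ofNat k ≤ -1) := by simp only [Int.ofNat_eq_natCast]; omega
lemma zz_c5 (k : ℕ) : Int.negSucc k ≤ -1 := by omega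
lemma zz_c6 (k : ℕ) : 0 ≤ Int.ofNat k := by simp
lemma zz_c7 (k : ℕ) : ¬ (0 ≤ Int.negSucc k) := by omega
lemma zz_c8 (k : ℕ) : 1 ≤ Int.ofNat (k + 1) := by simp only [Int.ofNat_eq_natCast]; omega
lemma zz_c9 : ¬ (1 ≤ Int.ofNat 0) := by simp
lemma zz_c10 (k : ℕ) : ¬ (1 ≤ Int.negSucc k) := by omega

/-- location of a tracked element -/
def Loc (s : St) (e : ℕ) (z : ℤ) : Prop := e ∈ blk s z

lemma getD_head (r : List (List ℕ)) : r.getD 0 [] = r.headD [] := by cases r <;> simp
lemma getD_tail (r : List (List ℕ)) (k : ℕ) : r.tail.getD k [] = r.getD (k + 1) [] := by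
  cases r <;> simp

lemma loc_step {s : St} {b : Bool} {e : ℕ} {z : ℤ} (hl : Loc s e z) :
    Loc (stp ty s b) e (zz ty s.mode b z) := by
  obtain ⟨m, l, c, r, n⟩ := s
  unfold Loc at *
  match z, hl with
  | Int.ofNat 0, hl =>
    simp only [blk] at hl
    cases ty <;> cases m <;> cases b <;>
      simp only [stp, zz, zz_c2, zz_c4, zz_c6, zz_c9, if_true, if_false, zz_dec0, zz_incp, blk,
        List.getD_cons_zero, List.mem_append, List.mem_cons] <;> tauto
  | Int.ofNat (k + 1), hl =>
    simp only [blk] at hl
    cases k with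
    | zero =>
      rw [getD_head] at hl
      cases ty <;> cases m <;> cases b <;>
        simp only [stp, zz, zz_c1, zz_c4, zz_c6, zz_c8, if_true, if_false, zz_decp, zz_incp, blk,
          List.getD_cons_zero, List.getD_cons_succ, List.mem_append, List.mem_cons, getD_head] <;> tauto
    | succ k =>
      cases ty <;> cases m <;> cases b <;>
        simp only [stp, zz, zz_c1, zz_c4, zz_c6, zz_c8, if_true, if_false, zz_decp, zz_incp, blk,
          List.getD_cons_zero, List.getD_cons_succ, getD_tail] <;> assumption
  | Int.negSucc k, hl =>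
    simp only [blk] at hl
    cases k with
    | zero =>
      rw [getD_head] at hl
      cases ty <;> cases m <;> cases b <;>
        simp only [stp, zz, zz_c3, zz_c5, zz_c7, zz_c10, if_true, if_false, zz_inc0, zz_inc, zz_dec, blk,
          List.getD_cons_zero, List.getD_cons_succ, List.mem_append, List.mem_cons, getD_head] <;> tauto
    | succ k =>
      cases ty <;> cases m <;> cases b <;>
        simp only [stp, zz, zz_c3, zz_c5, zz_c7, zz_c10, if_true, if_false, zz_inc0, zz_inc, zz_dec, blk,
          List.getD_cons_zero, List.getD_cons_succ, getD_tail] <;> assumption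

lemma getD_sub {l : List (List ℕ)} {k e : ℕ} (h : e ∈ l.getD k []) : e ∈ l.flatten := by
  by_cases hk : k < l.length
  · rw [List.getD_eq_getElem _ _ hk] at h
    exact List.mem_flatten.mpr ⟨_, List.getElem_mem hk, h⟩
  · rw [List.getD_eq_default _ _ (by omega)] at h
    simp at h

lemma loc_mem {s : St} {e : ℕ} {z : ℤ} (h : Loc s e z) : e ∈ arr s := by
  unfold Loc at h
  match z, h with
  | Int.ofNat 0, h =>
    exact List.mem_append_right _ (List.mem_append_left _ h)
  | Int.ofNat (k + 1), h =>
    exact List.mem_append_right _ (List.mem_append_right _ (getD_sub h))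
  | Int.negSucc k, h =>
    apply List.mem_append_left
    have := getD_sub h
    rw [List.mem_flatten] at this ⊢
    simpa using this

lemma loc_lt {s : St} (hw : WF s) {e : ℕ} {z : ℤ} (h : Loc s e z) : e < s.n := by
  have := loc_mem h
  have := hw.perm.subset this
  simpa using this

lemma loc_lft {s : St} {e : ℕ} {z : ℤ} (h : Loc s e z) (hz : lft s.mode z) : e ∈ pre s := by
  obtain ⟨m, l, c, r, n⟩ := s
  unfold Loc at h
  have key : ∀ k : ℕ, e ∈ l.getD k [] → e ∈ l.reverse.flatten := by
    intro k hk
    have := getD_sub hk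
    rw [List.mem_flatten] at this ⊢
    simpa using this
  match z, h with
  | Int.ofNat 0, h =>
    rcases hz with ⟨h1, _⟩ | ⟨_, h2⟩
    · simp only at h1; subst h1
      exact List.mem_append_right _ h
    · simp at h2
  | Int.ofNat (k + 1), h =>
    rcases hz with ⟨_, h2⟩ | ⟨_, h2⟩
    · exact absurd h2 (zz_c1 k)
    · simp at h2; omega
  | Int.negSucc k, h =>
    have h1 := key k h
    cases m <;> simp only [pre]
    · exact h1
    · exact List.mem_append_left _ h1
    · exact h1
    · exact h1

/-- after a stop, the elements before the place of insertion precede the new element -/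
lemma stop_order {s : St} (hs : s.mode ≠ I) {e : ℕ} (he : e ∈ pre s) :
    [e, s.n] <+ arr (stp ty s false) := by
  rw [arr_stop s hs]
  exact (List.singleton_sublist.mpr he).append (List.singleton_sublist.mpr (by simp))

lemma stop_order' {s : St} (hs : s.mode ≠ I) {e : ℕ} (he : e ∈ post s) :
    [s.n, e] <+ arr (stp ty s false) := by
  rw [arr_stop s hs]
  exact ((List.singleton_sublist.mpr he).cons_cons s.n).trans (List.sublist_append_right _ _)

lemma stop_loc {s : St} (hs : s.mode ≠ I) : Loc (stp ty s false) s.n 0 := by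
  obtain ⟨m, l, c, r, n⟩ := s
  cases ty <;> cases m <;> simp [stp, Loc, blk] at *

/-- **Chain lemma**: the walker's restarts give an increasing chain in the final arrangement. -/
lemma chain_exists {s s' : St} {w : List Bool} (hr : Run ty s w s') (hw : WF s) {e : ℕ} {z : ℤ}
    (hl : Loc s e z) : ∃ c : List ℕ, (e :: c) <+ arr s' ∧ (e :: c).Pairwise (· < ·) ∧
      best ty w s.mode z ≤ c.length := by
  induction hr generalizing e z with
  | nil s =>
    exact ⟨[], List.singleton_sublist.mpr (loc_mem hl), by simp, by simp [best]⟩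
  | @cons s b w s' hk hr ih =>
    have hw' : WF (stp ty s b) := wf_stp hk hw
    obtain ⟨c, hc1, hc2, hc3⟩ := ih hw' (loc_step (ty := ty) (b := b) hl)
    rw [stp_mode] at hc3
    simp only [best]
    split_ifs with hcond
    · obtain ⟨rfl, hz⟩ := hcond
      have hmI : s.mode ≠ I := by
        rcases hz with ⟨h, _⟩ | ⟨h, _⟩
        · rw [h]; decide
        · exact h
      have hmode : (stp ty s false).mode = I := by
        rw [stp_mode]; cases h : s.mode <;> simp_all [nM]
      obtain ⟨c', hc1', hc2', hc3'⟩ := ih hw' (stop_loc hmI)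
      rw [hmode] at hc3'
      have hnd : (arr s').Nodup := (wf_run hr hw').nodup
      have hord : [e, s.n] <+ arr s' :=
        (stop_order hmI (loc_lft hl hz)).trans (run_arr_sublist hr)
      have hlt : e < s.n := loc_lt hw hl
      by_cases hmax : best ty w (nM s.mode false) (zz ty s.mode false z) ≤ 1 + best ty w I 0
      · refine ⟨s.n :: c', sublist_chain hnd hord hc1', ?_, ?_⟩
        · rw [List.pairwise_cons] at hc2' ⊢
          refine ⟨?_, by rw [List.pairwise_cons]; exact hc2'⟩
          intro a ha
          rcases List.mem_cons.mp ha with rfl | ha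
          · exact hlt
          · exact hlt.trans (hc2'.1 a ha)
        · rw [max_eq_right hmax, List.length_cons]; omega
      · exact ⟨c, hc1, hc2, by rw [max_eq_left (by omega)]; exact hc3⟩
    · exact ⟨c, hc1, hc2, hc3⟩

/-- a good window inside a run yields a long increasing chain -/
lemma good_window {P : Prm} {s s' : St} {a y t : List Bool} {h : ℕ} {r : ℝ}
    (hr : Run P.ty s (a ++ ([false, true, false, true] ++ y) ++ t) s') (hw : WF s)
    (hg : goodBlock P h r y) :
    ∃ c : List ℕ, c <+ arr s' ∧ c.Pairwise (· < ·) ∧ r ≤ c.length := by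
  obtain ⟨u, ⟨v, hv⟩, hu, hru⟩ := hg
  subst hv
  have e1 : a ++ ([false, true, false, true] ++ (u ++ v)) ++ t =
      (a ++ [false, true, false, true]) ++ (u ++ (v ++ t)) := by simp
  rw [e1] at hr
  obtain ⟨s1, h1, h2⟩ := run_split hr
  obtain ⟨s2, h3, h4⟩ := run_split h2
  have hw1 := wf_run h1 hw
  have hm1 : s1.mode = R := by
    rw [run_mode P h1, Chain.run_append]
    cases P.ch.run s.mode a <;> rfl
  obtain ⟨e, b', hb'⟩ := List.exists_cons_of_ne_nil hw1.cur_ne
  have hloc : Loc s1 e 0 := by
    show e ∈ s1.cur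
    rw [hb']; simp
  obtain ⟨c, hc1, hc2, hc3⟩ := chain_exists h3 hw1 hloc
  refine ⟨e :: c, hc1.trans (run_arr_sublist h4), hc2, ?_⟩
  rw [hm1] at hc3
  have hc4 : (rew P.ty u : ℝ) ≤ ((e :: c).length : ℝ) := by
    have : rew P.ty u ≤ (e :: c).length := by
      rw [List.length_cons]; exact le_trans hc3 (Nat.le_succ _)
    exact_mod_cast this
  linarith

end Pool.Agent.TwoLIS
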