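import Pool.Agent.TwoLIS.StkInj

/-!
The two classes of arrangements, and the active sites.
-/

namespace Pool.Agent.TwoLIS

open Md Ty
open scoped List

variable {ty : Ty}

variable (ty) in
/-- class condition for a list of labels (label = time, place in the list = value) -/
def ClassL (A : List ℕ) : Prop :=
  ∀ i j k, i < j → j + 1 < k →
    ¬ [j + 1, i, k, j] <+ A ∧
    (ty = strong → ¬ [j, k, i, j + 1] <+ A ∧ ¬ [j + 1, k, i, j] <+ A)

variable (ty) in
/-- the cut `(X, Y)` is forbidden for all later insertions -/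
def Dead (X Y : List ℕ) : Prop :=
  ∃ i j, i < j ∧ (([j + 1, i] <+ X ∧ [j] <+ Y) ∨
    (ty = strong ∧ (([j] <+ X ∧ [i, j + 1] <+ Y) ∨ ([j + 1] <+ X ∧ [i, j] <+ Y))))

lemma dead_mono {X Y X' Y' : List ℕ} (hX : X <+ X') (hY : Y <+ Y') (h : Dead ty X Y) :
    Dead ty X' Y' := by
  obtain ⟨i, j, hij, h⟩ := h
  refine ⟨i, j, hij, ?_⟩
  rcases h with ⟨h1, h2⟩ | ⟨hs, ⟨h1, h2⟩ | ⟨h1, h2⟩⟩
  · exact Or.inl ⟨h1.trans hX, h2.trans hY⟩
  · exact Or.inr ⟨hs, Or.inl ⟨h1.trans hX, h2.trans hY⟩⟩
  · exact Or.inr ⟨hs, Or.inr ⟨h1.trans hX, h2.trans hY⟩⟩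

lemma sublist_split_at {n : ℕ} {X Y a b : List ℕ} (hX : n ∉ X) (hY : n ∉ Y)
    (h : a ++ n :: b <+ X ++ n :: Y) : a <+ X ∧ b <+ Y := by
  rw [List.sublist_append_iff] at h
  obtain ⟨l1, l2, h1, h2, h3⟩ := h
  have key : ∀ c, c ++ n :: b <+ n :: Y → c = [] ∧ b <+ Y := by
    intro c hc
    cases c with
    | nil => exact ⟨rfl, by simpa using hc⟩
    | cons x c =>
      exfalso
      apply hY
      rw [List.cons_append] at hc
      cases hc with
      | cons _ h => exact h.subset (by simp)
      | cons_cons _ h => exact h.subset (by simp)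
  rcases List.append_eq_append_iff.mp h1 with ⟨c, hc1, hc2⟩ | ⟨c, hc1, hc2⟩
  · cases c with
    | nil =>
      simp only [List.append_nil] at hc1
      simp only [List.nil_append] at hc2
      rw [← hc2] at h3
      rw [← hc1]
      exact ⟨h2, by simpa using h3⟩
    | cons x c =>
      exfalso
      simp only [List.cons_append, List.cons.injEq] at hc2
      apply hX
      apply h2.subset
      rw [hc1, hc2.1]; simp
  · rw [hc2] at h3
    obtain ⟨rfl, h4⟩ := key c h3
    rw [hc1]
    exact ⟨by simpa using h2, h4⟩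

lemma sublist_remove {c X Y : List ℕ} {n : ℕ} (h : c <+ X ++ n :: Y) (hn : n ∉ c) : c <+ X ++ Y := by
  have h1 := h.filter (fun x => decide (x ≠ n))
  have h2 : c.filter (fun x => decide (x ≠ n)) = c := by
    apply List.filter_eq_self.mpr
    intro x hx
    simp only [ne_eq, decide_eq_true_eq]
    rintro rfl; exact hn hx
  rw [h2] at h1
  refine h1.trans ?_
  rw [List.filter_append, List.filter_cons]
  simp only [ne_eq, not_true_eq_false, decide_false, Bool.false_eq_true, if_false]
  exact List.filter_sublist.append List.filter_sublist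

/-- insertion of the largest label -/
lemma class_insert {n : ℕ} {X Y : List ℕ} (hlt : ∀ x ∈ X ++ Y, x < n) :
    ClassL ty (X ++ n :: Y) ↔ ClassL ty (X ++ Y) ∧ ¬ Dead ty X Y := by
  have hX : n ∉ X := fun h => absurd (hlt n (List.mem_append_left _ h)) (lt_irrefl _)
  have hY : n ∉ Y := fun h => absurd (hlt n (List.mem_append_right _ h)) (lt_irrefl _)
  have hsub : X ++ Y <+ X ++ n :: Y := List.Sublist.append_left (List.sublist_cons_self _ _) _
  constructor
  · intro h
    refine ⟨fun i j k hij hjk => ⟨fun hc => (h i j k hij hjk).1 (hc.trans hsub), fun hs =>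
      ⟨fun hc => ((h i j k hij hjk).2 hs).1 (hc.trans hsub),
        fun hc => ((h i j k hij hjk).2 hs).2 (hc.trans hsub)⟩⟩, ?_⟩
    rintro ⟨i, j, hij, h1⟩
    rcases h1 with ⟨h1, h2⟩ | ⟨hs, ⟨h1, h2⟩ | ⟨h1, h2⟩⟩
    · have hj : j + 1 < n := hlt _ (List.mem_append_left _ (h1.subset (by simp)))
      exact (h i j n hij hj).1 (h1.append (h2.cons_cons n))
    · have hj : j + 1 < n := hlt _ (List.mem_append_right _ (h2.subset (by simp)))
      exact ((h i j n hij hj).2 hs).1 (h1.append (h2.cons_cons n))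
    · have hj : j + 1 < n := hlt _ (List.mem_append_left _ (h1.subset (by simp)))
      exact ((h i j n hij hj).2 hs).2 (h1.append (h2.cons_cons n))
  · rintro ⟨h1, h2⟩ i j k hij hjk
    have hle : ∀ x ∈ X ++ n :: Y, x ≤ n := by
      intro x hx
      rcases List.mem_append.mp hx with hx | hx
      · exact (hlt x (List.mem_append_left _ hx)).le
      · rcases List.mem_cons.mp hx with rfl | hx
        · exact le_rfl
        · exact (hlt x (List.mem_append_right _ hx)).le
    refine ⟨fun hc => ?_, fun hs => ⟨fun hc => ?_, fun hc => ?_⟩⟩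
    · have hk : k ≤ n := hle _ (hc.subset (by simp))
      rcases hk.lt_or_eq with hk | rfl
      · exact (h1 i j k hij hjk).1 (sublist_remove hc (by
          simp only [List.mem_cons, List.not_mem_nil, or_false, not_or]; omega))
      · have := sublist_split_at (a := [j + 1, i]) (b := [j]) hX hY hc
        exact h2 ⟨i, j, hij, Or.inl this⟩
    · have hk : k ≤ n := hle _ (hc.subset (by simp))
      rcases hk.lt_or_eq with hk | rfl
      · exact ((h1 i j k hij hjk).2 hs).1 (sublist_remove hc (by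
          simp only [List.mem_cons, List.not_mem_nil, or_false, not_or]; omega))
      · have := sublist_split_at (a := [j]) (b := [i, j + 1]) hX hY hc
        exact h2 ⟨i, j, hij, Or.inr ⟨hs, Or.inl this⟩⟩
    · have hk : k ≤ n := hle _ (hc.subset (by simp))
      rcases hk.lt_or_eq with hk | rfl
      · exact ((h1 i j k hij hjk).2 hs).2 (sublist_remove hc (by
          simp only [List.mem_cons, List.not_mem_nil, or_false, not_or]; omega))
      · have := sublist_split_at (a := [j + 1]) (b := [i, j]) hX hY hc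
        exact h2 ⟨i, j, hij, Or.inr ⟨hs, Or.inr this⟩⟩

variable (ty) in
/-- new obstructions caused by the insertion of `n` -/
def NewDead (n : ℕ) (X Y : List ℕ) : Prop :=
  ∃ i j, i < j ∧ j + 1 = n ∧ (([n, i] <+ X ∧ [j] <+ Y) ∨
    (ty = strong ∧ (([j] <+ X ∧ [i, n] <+ Y) ∨ ([n] <+ X ∧ [i, j] <+ Y))))

/-- removal of a label -/
def rmv (n : ℕ) (X : List ℕ) : List ℕ := X.filter (fun x => decide (x ≠ n))

lemma rmv_append (n : ℕ) (X Y : List ℕ) : rmv n (X ++ Y) = rmv n X ++ rmv n Y := by
  simp [rmv]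

lemma rmv_self {n : ℕ} {X : List ℕ} (h : ∀ x ∈ X, x < n) : rmv n X = X := by
  apply List.filter_eq_self.mpr
  intro x hx
  have := h x hx
  simp only [ne_eq, decide_eq_true_eq]
  omega

lemma rmv_cons_self (n : ℕ) (X : List ℕ) : rmv n (n :: X) = rmv n X := by
  simp [rmv]

lemma sub_rmv {n : ℕ} {c X : List ℕ} (h : c <+ X) (hn : n ∉ c) : c <+ rmv n X := by
  have h1 := h.filter (fun x => decide (x ≠ n))
  have h2 : c.filter (fun x => decide (x ≠ n)) = c := by
    apply List.filter_eq_self.mpr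
    intro x hx
    simp only [ne_eq, decide_eq_true_eq]
    rintro rfl; exact hn hx
  rwa [h2] at h1

lemma dead_new {n : ℕ} {X Y : List ℕ} (hX : ∀ x ∈ X, x ≤ n) (hY : ∀ x ∈ Y, x ≤ n)
    (h : Dead ty X Y) : Dead ty (rmv n X) (rmv n Y) ∨ NewDead ty n X Y := by
  obtain ⟨i, j, hij, h⟩ := h
  by_cases hj : j + 1 = n
  · right
    refine ⟨i, j, hij, hj, ?_⟩
    rw [← hj]; exact h
  · left
    have hjn : j + 1 < n := by
      have : j + 1 ≤ n := by
        rcases h with ⟨h1, h2⟩ | ⟨hs, ⟨h1, h2⟩ | ⟨h1, h2⟩⟩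
        · exact hX _ (h1.subset (by simp))
        · exact hY _ (h2.subset (by simp))
        · exact hX _ (h1.subset (by simp))
      omega
    refine ⟨i, j, hij, ?_⟩
    have hne : ∀ c : List ℕ, (∀ x ∈ c, x < n) → n ∉ c := fun c hc h => absurd (hc n h) (lt_irrefl _)
    rcases h with ⟨h1, h2⟩ | ⟨hs, ⟨h1, h2⟩ | ⟨h1, h2⟩⟩
    · refine Or.inl ⟨sub_rmv h1 (hne _ ?_), sub_rmv h2 (hne _ ?_)⟩
      · intro x hx; simp only [List.mem_cons, List.not_mem_nil, or_false] at hx; omega
      · intro x hx; simp only [List.mem_cons, List.not_mem_nil, or_false] at hx; omega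
    · refine Or.inr ⟨hs, Or.inl ⟨sub_rmv h1 (hne _ ?_), sub_rmv h2 (hne _ ?_)⟩⟩
      · intro x hx; simp only [List.mem_cons, List.not_mem_nil, or_false] at hx; omega
      · intro x hx; simp only [List.mem_cons, List.not_mem_nil, or_false] at hx; omega
    · refine Or.inr ⟨hs, Or.inr ⟨sub_rmv h1 (hne _ ?_), sub_rmv h2 (hne _ ?_)⟩⟩
      · intro x hx; simp only [List.mem_cons, List.not_mem_nil, or_false] at hx; omega
      · intro x hx; simp only [List.mem_cons, List.not_mem_nil, or_false] at hx; omega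

variable (ty) in
/-- boundaries between blocks are alive -/
def AliveB (B : List (List ℕ)) : Prop := ∀ B1 B2, B = B1 ++ B2 → ¬ Dead ty B1.flatten B2.flatten

variable (ty) in
/-- cuts inside blocks are dead -/
def DeadB (B : List (List ℕ)) : Prop := ∀ B1 p q B2, B = B1 ++ (p ++ q) :: B2 → p ≠ [] → q ≠ [] →
  Dead ty (B1.flatten ++ p) (q ++ B2.flatten)

/-- positions of a split of `P ++ (N ++ Q)` -/
lemma split3 {P N Q B1 B2 : List (List ℕ)} (h : P ++ (N ++ Q) = B1 ++ B2) :
    (∃ P2, P = B1 ++ P2 ∧ B2 = P2 ++ (N ++ Q)) ∨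
    (∃ N1 N2, N = N1 ++ N2 ∧ N1 ≠ [] ∧ N2 ≠ [] ∧ B1 = P ++ N1 ∧ B2 = N2 ++ Q) ∨
    (∃ Q1, Q = Q1 ++ B2 ∧ B1 = P ++ (N ++ Q1)) := by
  rcases List.append_eq_append_iff.mp h with ⟨c, h1, h2⟩ | ⟨c, h1, h2⟩
  · rcases List.append_eq_append_iff.mp h2 with ⟨d, h3, h4⟩ | ⟨d, h3, h4⟩
    · right; right
      exact ⟨d, h4, by rw [h1, h3]⟩
    · by_cases hc : c = []
      · left
        subst hc
        refine ⟨[], by simpa using h1.symm, ?_⟩
        simp only [List.nil_append] at h3 h4 ⊢
        rw [h4, h3]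
      · by_cases hd : d = []
        · right; right
          subst hd
          refine ⟨[], ?_, ?_⟩
          · simpa using h4.symm
          · rw [h1, h3]; simp
        · right; left
          exact ⟨c, d, h3, hc, hd, h1, h4⟩
  · left
    exact ⟨c, h1, h2⟩

lemma aliveB_ext {P N N0 Q : List (List ℕ)} {n : ℕ}
    (hlt : ∀ x ∈ (P ++ (N0 ++ Q)).flatten, x < n)
    (hN : rmv n N.flatten = N0.flatten) (hle : ∀ x ∈ N.flatten, x ≤ n)
    (hmid : ∀ N1 N2, N = N1 ++ N2 → N1 ≠ [] → N2 ≠ [] → ∃ M1 M2, N0 = M1 ++ M2 ∧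
      rmv n N1.flatten = M1.flatten ∧ rmv n N2.flatten = M2.flatten)
    (hnew : ∀ B1 B2, P ++ (N ++ Q) = B1 ++ B2 → ¬ NewDead ty n B1.flatten B2.flatten)
    (h : AliveB ty (P ++ (N0 ++ Q))) : AliveB ty (P ++ (N ++ Q)) := by
  intro B1 B2 hB hd
  have hP : ∀ x ∈ P.flatten, x < n := fun x hx => hlt x (by
    rw [List.flatten_append]; exact List.mem_append_left _ hx)
  have hQ : ∀ x ∈ Q.flatten, x < n := fun x hx => hlt x (by
    rw [List.flatten_append, List.flatten_append]
    exact List.mem_append_right _ (List.mem_append_right _ hx))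
  have hall : ∀ x ∈ (P ++ (N ++ Q)).flatten, x ≤ n := by
    intro x hx
    rw [List.flatten_append, List.flatten_append] at hx
    rcases List.mem_append.mp hx with hx | hx
    · exact (hP x hx).le
    · rcases List.mem_append.mp hx with hx | hx
      · exact hle x hx
      · exact (hQ x hx).le
  have h1 : ∀ x ∈ B1.flatten, x ≤ n := fun x hx => hall x (by
    rw [hB, List.flatten_append]; exact List.mem_append_left _ hx)
  have h2 : ∀ x ∈ B2.flatten, x ≤ n := fun x hx => hall x (by
    rw [hB, List.flatten_append]; exact List.mem_append_right _ hx)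
  rcases dead_new h1 h2 hd with hd | hd
  · rcases split3 hB with ⟨P2, e1, e2⟩ | ⟨N1, N2, e1, e2, e3, e4, e5⟩ | ⟨Q1, e1, e2⟩
    · apply h B1 (P2 ++ (N0 ++ Q)) (by rw [e1]; simp)
      have g1 : rmv n B1.flatten = B1.flatten := rmv_self fun x hx => hP x (by
        rw [e1, List.flatten_append]; exact List.mem_append_left _ hx)
      have g2 : rmv n P2.flatten = P2.flatten := rmv_self fun x hx => hP x (by
        rw [e1, List.flatten_append]; exact List.mem_append_right _ hx)
      have g3 : rmv n Q.flatten = Q.flatten := rmv_self hQ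
      rw [e2] at hd
      simp only [List.flatten_append, rmv_append] at hd ⊢
      rwa [g1, g2, g3, hN] at hd
    · obtain ⟨M1, M2, m1, m2, m3⟩ := hmid N1 N2 e1 e2 e3
      apply h (P ++ M1) (M2 ++ Q) (by rw [m1]; simp)
      have g1 : rmv n P.flatten = P.flatten := rmv_self hP
      have g3 : rmv n Q.flatten = Q.flatten := rmv_self hQ
      rw [e4, e5] at hd
      simp only [List.flatten_append, rmv_append] at hd ⊢
      rwa [g1, g3, m2, m3] at hd
    · apply h (P ++ (N0 ++ Q1)) B2 (by rw [e1]; simp)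
      have g1 : rmv n P.flatten = P.flatten := rmv_self hP
      have g2 : rmv n Q1.flatten = Q1.flatten := rmv_self fun x hx => hQ x (by
        rw [e1, List.flatten_append]; exact List.mem_append_left _ hx)
      have g3 : rmv n B2.flatten = B2.flatten := rmv_self fun x hx => hQ x (by
        rw [e1, List.flatten_append]; exact List.mem_append_right _ hx)
      rw [e2] at hd
      simp only [List.flatten_append, rmv_append] at hd ⊢
      rwa [g1, g2, g3, hN] at hd
  · exact hnew B1 B2 hB hd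

lemma deadB_ext {P N N0 Q : List (List ℕ)} (hN : N0.flatten <+ N.flatten)
    (hmid : ∀ N1 p q N2, N = N1 ++ (p ++ q) :: N2 → p ≠ [] → q ≠ [] →
      Dead ty (P.flatten ++ (N1.flatten ++ p)) (q ++ (N2.flatten ++ Q.flatten)))
    (h : DeadB ty (P ++ (N0 ++ Q))) : DeadB ty (P ++ (N ++ Q)) := by
  intro B1 p q B2 hB hp hq
  have key : ∀ (A B C D : List (List ℕ)) (c : List ℕ), A ++ B = C ++ c :: D →
      (∃ E, A = C ++ c :: E ∧ D = E ++ B) ∨ (∃ E, B = E ++ c :: D ∧ C = A ++ E) := by
    intro A B C D c h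
    rcases List.append_eq_append_iff.mp h with ⟨e, h1, h2⟩ | ⟨e, h1, h2⟩
    · right; exact ⟨e, h2, h1⟩
    · cases e with
      | nil =>
        right
        refine ⟨[], by simpa using h2.symm, by simpa using h1.symm⟩
      | cons x e =>
        simp only [List.cons_append, List.cons.injEq] at h2
        obtain ⟨rfl, h2⟩ := h2
        left; exact ⟨e, h1, h2⟩
  rcases key _ _ _ _ _ hB with ⟨E, h1, h2⟩ | ⟨E, h1, h2⟩
  · have h3 := h B1 p q (E ++ (N0 ++ Q)) (by rw [h1]; simp) hp hq
    apply dead_mono (List.Sublist.refl _) _ h3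
    rw [h2]
    simp only [List.flatten_append]
    exact List.Sublist.append_left (List.Sublist.append_left (List.Sublist.append_right hN _) _) _
  · rcases key _ _ _ _ _ h1 with ⟨E', h3, h4⟩ | ⟨E', h3, h4⟩
    · have h5 := hmid E p q E' h3 hp hq
      rw [h2, h4]
      simpa using h5
    · have h5 := h (P ++ (N0 ++ E')) p q B2 (by rw [h3]; simp) hp hq
      apply dead_mono _ (List.Sublist.refl _) h5
      rw [h2, h4]
      simp only [List.flatten_append]
      exact List.Sublist.append_right (List.Sublist.append_left (List.Sublist.append_right hN _) _) _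

end Pool.Agent.TwoLIS
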