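import Pool.Agent.TwoLIS.Stk

/-!
Distinct valid runs give distinct arrangements; lengths of words.
-/

namespace Pool.Agent.TwoLIS

open Md Ty
open scoped List
open Pool.Agent.BaxterLIS (sublist_chain not_both_orders Chain)

variable {ty : Ty}

lemma ordR {s s' : St} {w : List Bool} (hr : Run ty s w s') (hm : s.mode = R) (hm' : s'.mode = I)
    {e : ℕ} (he : e ∈ pre s) : [e, s.n] <+ arr s' := by
  induction hr with
  | nil s => rw [hm] at hm'; exact absurd hm' (by simp)
  | @cons s b w s' hk hr ih =>
    cases b with
    | false => exact (stop_order (by rw [hm]; simp) he).trans (run_arr_sublist hr)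
    | true =>
      have h1 : (stp ty s true).mode = R := by rw [stp_mode, hm]; rfl
      have h2 : (stp ty s true).n = s.n := by rw [stp_n, if_neg (by simp)]
      have h3 : e ∈ pre (stp ty s true) := by
        obtain ⟨m, l, c, r, n⟩ := s
        simp only at hm
        subst hm
        simp only [pre, List.mem_append] at he
        cases ty
        · simp only [stp, pre, List.reverse_cons, List.flatten_append, List.flatten_cons,
            List.flatten_nil, List.append_nil, List.mem_append]
          tauto
        · simp only [stp, pre, List.mem_append]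
          tauto
      have h4 := ih h1 hm' h3
      rwa [h2] at h4

lemma ordL {s s' : St} {w : List Bool} (hr : Run ty s w s') (hm : s.mode = L ∨ s.mode = M)
    (hm' : s'.mode = I) {e : ℕ} (he : e ∈ post s) : [s.n, e] <+ arr s' := by
  induction hr with
  | nil s => rw [hm'] at hm; simp at hm
  | @cons s b w s' hk hr ih =>
    cases b with
    | false =>
      exact (stop_order' (by rcases hm with h | h <;> rw [h] <;> simp) he).trans (run_arr_sublist hr)
    | true =>
      have h1 : (stp ty s true).mode = M := by
        rw [stp_mode]; rcases hm with h | h <;> rw [h] <;> rfl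
      have h2 : (stp ty s true).n = s.n := by rw [stp_n, if_neg (by simp)]
      have h3 : e ∈ post (stp ty s true) := by
        obtain ⟨m, l, c, r, n⟩ := s
        rcases hm with hm | hm
        · simp only at hm
          subst hm
          simp only [post, List.mem_append] at he
          cases ty <;>
          · simp only [stp, post, List.mem_append]
            tauto
        · simp only at hm
          subst hm
          simp only [post, List.mem_append] at he
          cases ty <;>
          · simp only [stp, post, List.mem_append]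
            tauto
      have h4 := ih (Or.inr h1) hm' h3
      rwa [h2] at h4

lemma run_n_le {s s' : St} {w : List Bool} (hr : Run ty s w s') : s.n ≤ s'.n := by
  induction hr with
  | nil => exact le_rfl
  | cons hk hr ih =>
    refine le_trans ?_ ih
    rw [stp_n]; split_ifs <;> omega

lemma run_n_lt {s s' : St} {w : List Bool} (hr : Run ty s w s') (hm : s.mode ≠ I)
    (hm' : s'.mode = I) : s.n < s'.n := by
  induction hr with
  | nil => exact absurd hm' hm
  | @cons s b w s' hk hr ih =>
    cases b with
    | false =>
      have h1 := run_n_le hr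
      rw [stp_n, if_pos ⟨hm, rfl⟩] at h1
      omega
    | true =>
      have h1 : (stp ty s true).mode ≠ I := by
        rw [stp_mode]; cases h : s.mode <;> simp_all [nM]
      have h2 := ih h1 hm'
      rw [stp_n, if_neg (by simp)] at h2
      exact h2

lemma run_n_lt' {s s' : St} {b : Bool} {w : List Bool} (hr : Run ty s (b :: w) s')
    (hm : s.mode = I) (hm' : s'.mode = I) : s.n < s'.n := by
  cases hr with
  | cons hk hr =>
    have h1 : (stp ty s b).mode ≠ I := by
      rw [stp_mode, hm]; cases b <;> simp [nM]
    have h2 := run_n_lt hr h1 hm'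
    rw [stp_n, if_neg (by simp [hm])] at h2
    exact h2

/-- opposite first flips give different arrangements -/
lemma branch {s s1 s2 : St} {u v : List Bool} (hw : WF s) (h1 : Run ty s (true :: u) s1)
    (h2 : Run ty s (false :: v) s2) (m1 : s1.mode = I) (m2 : s2.mode = I) (he : arr s1 = arr s2) :
    False := by
  have hnd : (arr s1).Nodup := (wf_run h1 hw).nodup
  cases h1 with
  | cons k1 r1 =>
  cases h2 with
  | cons k2 r2 =>
  have hlne := hw.left_ne
  have hcne := hw.cur_ne
  have hrne := hw.right_ne
  obtain ⟨m, l, c, r, n⟩ := s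
  simp only at hlne hcne hrne
  have n1 : (stp ty ⟨m, l, c, r, n⟩ true).n = n := by rw [stp_n, if_neg (by simp)]
  have md1 : (stp ty ⟨m, l, c, r, n⟩ true).mode = nM m true := stp_mode _ _
  cases m
  · -- idle
    obtain ⟨x, c', rfl⟩ := List.exists_cons_of_ne_nil hcne
    have e1 : [x, (stp ty ⟨I, l, x :: c', r, n⟩ true).n] <+ arr s1 :=
      ordR r1 md1 m1 (e := x) (by cases ty <;> simp [stp, pre])
    rw [n1] at e1
    have e2 : [(stp ty ⟨I, l, x :: c', r, n⟩ false).n, x] <+ arr s2 :=
      ordL r2 (Or.inl (stp_mode _ _)) m2 (e := x) (by cases ty <;> simp [stp, post])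
    have n2 : (stp ty ⟨I, l, x :: c', r, n⟩ false).n = n := by rw [stp_n, if_neg (by simp)]
    rw [← he, n2] at e2
    exact not_both_orders hnd e1 e2
  · obtain ⟨b, r', rfl⟩ := List.exists_cons_of_ne_nil (show r ≠ [] from k1)
    obtain ⟨x, b', rfl⟩ := List.exists_cons_of_ne_nil (hrne b (by simp))
    have e1 : [x, (stp ty ⟨R, l, c, (x :: b') :: r', n⟩ true).n] <+ arr s1 :=
      ordR r1 md1 m1 (e := x) (by cases ty <;> simp [stp, pre])
    rw [n1] at e1
    have e2 : [n, x] <+ arr s2 :=
      (stop_order' (ty := ty) (s := ⟨R, l, c, (x :: b') :: r', n⟩) (by simp) (e := x)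
        (by simp [post])).trans (run_arr_sublist r2)
    rw [← he] at e2
    exact not_both_orders hnd e1 e2
  · obtain ⟨b, l', rfl⟩ := List.exists_cons_of_ne_nil (show l ≠ [] from k1)
    obtain ⟨x, b', rfl⟩ := List.exists_cons_of_ne_nil (hlne b (by simp))
    have e1 : [(stp ty ⟨L, (x :: b') :: l', c, r, n⟩ true).n, x] <+ arr s1 :=
      ordL r1 (Or.inr md1) m1 (e := x) (by cases ty <;> simp [stp, post])
    rw [n1] at e1
    have e2 : [x, n] <+ arr s2 :=
      (stop_order (ty := ty) (s := ⟨L, (x :: b') :: l', c, r, n⟩) (by simp) (e := x)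
        (by simp [pre])).trans (run_arr_sublist r2)
    rw [← he] at e2
    exact not_both_orders hnd e2 e1
  · obtain ⟨b, l', rfl⟩ := List.exists_cons_of_ne_nil (show l ≠ [] from k1)
    obtain ⟨x, b', rfl⟩ := List.exists_cons_of_ne_nil (hlne b (by simp))
    have e1 : [(stp ty ⟨M, (x :: b') :: l', c, r, n⟩ true).n, x] <+ arr s1 :=
      ordL r1 (Or.inr md1) m1 (e := x) (by cases ty <;> simp [stp, post])
    rw [n1] at e1
    have e2 : [x, n] <+ arr s2 :=
      (stop_order (ty := ty) (s := ⟨M, (x :: b') :: l', c, r, n⟩) (by simp) (e := x)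
        (by simp [pre])).trans (run_arr_sublist r2)
    rw [← he] at e2
    exact not_both_orders hnd e2 e1

/-- **Injectivity** -/
theorem run_inj {s s1 s2 : St} {w1 w2 : List Bool} (hw : WF s) (h1 : Run ty s w1 s1)
    (h2 : Run ty s w2 s2) (m1 : s1.mode = I) (m2 : s2.mode = I) (hn : s1.n = s2.n)
    (he : arr s1 = arr s2) : w1 = w2 := by
  induction h1 generalizing w2 with
  | nil s =>
    cases w2 with
    | nil => rfl
    | cons b w2 =>
      have := run_n_lt' h2 m1 m2
      omega
  | @cons s b w s1 hk hr ih =>
    cases w2 with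
    | nil =>
      have hs : s = s2 := by cases h2; rfl
      subst hs
      have := run_n_lt' (Run.cons hk hr) m2 m1
      omega
    | cons b2 w2 =>
      cases b with
      | true =>
        cases b2 with
        | true =>
          cases h2 with
          | cons hk2 hr2 => rw [ih (wf_stp hk hw) hr2 m1 hn he]
        | false => exact (branch hw (Run.cons hk hr) h2 m1 m2 he).elim
      | false =>
        cases b2 with
        | true => exact (branch hw h2 (Run.cons hk hr) m2 m1 he.symm).elim
        | false =>
          cases h2 with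
          | cons hk2 hr2 => rw [ih (wf_stp hk hw) hr2 m1 hn he]

/-! ### lengths -/

def mI : Md → ℕ
  | I => 0
  | _ => 1

lemma tail_len {l : List (List ℕ)} (h : l ≠ []) : l.tail.length + 1 = l.length := by
  cases l with
  | nil => exact absurd rfl h
  | cons a l => simp

lemma run_len_le {s s' : St} {w : List Bool} (h : Run ty s w s') :
    w.length + (2 * s'.right.length + s'.left.length) + 4 * s.n + mI s.mode ≤
      4 * s'.n + mI s'.mode + (2 * s.right.length + s.left.length) := by
  induction h with
  | nil => simp; omega
  | @cons s b w s' h hr ih =>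
    obtain ⟨m, l, c, r, n⟩ := s
    cases ty <;> cases m <;> cases b <;> simp only [stp, mI, List.length_cons] at ih ⊢ <;>
      first
        | omega
        | (have := tail_len (show r ≠ [] from h); omega)
        | (have := tail_len (show l ≠ [] from h); omega)

lemma run_len_ge {s s' : St} {w : List Bool} (h : Run ty s w s') :
    2 * s'.n + mI s'.mode ≤ w.length + 2 * s.n + mI s.mode := by
  induction h with
  | nil => simp
  | @cons s b w s' h hr ih =>
    obtain ⟨m, l, c, r, n⟩ := s
    cases ty <;> cases m <;> cases b <;> simp only [stp, mI, List.length_cons] at ih ⊢ <;> omega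

lemma word_len {s' : St} {w : List Bool} (h : Run ty init w s') (hm : s'.mode = I) :
    w.length ≤ 4 * (s'.n - 1) ∧ 2 * (s'.n - 1) ≤ w.length := by
  have h1 := run_len_le h
  have h2 := run_len_ge h
  rw [hm] at h1 h2
  simp only [init, mI, List.length_nil] at h1 h2
  omega

lemma prefix_unique {s0 s1 s2 : St} {w1 u : List Bool} (h1 : Run ty s0 w1 s1) (hm1 : s1.mode = I)
    (h2 : Run ty s0 (w1 ++ u) s2) (hm2 : s2.mode = I) (hn : s1.n = s2.n) : u = [] := by
  obtain ⟨s', r1, r2⟩ := run_split h2
  have h3 : s' = s1 := run_det r1 h1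
  subst h3
  cases u with
  | nil => rfl
  | cons b u =>
    exfalso
    have := run_n_lt' r2 hm1 hm2
    omega

lemma word_prefix_free {s0 s1 s2 : St} {w1 w2 x y : List Bool} (h1 : Run ty s0 w1 s1)
    (hm1 : s1.mode = I) (h2 : Run ty s0 w2 s2) (hm2 : s2.mode = I) (hn : s1.n = s2.n)
    (h : w1 ++ x = w2 ++ y) : w1 = w2 := by
  rcases List.append_eq_append_iff.mp h with ⟨u, hu, _⟩ | ⟨u, hu, _⟩
  · subst hu
    rw [prefix_unique h1 hm1 h2 hm2 hn]; simp
  · subst hu
    rw [prefix_unique h2 hm2 h1 hm1 hn.symm]; simp

/-- without long increasing chains all windows are bad -/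
lemma badWins_of_run {P : Prm} {s' : St} {w : List Bool} {h m q : ℕ} {r : ℝ}
    (hr : Run P.ty init w s') (hq : q * m ≤ w.length)
    (hno : ¬ ∃ c : List ℕ, c <+ arr s' ∧ c.Pairwise (· < ·) ∧ r ≤ c.length) (x : List Bool) :
    badWins P h r m q (w ++ x) := by
  apply badWins_of
  intro i hi hg
  apply hno
  have him : i * m + m ≤ w.length := by
    have : (i + 1) * m ≤ q * m := Nat.mul_le_mul_right _ hi
    calc i * m + m = (i + 1) * m := by ring
      _ ≤ _ := this.trans hq
  have e1 : ((w ++ x).drop (i * m)).take m = (w.drop (i * m)).take m := by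
    rw [List.drop_append_of_le_length (by omega), List.take_append_of_le_length]
    rw [List.length_drop]; omega
  rw [e1] at hg
  obtain ⟨y, hy, hgb⟩ := hg
  have e2 : w = w.take (i * m) ++ ([false, true, false, true] ++ y) ++ (w.drop (i * m)).drop m := by
    have e3 : w.drop (i * m) = ([false, true, false, true] ++ y) ++ (w.drop (i * m)).drop m := by
      have e4 := (List.take_append_drop m (w.drop (i * m))).symm
      rw [hy] at e4
      exact e4
    have e5 := (List.take_append_drop (i * m) w).symm
    rw [e3] at e5
    rw [List.append_assoc]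
    exact e5
  rw [e2] at hr
  exact good_window hr wf_init hgb

end Pool.Agent.TwoLIS
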