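import Pool.Agent.TwoLIS.StkCls

/-!
Macro-steps: one insertion of an element.
-/

namespace Pool.Agent.TwoLIS

open Md Ty
open scoped List
open Pool.Agent.BaxterLIS (not_both_orders)

variable {ty : Ty}

/-- blocks from left to right -/
def bks (s : St) : List (List ℕ) := s.left.reverse ++ s.cur :: s.right

lemma bks_flatten (s : St) : (bks s).flatten = arr s := by
  simp [bks, arr]

/-- insertion of the next element after `c` pops; `d = true`: to the right -/
def mac : Ty → St → Bool → ℕ → St
  | semi, s, true, b => ⟨I, (s.right.take b).reverse ++ s.cur :: s.left, [s.n], s.right.drop b, s.n + 1⟩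
  | strong, s, true, b =>
      ⟨I, (s.cur ++ (s.right.take b).flatten) :: s.left, [s.n], s.right.drop b, s.n + 1⟩
  | semi, s, false, a =>
      ⟨I, s.left.drop a, [s.n], ((s.left.take a).reverse.flatten ++ s.cur) :: s.right, s.n + 1⟩
  | strong, s, false, 0 => ⟨I, s.left, [s.n], s.cur :: s.right, s.n + 1⟩
  | strong, s, false, a + 1 =>
      ⟨I, s.left.drop (a + 1), s.n :: ((s.left.take (a + 1)).reverse.flatten ++ s.cur), s.right,
        s.n + 1⟩

/-- possible numbers of pops -/
def vld (s : St) (d : Bool) (c : ℕ) : Prop := if d then c ≤ s.right.length else c ≤ s.left.length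

/-- the word of a macro-step -/
def enc (d : Bool) (c : ℕ) : List Bool := d :: (List.replicate c true ++ [false])

lemma run_R (l : List (List ℕ)) (c : List ℕ) (r : List (List ℕ)) (n b : ℕ) (hb : b ≤ r.length) :
    Run ty ⟨R, l, c, r, n⟩ (List.replicate b true ++ [false]) (mac ty ⟨I, l, c, r, n⟩ true b) := by
  induction b generalizing l c r with
  | zero =>
    simp only [List.replicate_zero, List.nil_append]
    refine Run.cons trivial ?_
    cases ty
    · exact Run.nil _
    · have : stp strong ⟨R, l, c, r, n⟩ false = mac strong ⟨I, l, c, r, n⟩ true 0 := by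
        simp [stp, mac]
      rw [this]
      exact Run.nil _
  | succ b ih =>
    cases r with
    | nil => simp at hb
    | cons x r =>
      simp only [List.replicate_succ, List.cons_append]
      refine Run.cons (show x :: r ≠ [] by simp) ?_
      cases ty
      · have h1 := ih (c :: l) x r (by simpa using hb)
        have : mac semi ⟨I, c :: l, x, r, n⟩ true b = mac semi ⟨I, l, c, x :: r, n⟩ true (b + 1) := by
          simp [mac]
        rw [this] at h1
        exact h1
      · have h1 := ih l (c ++ x) r (by simpa using hb)
        have : mac strong ⟨I, l, c ++ x, r, n⟩ true b = mac strong ⟨I, l, c, x :: r, n⟩ true (b + 1) := by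
          simp [mac]
        rw [this] at h1
        exact h1

lemma run_M (l : List (List ℕ)) (c : List ℕ) (r : List (List ℕ)) (n a : ℕ) (ha : a ≤ l.length) :
    Run ty ⟨M, l, c, r, n⟩ (List.replicate a true ++ [false])
      (match ty with
        | semi => ⟨I, l.drop a, [n], ((l.take a).reverse.flatten ++ c) :: r, n + 1⟩
        | strong => ⟨I, l.drop a, n :: ((l.take a).reverse.flatten ++ c), r, n + 1⟩) := by
  induction a generalizing l c with
  | zero =>
    simp only [List.replicate_zero, List.nil_append]
    refine Run.cons trivial ?_
    cases ty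
    · simp only [List.drop_zero, List.take_zero, List.reverse_nil, List.flatten_nil, List.nil_append]
      exact Run.nil _
    · simp only [List.drop_zero, List.take_zero, List.reverse_nil, List.flatten_nil, List.nil_append]
      exact Run.nil _
  | succ a ih =>
    cases l with
    | nil => simp at ha
    | cons x l =>
      simp only [List.replicate_succ, List.cons_append]
      refine Run.cons (show x :: l ≠ [] by simp) ?_
      have h1 := ih l (x ++ c) (by simpa using ha)
      have e : stp ty ⟨M, x :: l, c, r, n⟩ true = ⟨M, l, x ++ c, r, n⟩ := by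
        cases ty <;> rfl
      rw [e]
      cases ty
      · simp only [List.take_succ_cons, List.reverse_cons, List.flatten_append, List.flatten_cons,
          List.flatten_nil, List.append_nil, List.drop_succ_cons, List.append_assoc] at h1 ⊢
        exact h1
      · simp only [List.take_succ_cons, List.reverse_cons, List.flatten_append, List.flatten_cons,
          List.flatten_nil, List.append_nil, List.drop_succ_cons, List.append_assoc] at h1 ⊢
        exact h1

lemma run_mac {s : St} (hm : s.mode = I) {d : Bool} {c : ℕ} (hv : vld s d c) :
    Run ty s (enc d c) (mac ty s d c) := by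
  obtain ⟨m, l, c0, r, n⟩ := s
  simp only at hm
  subst hm
  unfold enc
  cases d
  · have hv' : c ≤ l.length := by simpa [vld] using hv
    have e0 : stp ty ⟨I, l, c0, r, n⟩ false = ⟨L, l, c0, r, n⟩ := by cases ty <;> rfl
    refine Run.cons trivial ?_
    rw [e0]
    cases c with
    | zero =>
      simp only [List.replicate_zero, List.nil_append]
      refine Run.cons trivial ?_
      cases ty
      · have : stp semi ⟨L, l, c0, r, n⟩ false = mac semi ⟨I, l, c0, r, n⟩ false 0 := by
          simp [stp, mac]
        rw [this]
        exact Run.nil _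
      · exact Run.nil _
    | succ a =>
      cases l with
      | nil => simp at hv'
      | cons x l =>
        simp only [List.replicate_succ, List.cons_append]
        refine Run.cons (show x :: l ≠ [] by simp) ?_
        have h1 := run_M (ty := ty) l (x ++ c0) r n a (by simpa using hv')
        have e : stp ty ⟨L, x :: l, c0, r, n⟩ true = ⟨M, l, x ++ c0, r, n⟩ := by
          cases ty <;> rfl
        rw [e]
        cases ty
        · simp only [mac, List.take_succ_cons, List.reverse_cons, List.flatten_append, List.flatten_cons,
            List.flatten_nil, List.append_nil, List.drop_succ_cons, List.append_assoc] at h1 ⊢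
          exact h1
        · simp only [mac, List.take_succ_cons, List.reverse_cons, List.flatten_append, List.flatten_cons,
            List.flatten_nil, List.append_nil, List.drop_succ_cons, List.append_assoc] at h1 ⊢
          exact h1
  · have hv' : c ≤ r.length := by simpa [vld] using hv
    have e0 : stp ty ⟨I, l, c0, r, n⟩ true = ⟨R, l, c0, r, n⟩ := by cases ty <;> rfl
    refine Run.cons trivial ?_
    rw [e0]
    exact run_R l c0 r n c hv'

variable (ty) in
/-- invariant of the idle states -/
structure Good (s : St) : Prop where
  wf : WF s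
  mode : s.mode = I
  curn : ∃ t, s.cur = (s.n - 1) :: t ∧ (ty = semi → t = [])
  alive : AliveB ty (bks s)
  dead : DeadB ty (bks s)

lemma good_init : Good ty init := by
  refine ⟨wf_init, rfl, ⟨[], rfl, fun _ => rfl⟩, ?_, ?_⟩
  · intro B1 B2 h
    have h1 : (B1.flatten ++ B2.flatten) = [0] := by
      rw [← List.flatten_append, ← h]; simp [bks, init]
    rintro ⟨i, j, hij, hd⟩
    have hX : ∀ x ∈ B1.flatten ++ B2.flatten, x = 0 := by
      rw [h1]; simp
    rcases hd with ⟨h2, h3⟩ | ⟨hs, ⟨h2, h3⟩ | ⟨h2, h3⟩⟩
    · have := hX (j + 1) (List.mem_append_left _ (h2.subset (by simp))); omega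
    · have := hX (j + 1) (List.mem_append_right _ (h3.subset (by simp))); omega
    · have := hX (j + 1) (List.mem_append_left _ (h2.subset (by simp))); omega
  · intro B1 p q B2 h hp hq
    exfalso
    have h1 : ((p ++ q) :: B2).length + B1.length = 1 := by
      have := congrArg List.length h
      simp [bks, init] at this
      simp; omega
    have h2 : B1 = [] := by
      cases B1 with
      | nil => rfl
      | cons a B1 => simp at h1; omega
    subst h2
    simp only [bks, init, List.reverse_nil, List.nil_append, List.cons.injEq] at h
    have h3 := congrArg List.length h.1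
    have h4 := List.length_pos_iff.mpr hp
    have h5 := List.length_pos_iff.mpr hq
    simp only [List.length_cons, List.length_nil, List.length_append] at h3
    omega

lemma sub2_last {P : List ℕ} {n i : ℕ} (hP : n ∉ P) (h : [n, i] <+ P ++ [n]) : False := by
  have := (sublist_split_at (a := []) (b := [i]) (X := P) (Y := []) hP (by simp) h).2
  simp at this

lemma sub2_first {Q : List ℕ} {n i : ℕ} (hQ : n ∉ Q) (h : [i, n] <+ n :: Q) : False := by
  have := (sublist_split_at (a := [i]) (b := []) (X := []) (Y := Q) (by simp) hQ h).1
  simp at this

lemma single_split {n : ℕ} {N1 N2 : List (List ℕ)} (h : [[n]] = N1 ++ N2) (h1 : N1 ≠ [])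
    (h2 : N2 ≠ []) : False := by
  have := congrArg List.length h
  have a1 := List.length_pos_iff.mpr h1
  have a2 := List.length_pos_iff.mpr h2
  simp only [List.length_cons, List.length_nil, List.length_append] at this
  omega

lemma pq_single {n : ℕ} {p q : List ℕ} (h : [n] = p ++ q) (hp : p ≠ []) (hq : q ≠ []) : False := by
  have := congrArg List.length h
  have a1 := List.length_pos_iff.mpr hp
  have a2 := List.length_pos_iff.mpr hq
  simp only [List.length_cons, List.length_nil, List.length_append] at this
  omega

/-- splits of a two-element list into two nonempty parts -/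
lemma two_split {a b : List ℕ} {N1 N2 : List (List ℕ)} (h : [a, b] = N1 ++ N2) (h1 : N1 ≠ [])
    (h2 : N2 ≠ []) : N1 = [a] ∧ N2 = [b] := by
  obtain ⟨x, N1, rfl⟩ := List.exists_cons_of_ne_nil h1
  simp only [List.cons_append, List.cons.injEq] at h
  obtain ⟨rfl, h⟩ := h
  cases N1 with
  | nil => exact ⟨rfl, by simpa using h.symm⟩
  | cons y N1 =>
    exfalso
    simp only [List.cons_append, List.cons.injEq] at h
    have := h.2
    simp only [List.nil_eq, List.append_eq_nil_iff] at this
    exact h2 this.2

/-- blocks of a two-element list -/
lemma two_block {a b d : List ℕ} {N1 N2 : List (List ℕ)} (h : [a, b] = N1 ++ d :: N2) :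
    (N1 = [] ∧ d = a ∧ N2 = [b]) ∨ (N1 = [a] ∧ d = b ∧ N2 = []) := by
  cases N1 with
  | nil =>
    simp only [List.nil_append, List.cons.injEq] at h
    exact Or.inl ⟨rfl, h.1.symm, h.2.symm⟩
  | cons x N1 =>
    simp only [List.cons_append, List.cons.injEq] at h
    obtain ⟨rfl, h⟩ := h
    cases N1 with
    | nil =>
      simp only [List.nil_append, List.cons.injEq] at h
      exact Or.inr ⟨rfl, h.1.symm, h.2.symm⟩
    | cons y N1 =>
      simp only [List.cons_append, List.cons.injEq] at h
      have := h.2
      simp at this

lemma one_block {a d : List ℕ} {N1 N2 : List (List ℕ)} (h : [a] = N1 ++ d :: N2) :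
    N1 = [] ∧ d = a ∧ N2 = [] := by
  cases N1 with
  | nil =>
    simp only [List.nil_append, List.cons.injEq] at h
    exact ⟨rfl, h.1.symm, h.2.symm⟩
  | cons x N1 =>
    simp only [List.cons_append, List.cons.injEq] at h
    have := h.2
    simp at this

lemma good_wf {s : St} (h : Good ty s) {d : Bool} {c : ℕ} (hv : vld s d c) : WF (mac ty s d c) :=
  wf_run (run_mac h.mode hv) h.wf

/-- facts about the labels of a good state -/
lemma good_lt {s : St} (h : Good ty s) : ∀ x ∈ (bks s).flatten, x < s.n := by
  intro x hx
  rw [bks_flatten] at hx
  have := h.wf.perm.subset hx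
  simpa using this

lemma good_nodup {s : St} (h : Good ty s) : (bks s).flatten.Nodup := by
  rw [bks_flatten]; exact h.wf.nodup

lemma not_mem_of_lt {X : List ℕ} {n : ℕ} (h : ∀ x ∈ X, x < n) : n ∉ X :=
  fun hx => absurd (h n hx) (lt_irrefl _)

/-- semi-Baxter, insertion to the right -/
lemma good_semi_R {s : St} (h : Good semi s) {b : ℕ} (hv : vld s true b) :
    Good semi (mac semi s true b) := by
  have hwf := good_wf h hv
  have hlt := good_lt h
  have hnd := good_nodup h
  have hnd' := hwf.nodup
  have hal := h.alive
  have hde := h.dead
  have hpos := h.wf.pos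
  obtain ⟨t, hct, ht⟩ := h.curn
  obtain ⟨m, l, c, r, n⟩ := s
  simp only at hct hpos
  have hb0 : bks ⟨m, l, c, r, n⟩ = (l.reverse ++ c :: r.take b) ++ ([] ++ r.drop b) := by
    simp [bks]
  have hb1 : bks (mac semi ⟨m, l, c, r, n⟩ true b) =
      (l.reverse ++ c :: r.take b) ++ ([[n]] ++ r.drop b) := by
    simp [bks, mac]
  rw [hb0] at hlt hnd hal hde
  rw [← bks_flatten, hb1] at hnd'
  have hord : [n - 1, n] <+ ((l.reverse ++ c :: r.take b) ++ ([[n]] ++ r.drop b)).flatten := by
    rw [List.flatten_append]
    apply List.Sublist.append (l₁ := [n - 1]) (r₁ := [n])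
    · rw [List.singleton_sublist, hct]; simp
    · rw [List.singleton_sublist]; simp
  refine ⟨hwf, rfl, ⟨[], rfl, fun _ => rfl⟩, ?_, ?_⟩
  · rw [hb1]
    apply aliveB_ext (n := n) hlt _ _ _ _ hal
    · simp [rmv]
    · simp
    · intro N1 N2 h1 h2 h3; exact (single_split h1 h2 h3).elim
    · rintro B1 B2 hB ⟨i, j, hij, hj, hd⟩
      rcases hd with ⟨h1, h2⟩ | ⟨hs, _⟩
      · rw [hB, List.flatten_append] at hord hnd'
        have h3 : [n, j] <+ B1.flatten ++ B2.flatten :=
          ((List.sublist_append_left [n] [i]).trans h1).append h2
        have : j = n - 1 := by omega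
        rw [this] at h3
        exact not_both_orders hnd' hord h3
      · exact absurd hs (by decide)
  · rw [hb1]
    apply deadB_ext _ _ hde
    · simp
    · intro N1 p q N2 h1 hp hq
      obtain ⟨_, h2, _⟩ := one_block h1
      exact (pq_single h2.symm hp hq).elim

/-- semi-Baxter, insertion to the left -/
lemma good_semi_L {s : St} (h : Good semi s) {a : ℕ} (hv : vld s false a) :
    Good semi (mac semi s false a) := by
  have hwf := good_wf h hv
  have hlt := good_lt h
  have hnd := good_nodup h
  have hnd' := hwf.nodup
  have hal := h.alive
  have hde := h.dead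
  have hpos := h.wf.pos
  obtain ⟨t, hct, ht⟩ := h.curn
  have ht0 := ht rfl
  subst ht0
  obtain ⟨m, l, c, r, n⟩ := s
  simp only at hct hpos
  subst hct
  have hb0 : bks ⟨m, l, [n - 1], r, n⟩ =
      (l.drop a).reverse ++ (((l.take a).reverse ++ [[n - 1]]) ++ r) := by
    have : l.reverse = (l.drop a).reverse ++ (l.take a).reverse := by
      rw [← List.reverse_append, List.take_append_drop]
    simp only [bks, this]; simp
  have hb1 : bks (mac semi ⟨m, l, [n - 1], r, n⟩ false a) =
      (l.drop a).reverse ++ ([[n], (l.take a).reverse.flatten ++ [n - 1]] ++ r) := by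
    simp [bks, mac]
  rw [hb0] at hlt hnd hal hde
  rw [← bks_flatten, hb1] at hnd'
  have hP : n ∉ (l.drop a).reverse.flatten := not_mem_of_lt fun x hx => hlt x (by
    rw [List.flatten_append]; exact List.mem_append_left _ hx)
  have hL : ∀ x ∈ (l.take a).reverse.flatten, x < n - 1 := by
    intro x hx
    have h1 : x < n := hlt x (by
      rw [List.flatten_append, List.flatten_append, List.flatten_append]
      exact List.mem_append_right _ (List.mem_append_left _ (List.mem_append_left _ hx)))
    have h2 : x ≠ n - 1 := by
      rintro rfl
      rw [List.flatten_append, List.flatten_append, List.flatten_append] at hnd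
      have h3 := (List.nodup_append.mp (List.nodup_append.mp hnd).2.1).1
      exact (List.nodup_append.mp h3).2.2 _ hx _ (by simp) rfl
    omega
  have hQ : n - 1 ∉ r.flatten := by
    intro hx
    rw [List.flatten_append, List.flatten_append, List.flatten_append] at hnd
    have h3 := (List.nodup_append.mp hnd).2.1
    exact (List.nodup_append.mp h3).2.2 _ (List.mem_append_right _ (by simp)) _ hx rfl
  have hrmv : rmv n ((l.take a).reverse.flatten ++ [n - 1]) = (l.take a).reverse.flatten ++ [n - 1] := by
    apply rmv_self
    intro x hx
    rcases List.mem_append.mp hx with hx | hx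
    · have := hL x hx; omega
    · simp only [List.mem_cons, List.not_mem_nil, or_false] at hx; omega
  refine ⟨hwf, rfl, ⟨[], rfl, fun _ => rfl⟩, ?_, ?_⟩
  · rw [hb1]
    apply aliveB_ext (n := n) hlt _ _ _ _ hal
    · rw [List.flatten_cons, rmv_append, List.flatten_cons, List.flatten_nil, List.append_nil, hrmv]
      simp [rmv]
    · intro x hx
      simp only [List.flatten_cons, List.flatten_nil, List.append_nil, List.mem_append,
        List.mem_cons, List.not_mem_nil, or_false] at hx
      rcases hx with hx | hx | hx
      · omega
      · have := hL x hx; omega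
      · omega
    · intro N1 N2 h1 h2 h3
      obtain ⟨rfl, rfl⟩ := two_split h1 h2 h3
      refine ⟨[], (l.take a).reverse ++ [[n - 1]], by simp, by simp [rmv], ?_⟩
      rw [List.flatten_cons, List.flatten_nil, List.append_nil, hrmv]
      simp
    · rintro B1 B2 hB ⟨i, j, hij, hj, hd⟩
      have hjn : j = n - 1 := by omega
      subst hjn
      rcases hd with ⟨h1, h2⟩ | ⟨hs, _⟩
      · rcases split3 hB with ⟨P2, e1, e2⟩ | ⟨N1, N2, e1, e2, e3, e4, e5⟩ | ⟨Q1, e1, e2⟩
        · apply hP
          rw [e1, List.flatten_append]
          exact List.mem_append_left _ (h1.subset (by simp))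
        · obtain ⟨rfl, rfl⟩ := two_split e1 e2 e3
          rw [e4, List.flatten_append] at h1
          exact sub2_last hP (by simpa using h1)
        · apply hQ
          rw [e1, List.flatten_append]
          exact List.mem_append_right _ (h2.subset (by simp))
      · exact absurd hs (by decide)
  · rw [hb1]
    apply deadB_ext _ _ hde
    · simp only [List.flatten_append, List.flatten_cons, List.flatten_nil, List.append_nil]
      exact List.sublist_append_right _ _
    · intro N1 p q N2 h1 hp hq
      rcases two_block h1 with ⟨_, h2, _⟩ | ⟨rfl, h2, rfl⟩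
      · exact (pq_single h2.symm hp hq).elim
      · obtain ⟨i, p', rfl⟩ := List.exists_cons_of_ne_nil hp
        obtain ⟨q', y, rfl⟩ := List.eq_nil_or_concat q |>.resolve_left hq
        have h3 : ((i :: p') ++ q') ++ [y] = (l.take a).reverse.flatten ++ [n - 1] := by
          rw [← h2]; simp
        obtain ⟨h4, h5⟩ := List.append_inj' h3 rfl
        simp only [List.cons.injEq, and_true] at h5
        subst h5
        have hi : i < n - 1 := hL i (by rw [← h4]; simp)
        refine ⟨i, n - 1, hi, Or.inl ⟨?_, ?_⟩⟩
        · have : n - 1 + 1 = n := by omega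
          rw [this]
          apply List.Sublist.trans _ (List.sublist_append_right _ _)
          simp
        · rw [List.singleton_sublist]; simp

/-- strong-Baxter, insertion to the right -/
lemma good_strong_R {s : St} (h : Good strong s) {b : ℕ} (hv : vld s true b) :
    Good strong (mac strong s true b) := by
  have hwf := good_wf h hv
  have hlt := good_lt h
  have hnd := good_nodup h
  have hnd' := hwf.nodup
  have hal := h.alive
  have hde := h.dead
  have hpos := h.wf.pos
  obtain ⟨t, hct, ht⟩ := h.curn
  obtain ⟨m, l, c, r, n⟩ := s
  simp only at hct hpos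
  subst hct
  have hb0 : bks ⟨m, l, (n - 1) :: t, r, n⟩ = l.reverse ++ ((((n - 1) :: t) :: r.take b) ++ r.drop b) := by
    simp [bks]
  have hb1 : bks (mac strong ⟨m, l, (n - 1) :: t, r, n⟩ true b) =
      l.reverse ++ ([((n - 1) :: t) ++ (r.take b).flatten, [n]] ++ r.drop b) := by
    simp [bks, mac]
  rw [hb0] at hlt hnd hal hde
  rw [← bks_flatten, hb1] at hnd'
  have hN0 : ∀ x ∈ ((n - 1) :: t) ++ (r.take b).flatten, x < n := by
    intro x hx
    apply hlt
    rw [List.flatten_append, List.flatten_append, List.flatten_cons]
    exact List.mem_append_right _ (List.mem_append_left _ hx)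
  have hN1 : ∀ x ∈ t ++ (r.take b).flatten, x < n - 1 := by
    intro x hx
    have h1 := hN0 x (by simp only [List.cons_append]; exact List.mem_cons_of_mem _ hx)
    have h2 : x ≠ n - 1 := by
      rintro rfl
      rw [List.flatten_append, List.flatten_append, List.flatten_cons] at hnd
      have h3 := (List.nodup_append.mp (List.nodup_append.mp hnd).2.1).1
      rw [List.cons_append, List.nodup_cons] at h3
      exact h3.1 hx
    omega
  have hP : n - 1 ∉ l.reverse.flatten := by
    intro hx
    rw [List.flatten_append, List.flatten_append, List.flatten_cons] at hnd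
    exact (List.nodup_append.mp hnd).2.2 _ hx _ (by simp) rfl
  have hQ : n ∉ (r.drop b).flatten := not_mem_of_lt fun x hx => hlt x (by
    rw [List.flatten_append, List.flatten_append]
    exact List.mem_append_right _ (List.mem_append_right _ hx))
  have hord : [n - 1, n] <+
      (l.reverse ++ ([((n - 1) :: t) ++ (r.take b).flatten, [n]] ++ r.drop b)).flatten := by
    rw [List.flatten_append, List.flatten_append]
    apply List.Sublist.trans _ (List.sublist_append_right _ _)
    apply List.Sublist.trans _ (List.sublist_append_left _ _)
    simp only [List.flatten_cons, List.flatten_nil, List.append_nil]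
    apply List.Sublist.append (l₁ := [n - 1]) (r₁ := [n])
    · rw [List.singleton_sublist]; simp
    · exact List.Sublist.refl _
  refine ⟨hwf, rfl, ⟨[], rfl, fun _ => rfl⟩, ?_, ?_⟩
  · rw [hb1]
    apply aliveB_ext (n := n) hlt _ _ _ _ hal
    · rw [List.flatten_cons, rmv_append, rmv_self hN0]
      simp [rmv]
    · intro x hx
      simp only [List.flatten_cons, List.flatten_nil, List.append_nil] at hx
      rcases List.mem_append.mp hx with hx | hx
      · exact (hN0 x hx).le
      · simp only [List.mem_cons, List.not_mem_nil, or_false] at hx; omega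
    · intro N1 N2 h1 h2 h3
      obtain ⟨rfl, rfl⟩ := two_split h1 h2 h3
      refine ⟨((n - 1) :: t) :: r.take b, [], by simp, ?_, by simp [rmv]⟩
      rw [List.flatten_cons, List.flatten_nil, List.append_nil, rmv_self hN0]
      simp
    · rintro B1 B2 hB ⟨i, j, hij, hj, hd⟩
      have hjn : j = n - 1 := by omega
      subst hjn
      rw [hB, List.flatten_append] at hord hnd'
      rcases hd with ⟨h1, h2⟩ | ⟨hs, ⟨h1, h2⟩ | ⟨h1, h2⟩⟩
      · have h3 : [n, n - 1] <+ B1.flatten ++ B2.flatten :=
          ((List.sublist_append_left [n] [i]).trans h1).append h2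
        exact not_both_orders hnd' hord h3
      · rcases split3 hB with ⟨P2, e1, e2⟩ | ⟨N1, N2, e1, e2, e3, e4, e5⟩ | ⟨Q1, e1, e2⟩
        · apply hP
          rw [e1, List.flatten_append]
          exact List.mem_append_left _ (h1.subset (by simp))
        · obtain ⟨rfl, rfl⟩ := two_split e1 e2 e3
          rw [e5, List.flatten_append] at h2
          exact sub2_first hQ (by simpa using h2)
        · apply hQ
          rw [e1, List.flatten_append]
          exact List.mem_append_right _ (h2.subset (by simp))
      · have h3 : [n, n - 1] <+ B1.flatten ++ B2.flatten :=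
          h1.append ((List.sublist_cons_self i [n - 1]).trans h2)
        exact not_both_orders hnd' hord h3
  · rw [hb1]
    apply deadB_ext _ _ hde
    · simp only [List.flatten_cons, List.flatten_nil, List.append_nil, List.cons_append,
        List.append_assoc]
      exact List.Sublist.cons_cons _ (List.Sublist.append_left (List.sublist_append_left _ _) _)
    · intro N1 p q N2 h1 hp hq
      rcases two_block h1 with ⟨rfl, h2, rfl⟩ | ⟨_, h2, _⟩
      · obtain ⟨x, p', rfl⟩ := List.exists_cons_of_ne_nil hp
        obtain ⟨i, q', rfl⟩ := List.exists_cons_of_ne_nil hq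
        simp only [List.cons_append, List.cons.injEq] at h2
        obtain ⟨rfl, h2⟩ := h2
        have hi : i < n - 1 := hN1 i (by rw [← h2]; simp)
        refine ⟨i, n - 1, hi, Or.inr ⟨rfl, Or.inl ⟨?_, ?_⟩⟩⟩
        · rw [List.singleton_sublist]; simp
        · have : n - 1 + 1 = n := by omega
          rw [this]
          simp only [List.cons_append]
          apply List.Sublist.cons_cons
          rw [List.singleton_sublist]; simp
      · exact (pq_single h2.symm hp hq).elim

/-- strong-Baxter, insertion to the left without pops -/
lemma good_strong_L0 {s : St} (h : Good strong s) (hv : vld s false 0) :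
    Good strong (mac strong s false 0) := by
  have hwf := good_wf h hv
  have hlt := good_lt h
  have hnd := good_nodup h
  have hnd' := hwf.nodup
  have hal := h.alive
  have hde := h.dead
  have hpos := h.wf.pos
  obtain ⟨t, hct, ht⟩ := h.curn
  obtain ⟨m, l, c, r, n⟩ := s
  simp only at hct hpos
  subst hct
  have hb0 : bks ⟨m, l, (n - 1) :: t, r, n⟩ = l.reverse ++ ([(n - 1) :: t] ++ r) := by
    simp [bks]
  have hb1 : bks (mac strong ⟨m, l, (n - 1) :: t, r, n⟩ false 0) =
      l.reverse ++ ([[n], (n - 1) :: t] ++ r) := by
    simp [bks, mac]
  rw [hb0] at hlt hnd hal hde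
  rw [← bks_flatten, hb1] at hnd'
  have hN0 : ∀ x ∈ (n - 1) :: t, x < n := by
    intro x hx
    apply hlt
    rw [List.flatten_append, List.flatten_append]
    exact List.mem_append_right _ (List.mem_append_left _ (by simpa using hx))
  have hP : n ∉ l.reverse.flatten := not_mem_of_lt fun x hx => hlt x (by
    rw [List.flatten_append]; exact List.mem_append_left _ hx)
  have hQ : n - 1 ∉ r.flatten := by
    intro hx
    rw [List.flatten_append, List.flatten_append] at hnd
    have h3 := (List.nodup_append.mp hnd).2.1
    exact (List.nodup_append.mp h3).2.2 _ (by simp) _ hx rfl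
  have hT : n - 1 ∉ t ++ r.flatten := by
    intro hx
    rw [List.flatten_append, List.flatten_append] at hnd
    have h3 := (List.nodup_append.mp hnd).2.1
    simp only [List.flatten_cons, List.flatten_nil, List.append_nil, List.cons_append,
      List.nodup_cons] at h3
    exact h3.1 hx
  have hord : [n, n - 1] <+ (l.reverse ++ ([[n], (n - 1) :: t] ++ r)).flatten := by
    rw [List.flatten_append, List.flatten_append]
    apply List.Sublist.trans _ (List.sublist_append_right _ _)
    apply List.Sublist.trans _ (List.sublist_append_left _ _)
    simp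
  refine ⟨hwf, rfl, ⟨[], rfl, fun _ => rfl⟩, ?_, ?_⟩
  · rw [hb1]
    apply aliveB_ext (n := n) hlt _ _ _ _ hal
    · rw [List.flatten_cons, rmv_append, List.flatten_cons, List.flatten_nil, List.append_nil,
        rmv_self hN0]
      simp [rmv]
    · intro x hx
      simp only [List.flatten_cons, List.flatten_nil, List.append_nil] at hx
      rcases List.mem_append.mp hx with hx | hx
      · simp only [List.mem_cons, List.not_mem_nil, or_false] at hx; omega
      · exact (hN0 x hx).le
    · intro N1 N2 h1 h2 h3
      obtain ⟨rfl, rfl⟩ := two_split h1 h2 h3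
      refine ⟨[], [(n - 1) :: t], by simp, by simp [rmv], ?_⟩
      rw [List.flatten_cons, List.flatten_nil, List.append_nil, rmv_self hN0]
    · rintro B1 B2 hB ⟨i, j, hij, hj, hd⟩
      have hjn : j = n - 1 := by omega
      subst hjn
      rw [hB, List.flatten_append] at hord hnd'
      rcases hd with ⟨h1, h2⟩ | ⟨hs, ⟨h1, h2⟩ | ⟨h1, h2⟩⟩
      · rcases split3 hB with ⟨P2, e1, e2⟩ | ⟨N1, N2, e1, e2, e3, e4, e5⟩ | ⟨Q1, e1, e2⟩
        · apply hP
          rw [e1, List.flatten_append]
          exact List.mem_append_left _ (h1.subset (by simp))
        · obtain ⟨rfl, rfl⟩ := two_split e1 e2 e3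
          rw [e4, List.flatten_append] at h1
          exact sub2_last hP (by simpa using h1)
        · apply hQ
          rw [e1, List.flatten_append]
          exact List.mem_append_right _ (h2.subset (by simp))
      · have h3 : [n - 1, n] <+ B1.flatten ++ B2.flatten :=
          h1.append ((List.sublist_cons_self i [n]).trans h2)
        exact not_both_orders hnd' hord h3
      · rcases split3 hB with ⟨P2, e1, e2⟩ | ⟨N1, N2, e1, e2, e3, e4, e5⟩ | ⟨Q1, e1, e2⟩
        · apply hP
          rw [e1, List.flatten_append]
          exact List.mem_append_left _ (h1.subset (by simp))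
        · obtain ⟨rfl, rfl⟩ := two_split e1 e2 e3
          rw [e5, List.flatten_append] at h2
          exact sub2_first hT (by simpa using h2)
        · apply hQ
          rw [e1, List.flatten_append]
          exact List.mem_append_right _ (h2.subset (by simp))
  · rw [hb1]
    apply deadB_ext _ _ hde
    · simp
    · intro N1 p q N2 h1 hp hq
      rcases two_block h1 with ⟨_, h2, _⟩ | ⟨rfl, h2, rfl⟩
      · exact (pq_single h2.symm hp hq).elim
      · have h3 := hde l.reverse p q r (by rw [h2]; simp) hp hq
        apply dead_mono _ _ h3
        · exact List.Sublist.append_left (List.sublist_append_right _ _) _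
        · simp

/-- strong-Baxter, insertion to the left with pops -/
lemma good_strong_L {s : St} (h : Good strong s) {a : ℕ} (hv : vld s false (a + 1)) :
    Good strong (mac strong s false (a + 1)) := by
  have hwf := good_wf h hv
  have hlt := good_lt h
  have hnd := good_nodup h
  have hnd' := hwf.nodup
  have hal := h.alive
  have hde := h.dead
  have hpos := h.wf.pos
  have hlne := h.wf.left_ne
  obtain ⟨t, hct, ht⟩ := h.curn
  obtain ⟨m, l, c, r, n⟩ := s
  simp only at hct hpos hlne
  subst hct
  have hrev : l.reverse = (l.drop (a + 1)).reverse ++ (l.take (a + 1)).reverse := by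
    rw [← List.reverse_append, List.take_append_drop]
  set Lf := (l.take (a + 1)).reverse.flatten with hLf
  have hb0 : bks ⟨m, l, (n - 1) :: t, r, n⟩ =
      (l.drop (a + 1)).reverse ++ (((l.take (a + 1)).reverse ++ [(n - 1) :: t]) ++ r) := by
    simp only [bks, hrev]; simp
  have hb1 : bks (mac strong ⟨m, l, (n - 1) :: t, r, n⟩ false (a + 1)) =
      (l.drop (a + 1)).reverse ++ ([n :: (Lf ++ (n - 1) :: t)] ++ r) := by
    simp [bks, mac, hLf]
  have hLne : Lf ≠ [] := by
    have h1 : a + 1 ≤ l.length := by simpa [vld] using hv
    obtain ⟨x, l', rfl⟩ := List.exists_cons_of_length_pos (show 0 < l.length by omega)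
    have h2 := hlne x (by simp)
    obtain ⟨y, x', rfl⟩ := List.exists_cons_of_ne_nil h2
    rw [hLf]
    simp
  rw [hb0] at hlt hnd hal hde
  rw [← bks_flatten, hb1] at hnd'
  have hN0 : ∀ x ∈ Lf ++ (n - 1) :: t, x < n := by
    intro x hx
    apply hlt
    rw [List.flatten_append, List.flatten_append, List.flatten_append]
    exact List.mem_append_right _ (List.mem_append_left _ (by simpa [hLf] using hx))
  have hP : n ∉ (l.drop (a + 1)).reverse.flatten := not_mem_of_lt fun x hx => hlt x (by
    rw [List.flatten_append]; exact List.mem_append_left _ hx)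
  have hL1 : ∀ x ∈ Lf, x < n - 1 := by
    intro x hx
    have h1 := hN0 x (List.mem_append_left _ hx)
    have h2 : x ≠ n - 1 := by
      rintro rfl
      rw [List.flatten_append, List.flatten_append, List.flatten_append] at hnd
      have h3 := (List.nodup_append.mp (List.nodup_append.mp hnd).2.1).1
      exact (List.nodup_append.mp h3).2.2 _ hx _ (by simp) rfl
    omega
  have hQ : n - 1 ∉ r.flatten := by
    intro hx
    rw [List.flatten_append, List.flatten_append, List.flatten_append] at hnd
    have h3 := (List.nodup_append.mp hnd).2.1
    exact (List.nodup_append.mp h3).2.2 _ (List.mem_append_right _ (by simp)) _ hx rfl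
  have hord : [n, n - 1] <+
      ((l.drop (a + 1)).reverse ++ ([n :: (Lf ++ (n - 1) :: t)] ++ r)).flatten := by
    rw [List.flatten_append, List.flatten_append]
    apply List.Sublist.trans _ (List.sublist_append_right _ _)
    apply List.Sublist.trans _ (List.sublist_append_left _ _)
    simp
  have hn1 : n - 1 + 1 = n := by omega
  refine ⟨hwf, rfl, ⟨_, rfl, fun h => absurd h (by decide)⟩, ?_, ?_⟩
  · rw [hb1]
    apply aliveB_ext (n := n) hlt _ _ _ _ hal
    · rw [List.flatten_cons, List.flatten_nil, List.append_nil, rmv_cons_self, rmv_self hN0]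
      simp [hLf]
    · intro x hx
      simp only [List.flatten_cons, List.flatten_nil, List.append_nil] at hx
      rcases List.mem_cons.mp hx with hx | hx
      · omega
      · exact (hN0 x hx).le
    · intro N1 N2 h1 h2 h3
      exfalso
      have := congrArg List.length h1
      have a1 := List.length_pos_iff.mpr h2
      have a2 := List.length_pos_iff.mpr h3
      simp only [List.length_cons, List.length_nil, List.length_append] at this
      omega
    · rintro B1 B2 hB ⟨i, j, hij, hj, hd⟩
      have hjn : j = n - 1 := by omega
      subst hjn
      rw [hB, List.flatten_append] at hord hnd'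
      have key : n ∈ B1.flatten → n - 1 ∈ B2.flatten → False := by
        intro h1 h2
        rcases split3 hB with ⟨P2, e1, e2⟩ | ⟨N1, N2, e1, e2, e3, e4, e5⟩ | ⟨Q1, e1, e2⟩
        · apply hP
          rw [e1, List.flatten_append]
          exact List.mem_append_left _ h1
        · have := congrArg List.length e1
          have a1 := List.length_pos_iff.mpr e2
          have a2 := List.length_pos_iff.mpr e3
          simp only [List.length_cons, List.length_nil, List.length_append] at this
          omega
        · apply hQ
          rw [e1, List.flatten_append]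
          exact List.mem_append_right _ h2
      rcases hd with ⟨h1, h2⟩ | ⟨hs, ⟨h1, h2⟩ | ⟨h1, h2⟩⟩
      · exact key (h1.subset (by simp)) (h2.subset (by simp))
      · have h3 : [n - 1, n] <+ B1.flatten ++ B2.flatten :=
          h1.append ((List.sublist_cons_self i [n]).trans h2)
        exact not_both_orders hnd' hord h3
      · exact key (h1.subset (by simp)) (h2.subset (by simp))
  · rw [hb1]
    apply deadB_ext _ _ hde
    · simp only [List.flatten_append, List.flatten_cons, List.flatten_nil, List.append_nil]
      rw [← hLf]
      exact List.sublist_cons_self _ _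
    · intro N1 p q N2 h1 hp hq
      obtain ⟨rfl, h2, rfl⟩ := one_block h1
      obtain ⟨x, p', rfl⟩ := List.exists_cons_of_ne_nil hp
      simp only [List.cons_append, List.cons.injEq] at h2
      obtain ⟨rfl, h2⟩ := h2
      -- `p'` nonempty inside `Lf`: first obstruction
      have ob1 : ∀ d, p' ≠ [] → Lf = p' ++ d → x - 1 ∈ q →
          Dead strong ((l.drop (a + 1)).reverse.flatten ++ (([] : List (List ℕ)).flatten ++ x :: p'))
            (q ++ (([] : List (List ℕ)).flatten ++ r.flatten)) := by
        intro d hp' hd hq'
        obtain ⟨i, p'', rfl⟩ := List.exists_cons_of_ne_nil hp'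
        refine ⟨i, x - 1, hL1 i (by rw [hd]; simp), Or.inl ⟨?_, ?_⟩⟩
        · rw [hn1]
          apply List.Sublist.trans _ (List.sublist_append_right _ _)
          simp
        · rw [List.singleton_sublist]
          exact List.mem_append_left _ hq'
      rcases List.append_eq_append_iff.mp h2 with ⟨d, e1, e2⟩ | ⟨d, e1, e2⟩
      · by_cases hp' : p' = []
        · subst hp'
          simp only [List.nil_append] at e1
          subst e1
          obtain ⟨i, L', hL'⟩ := List.exists_cons_of_ne_nil hLne
          refine ⟨i, x - 1, hL1 i (by rw [hL']; simp), Or.inr ⟨rfl, Or.inr ⟨?_, ?_⟩⟩⟩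
          · rw [hn1, List.singleton_sublist]; simp
          · rw [e2, hL']
            simp only [List.cons_append]
            apply List.Sublist.cons_cons
            rw [List.singleton_sublist]; simp
        · exact ob1 d hp' e1 (by rw [e2]; simp)
      · by_cases hd0 : d = []
        · subst hd0
          simp only [List.append_nil] at e1
          simp only [List.nil_append] at e2
          exact ob1 [] (by rw [e1]; exact hLne) (by rw [e1]; simp) (by rw [← e2]; simp)
        · have h3 := hde ((l.drop (a + 1)).reverse ++ (l.take (a + 1)).reverse) d q r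
            (by rw [← e2]; simp) hd0 hq
          apply dead_mono _ _ h3
          · rw [e1, List.flatten_append, ← hLf]
            simp only [List.flatten_nil, List.nil_append, List.append_assoc]
            exact List.Sublist.append_left (List.sublist_cons_self _ _) _
          · simp

lemma good_mac {s : St} (h : Good ty s) {d : Bool} {c : ℕ} (hv : vld s d c) :
    Good ty (mac ty s d c) := by
  cases ty <;> cases d
  · exact good_semi_L h hv
  · exact good_semi_R h hv
  · cases c with
    | zero => exact good_strong_L0 h hv
    | succ a => exact good_strong_L h hv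
  · exact good_strong_R h hv

end Pool.Agent.TwoLIS
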