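import Pool.Agent.TwoLIS.StkMac
import Pool.Agent.BaxterLIS.Surj

/-!
Arrangements of valid runs are exactly the lists of the class.
-/

namespace Pool.Agent.TwoLIS

open Md Ty
open scoped List
open Pool.Agent.BaxterLIS (flatten_cut)

variable {ty : Ty}

lemma arr_mac_true (s : St) (b : ℕ) : arr (mac ty s true b) =
    (s.left.reverse ++ s.cur :: s.right.take b).flatten ++ s.n :: (s.right.drop b).flatten := by
  cases ty <;> simp [arr, mac]

lemma arr_mac_false (s : St) (a : ℕ) : arr (mac ty s false a) =
    (s.left.drop a).reverse.flatten ++ s.n :: ((s.left.take a).reverse ++ s.cur :: s.right).flatten := by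
  cases ty
  · simp [arr, mac]
  · cases a <;> simp [arr, mac]

lemma mac_boundary (s : St) (d : Bool) (c : ℕ) : ∃ B1 B2, bks s = B1 ++ B2 ∧
    arr (mac ty s d c) = B1.flatten ++ s.n :: B2.flatten := by
  cases d
  · refine ⟨(s.left.drop c).reverse, (s.left.take c).reverse ++ s.cur :: s.right, ?_,
      arr_mac_false s c⟩
    rw [bks, ← List.append_assoc, ← List.reverse_append, List.take_append_drop]
  · refine ⟨s.left.reverse ++ s.cur :: s.right.take c, s.right.drop c, ?_, arr_mac_true s c⟩
    simp [bks]

lemma boundary_mac {s : St} {B1 B2 : List (List ℕ)} (h : bks s = B1 ++ B2) :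
    ∃ d c, vld s d c ∧ arr (mac ty s d c) = B1.flatten ++ s.n :: B2.flatten := by
  rcases List.append_eq_append_iff.mp h with ⟨e, h1, h2⟩ | ⟨e, h1, h2⟩
  · cases e with
    | nil =>
      -- left insertion without pops
      refine ⟨false, 0, by simp [vld], ?_⟩
      rw [arr_mac_false]
      simp only [List.append_nil] at h1
      simp only [List.nil_append] at h2
      simp [h1, ← h2]
    | cons x e =>
      simp only [List.cons_append, List.cons.injEq] at h2
      obtain ⟨h2, h3⟩ := h2
      refine ⟨true, e.length, by simp [vld, h3], ?_⟩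
      rw [arr_mac_true, h3, h1, h2]
      simp
  · refine ⟨false, e.length, ?_, ?_⟩
    · have := congrArg List.length h1
      simp only [List.length_reverse, List.length_append] at this
      simp [vld]; omega
    · have h3 : s.left = e.reverse ++ B1.reverse := by
        rw [← List.reverse_append, ← h1, List.reverse_reverse]
      rw [arr_mac_false, h3, h2]
      simp

lemma class_mac {s : St} (h : Good ty s) (hc : ClassL ty (arr s)) (d : Bool) (c : ℕ) :
    ClassL ty (arr (mac ty s d c)) := by
  obtain ⟨B1, B2, h1, h2⟩ := mac_boundary (ty := ty) s d c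
  have h3 := good_lt h
  rw [h2, class_insert (by rw [← List.flatten_append, ← h1]; exact h3)]
  refine ⟨?_, h.alive B1 B2 h1⟩
  rw [← List.flatten_append, ← h1, bks_flatten]
  exact hc

lemma class_init : ClassL ty (arr init) := by
  intro i j k hij hjk
  have h0 : arr init = [0] := by simp [arr, init]
  have key : ∀ c : List ℕ, k ∈ c → ¬ c <+ arr init := by
    intro c hc h
    rw [h0] at h
    have := h.subset hc
    simp at this
    omega
  exact ⟨key _ (by simp), fun _ => ⟨key _ (by simp), key _ (by simp)⟩⟩

lemma mac_n (s : St) (d : Bool) (c : ℕ) : (mac ty s d c).n = s.n + 1 := by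
  cases ty <;> cases d <;> cases c <;> rfl

/-- one step towards a given list of the class -/
lemma step_exists {A : List ℕ} (hB : ClassL ty A) {s : St} (hg : Good ty s)
    {X Y : List ℕ} (harr : arr s = X ++ Y) (hsub : X ++ s.n :: Y <+ A) :
    ∃ w s', Run ty s w s' ∧ Good ty s' ∧ s'.n = s.n + 1 ∧ arr s' = X ++ s.n :: Y := by
  have hlt : ∀ x ∈ X ++ Y, x < s.n := by
    rw [← harr, ← bks_flatten]; exact good_lt hg
  have hcl : ClassL ty (X ++ s.n :: Y) := by
    intro i j k hij hjk
    exact ⟨fun hc => (hB i j k hij hjk).1 (hc.trans hsub), fun hs =>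
      ⟨fun hc => ((hB i j k hij hjk).2 hs).1 (hc.trans hsub),
        fun hc => ((hB i j k hij hjk).2 hs).2 (hc.trans hsub)⟩⟩
  have hnd := ((class_insert hlt).mp hcl).2
  have hB : (bks s).flatten = X ++ Y := by rw [bks_flatten, harr]
  rcases flatten_cut (bks s) X Y hB with ⟨b, hb, h1, h2⟩ | ⟨bs1, p, q, bs2, h1, hp, hq, h2, h3⟩
  · obtain ⟨d, c, hv, h4⟩ := boundary_mac (ty := ty) (s := s) (B1 := (bks s).take b)
      (B2 := (bks s).drop b) (List.take_append_drop b (bks s)).symm
    exact ⟨enc d c, mac ty s d c, run_mac hg.mode hv, good_mac hg hv, mac_n s d c, by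
      rw [h4, h1, h2]⟩
  · exfalso
    apply hnd
    rw [h2, h3]
    exact hg.dead bs1 p q bs2 h1 hp hq

/-- every list of the class is the arrangement of a valid run -/
theorem exists_run {A : List ℕ} {n : ℕ} (hn : 1 ≤ n) (hA : A.Perm (List.range n))
    (hB : ClassL ty A) : ∃ w s', Run ty init w s' ∧ s'.mode = I ∧ s'.n = n ∧ arr s' = A := by
  have hnd : A.Nodup := hA.nodup_iff.mpr List.nodup_range
  have key : ∀ m, 1 ≤ m → m ≤ n → ∃ w s', Run ty init w s' ∧ Good ty s' ∧ s'.n = m ∧
      arr s' = A.filter (· < m) := by
    intro m hm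
    induction m, hm using Nat.le_induction with
    | base =>
      intro _
      refine ⟨[], init, Run.nil _, good_init, rfl, ?_⟩
      have h1 : (A.filter (· < 1)).Perm ((List.range n).filter (· < 1)) := hA.filter _
      have h2 : (List.range n).filter (· < 1) = [0] := by
        obtain ⟨n, rfl⟩ : ∃ n', n = n' + 1 := ⟨n - 1, by omega⟩
        rw [List.range_succ_eq_map]
        simp [List.filter_map]
      rw [h2] at h1
      rw [List.perm_singleton.mp h1]
      simp [arr, init]
    | succ m hm ih =>
      intro hmn
      obtain ⟨w, s, hr, hg, hsn, harr⟩ := ih (by omega)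
      have hmem : m ∈ A := hA.symm.subset (by simp; omega)
      obtain ⟨A1, A2, hAeq⟩ := List.append_of_mem hmem
      have e1 : A.filter (· < m) = A1.filter (· < m) ++ A2.filter (· < m) := by
        rw [hAeq, List.filter_append, List.filter_cons]
        simp
      have hne1 : ∀ x ∈ A1, x ≠ m := by
        rintro x hx rfl
        rw [hAeq] at hnd
        exact (List.nodup_append.mp hnd).2.2 _ hx _ List.mem_cons_self rfl
      have hne2 : ∀ x ∈ A2, x ≠ m := by
        rintro x hx rfl
        rw [hAeq] at hnd
        have := (List.nodup_append.mp hnd).2.1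
        rw [List.nodup_cons] at this
        exact this.1 hx
      have hf : ∀ B : List ℕ, (∀ x ∈ B, x ≠ m) → B.filter (· < m + 1) = B.filter (· < m) := by
        intro B hB'
        apply List.filter_congr
        intro x hx
        have := hB' x hx
        simp only [decide_eq_decide]
        omega
      have e2 : A.filter (· < m + 1) = A1.filter (· < m) ++ m :: A2.filter (· < m) := by
        rw [hAeq, List.filter_append, List.filter_cons, hf A1 hne1, hf A2 hne2]
        simp
      have hsub : A1.filter (· < m) ++ s.n :: A2.filter (· < m) <+ A := by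
        rw [hsn, ← e2]; exact List.filter_sublist
      obtain ⟨w', s', hr', hg', hn', harr'⟩ := step_exists hB hg (by rw [harr, e1]) hsub
      refine ⟨w ++ w', s', run_append hr hr', hg', by rw [hn', hsn], ?_⟩
      rw [harr', e2, hsn]
  obtain ⟨w, s, hr, hg, hsn, harr⟩ := key n hn le_rfl
  refine ⟨w, s, hr, hg.mode, hsn, ?_⟩
  rw [harr]
  apply List.filter_eq_self.mpr
  intro x hx
  have := hA.subset hx
  simpa using this

end Pool.Agent.TwoLIS
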