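import Mathlib

/-!
Two-dimensional lattice walks with mean zero killed outside the quadrant: contraction in a ball.
-/

namespace Pool.Agent.TwoLIS

open scoped ENNReal
open Filter Topology

/-- lattice positions -/
abbrev Z2 := ℤ × ℤ

/-- the closed quadrant -/
def Quad (z : Z2) : Prop := 0 ≤ z.1 ∧ 0 ≤ z.2

instance (z : Z2) : Decidable (Quad z) := by unfold Quad; infer_instance

/-- size of a step -/
def rr (z : Z2) : ℝ := |(z.1:ℝ)| + |(z.2:ℝ)|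

/-- Data of a walk -/
structure Walk (ι : Type*) where
  μ : ι → ℝ
  ξ : ι → Z2
  nonneg : ∀ i, 0 ≤ μ i
  sum_one : HasSum μ 1
  mean1 : HasSum (fun i => μ i * ((ξ i).1:ℝ)) 0
  mean2 : HasSum (fun i => μ i * ((ξ i).2:ℝ)) 0
  mom6 : Summable (fun i => μ i * rr (ξ i) ^ 6)
  up : ι
  up_ξ : ξ up = (0, 1)
  up_pos : 0 < μ up
  rt : ι
  rt_ξ : ξ rt = (1, 0)
  rt_pos : 0 < μ rt

lemma hasSum_cg {ι : Type*} {f g : ι → ℝ} {a b : ℝ} (h : HasSum g b) (hf : ∀ i, f i = g i)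
    (hab : a = b) : HasSum f a := by
  rw [hab]
  have : f = g := funext hf
  rw [this]
  exact h

namespace Walk

variable {ι : Type*} (Wk : Walk ι)

/-- weighted number of `t`-step paths in the quadrant, with a final weight -/
noncomputable def W : ℕ → (Z2 → ℝ≥0∞) → Z2 → ℝ≥0∞
  | 0, g, z => g z
  | t + 1, g, z => ∑' i, ENNReal.ofReal (Wk.μ i) *
      (if Quad (z + Wk.ξ i) then W t g (z + Wk.ξ i) else 0)

lemma W_mono (t : ℕ) {g g' : Z2 → ℝ≥0∞} (h : ∀ z, Quad z → g z ≤ g' z) (z : Z2) (hz : Quad z) :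
    Wk.W t g z ≤ Wk.W t g' z := by
  induction t generalizing z with
  | zero => exact h z hz
  | succ t ih =>
    simp only [W]
    refine ENNReal.tsum_le_tsum fun i => ?_
    split_ifs with hq
    · gcongr; exact ih _ hq
    · exact le_rfl

lemma W_mul (t : ℕ) (a : ℝ≥0∞) (g : Z2 → ℝ≥0∞) (z : Z2) :
    Wk.W t (fun z => a * g z) z = a * Wk.W t g z := by
  induction t generalizing z with
  | zero => rfl
  | succ t ih =>
    simp only [W]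
    rw [← ENNReal.tsum_mul_left]
    congr 1
    ext i
    split_ifs with hq
    · rw [ih]; ring
    · ring

lemma W_add (s t : ℕ) (g : Z2 → ℝ≥0∞) (z : Z2) : Wk.W (s + t) g z = Wk.W s (Wk.W t g) z := by
  induction s generalizing z with
  | zero => simp [W]
  | succ s ih =>
    have : s + 1 + t = (s + t) + 1 := by ring
    rw [this]
    simp only [W]
    congr 1
    ext i
    rw [ih]

/-- second moments -/
noncomputable def A : ℝ := ∑' i, Wk.μ i * ((Wk.ξ i).1:ℝ) ^ 2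
noncomputable def B : ℝ := ∑' i, Wk.μ i * (((Wk.ξ i).1:ℝ) * ((Wk.ξ i).2:ℝ))
noncomputable def C : ℝ := ∑' i, Wk.μ i * ((Wk.ξ i).2:ℝ) ^ 2
noncomputable def Δ : ℝ := Wk.A * Wk.C - Wk.B ^ 2

/-- adapted quadratic form and bilinear form -/
noncomputable def N (w : ℝ × ℝ) : ℝ := Wk.C * w.1 ^ 2 - 2 * Wk.B * w.1 * w.2 + Wk.A * w.2 ^ 2
noncomputable def bil (w v : ℝ × ℝ) : ℝ :=
  Wk.C * w.1 * v.1 - Wk.B * (w.1 * v.2 + w.2 * v.1) + Wk.A * w.2 * v.2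

/-- cast of a lattice point -/
def cst (z : Z2) : ℝ × ℝ := ((z.1:ℝ), (z.2:ℝ))

lemma rr_nonneg (z : Z2) : 0 ≤ rr z := by unfold rr; positivity

lemma rr_pow_le (z : Z2) (j : ℕ) (hj : j ≤ 6) : rr z ^ j ≤ 1 + rr z ^ 6 := by
  have h0 := rr_nonneg z
  rcases le_total (rr z) 1 with h | h
  · have : rr z ^ j ≤ 1 := pow_le_one₀ h0 h
    have : 0 ≤ rr z ^ 6 := by positivity
    linarith
  · have : rr z ^ j ≤ rr z ^ 6 := pow_le_pow_right₀ h hj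
    linarith

lemma summable_rr (j : ℕ) (hj : j ≤ 6) : Summable (fun i => Wk.μ i * rr (Wk.ξ i) ^ j) := by
  refine Summable.of_nonneg_of_le (f := fun i => Wk.μ i + Wk.μ i * rr (Wk.ξ i) ^ 6) ?_ ?_ ?_
  · intro i
    have := Wk.nonneg i
    have := rr_nonneg (Wk.ξ i)
    positivity
  · intro i
    have h1 := mul_le_mul_of_nonneg_left (rr_pow_le (Wk.ξ i) j hj) (Wk.nonneg i)
    linarith
  · exact Wk.sum_one.summable.add Wk.mom6

/-- domination criterion for summability -/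
lemma summable_of_le {f : ι → ℝ} (K : ℝ) (h : ∀ i, |f i| ≤ K * (1 + rr (Wk.ξ i) ^ 6)) :
    Summable (fun i => Wk.μ i * f i) := by
  have h1 : Summable (fun i => K * (Wk.μ i + Wk.μ i * rr (Wk.ξ i) ^ 6)) :=
    (Wk.sum_one.summable.add Wk.mom6).mul_left K
  refine Summable.of_norm_bounded h1 ?_
  intro i
  rw [Real.norm_eq_abs, abs_mul, abs_of_nonneg (Wk.nonneg i)]
  calc Wk.μ i * |f i| ≤ Wk.μ i * (K * (1 + rr (Wk.ξ i) ^ 6)) :=
        mul_le_mul_of_nonneg_left (h i) (Wk.nonneg i)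
    _ = _ := by ring

lemma abs1_le (z : Z2) : |(z.1:ℝ)| ≤ rr z := by
  unfold rr; linarith [abs_nonneg (z.2:ℝ)]
lemma abs2_le (z : Z2) : |(z.2:ℝ)| ≤ rr z := by
  unfold rr; linarith [abs_nonneg (z.1:ℝ)]

lemma sq1_le (z : Z2) : (z.1:ℝ) ^ 2 ≤ rr z ^ 2 := by
  rw [← sq_abs]; exact pow_le_pow_left₀ (abs_nonneg _) (abs1_le z) 2
lemma sq2_le (z : Z2) : (z.2:ℝ) ^ 2 ≤ rr z ^ 2 := by
  rw [← sq_abs]; exact pow_le_pow_left₀ (abs_nonneg _) (abs2_le z) 2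
lemma prod_le (z : Z2) : |(z.1:ℝ) * (z.2:ℝ)| ≤ rr z ^ 2 := by
  rw [abs_mul, pow_two]
  exact mul_le_mul (abs1_le z) (abs2_le z) (abs_nonneg _) (rr_nonneg z)

lemma hasSum_A : HasSum (fun i => Wk.μ i * ((Wk.ξ i).1:ℝ) ^ 2) Wk.A := by
  apply Summable.hasSum
  apply Wk.summable_of_le 1
  intro i
  rw [abs_of_nonneg (sq_nonneg _), one_mul]
  exact (sq1_le _).trans (rr_pow_le _ 2 (by norm_num))

lemma hasSum_B : HasSum (fun i => Wk.μ i * (((Wk.ξ i).1:ℝ) * ((Wk.ξ i).2:ℝ))) Wk.B := by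
  apply Summable.hasSum
  apply Wk.summable_of_le 1
  intro i
  rw [one_mul]
  exact (prod_le _).trans (rr_pow_le _ 2 (by norm_num))

lemma hasSum_C : HasSum (fun i => Wk.μ i * ((Wk.ξ i).2:ℝ) ^ 2) Wk.C := by
  apply Summable.hasSum
  apply Wk.summable_of_le 1
  intro i
  rw [abs_of_nonneg (sq_nonneg _), one_mul]
  exact (sq2_le _).trans (rr_pow_le _ 2 (by norm_num))

/-- the covariance form is positive definite -/
lemma cov_ge (a b : ℝ) : Wk.μ Wk.rt * a ^ 2 + Wk.μ Wk.up * b ^ 2 ≤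
    Wk.A * a ^ 2 + 2 * Wk.B * a * b + Wk.C * b ^ 2 := by
  classical
  have h1 : HasSum (fun i => Wk.μ i * (a * ((Wk.ξ i).1:ℝ) + b * ((Wk.ξ i).2:ℝ)) ^ 2)
      (Wk.A * a ^ 2 + 2 * Wk.B * a * b + Wk.C * b ^ 2) := by
    have h := ((Wk.hasSum_A.mul_right (a ^ 2)).add (Wk.hasSum_B.mul_right (2 * a * b))).add
      (Wk.hasSum_C.mul_right (b ^ 2))
    exact hasSum_cg h (fun i => by ring) (by ring)
  have hne : Wk.rt ≠ Wk.up := by
    intro h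
    have := Wk.rt_ξ
    rw [h, Wk.up_ξ] at this
    simp at this
  have h2 : ∑ i ∈ ({Wk.rt, Wk.up} : Finset ι), Wk.μ i * (a * ((Wk.ξ i).1:ℝ) + b * ((Wk.ξ i).2:ℝ)) ^ 2 ≤
      Wk.A * a ^ 2 + 2 * Wk.B * a * b + Wk.C * b ^ 2 := by
    apply sum_le_hasSum _ _ h1
    intro i _
    have := Wk.nonneg i
    positivity
  rw [Finset.sum_pair hne, Wk.rt_ξ, Wk.up_ξ] at h2
  simpa using h2

lemma A_pos : 0 < Wk.A := by
  have := Wk.cov_ge 1 0
  have := Wk.rt_pos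
  nlinarith

lemma C_pos : 0 < Wk.C := by
  have := Wk.cov_ge 0 1
  have := Wk.up_pos
  nlinarith

lemma Δ_pos : 0 < Wk.Δ := by
  -- take a = -B, b = A
  have h := Wk.cov_ge (-Wk.B) Wk.A
  have hA := Wk.A_pos
  have h1 := Wk.rt_pos
  have h2 := Wk.up_pos
  have h3 : Wk.A * (-Wk.B) ^ 2 + 2 * Wk.B * (-Wk.B) * Wk.A + Wk.C * Wk.A ^ 2 = Wk.A * Wk.Δ := by
    unfold Δ; ring
  rw [h3] at h
  have h4 : 0 < Wk.A * Wk.Δ := by
    have : 0 ≤ Wk.μ Wk.rt * (-Wk.B) ^ 2 := by positivity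
    have : 0 < Wk.μ Wk.up * Wk.A ^ 2 := by positivity
    linarith
  exact (pos_iff_pos_of_mul_pos h4).mp hA

/-- lower bounds for the form -/
lemma N_ge1 (w : ℝ × ℝ) : Wk.Δ * w.1 ^ 2 ≤ Wk.A * Wk.N w := by
  have h : Wk.A * Wk.N w = Wk.Δ * w.1 ^ 2 + (Wk.A * w.2 - Wk.B * w.1) ^ 2 := by
    unfold N Δ; ring
  rw [h]; nlinarith [sq_nonneg (Wk.A * w.2 - Wk.B * w.1)]

lemma N_ge2 (w : ℝ × ℝ) : Wk.Δ * w.2 ^ 2 ≤ Wk.C * Wk.N w := by
  have h : Wk.C * Wk.N w = Wk.Δ * w.2 ^ 2 + (Wk.C * w.1 - Wk.B * w.2) ^ 2 := by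
    unfold N Δ; ring
  rw [h]; nlinarith [sq_nonneg (Wk.C * w.1 - Wk.B * w.2)]

lemma N_nonneg (w : ℝ × ℝ) : 0 ≤ Wk.N w := by
  have h1 := Wk.N_ge1 w
  have h2 := Wk.A_pos
  have h3 := Wk.Δ_pos
  by_contra hc
  push Not at hc
  have : Wk.A * Wk.N w < 0 := mul_neg_of_pos_of_neg h2 hc
  have : 0 ≤ Wk.Δ * w.1 ^ 2 := by positivity
  linarith

/-- constant in the crude bounds -/
noncomputable def K₁ : ℝ := Wk.A + Wk.C + 2 * |Wk.B|

lemma K₁_pos : 0 < Wk.K₁ := by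
  unfold K₁
  have := Wk.A_pos; have := Wk.C_pos
  positivity

/-- size of a real vector -/
def sz (w : ℝ × ℝ) : ℝ := |w.1| + |w.2|

lemma sz_nonneg (w : ℝ × ℝ) : 0 ≤ sz w := by unfold sz; positivity

lemma abs_bil_le (w : ℝ × ℝ) (v : ℝ × ℝ) : |Wk.bil w v| ≤ Wk.K₁ * sz w * sz v := by
  have hA := Wk.A_pos
  have hC := Wk.C_pos
  have hw1 := abs_nonneg w.1
  have hw2 := abs_nonneg w.2
  have hv1 := abs_nonneg v.1
  have hv2 := abs_nonneg v.2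
  have hB := abs_nonneg Wk.B
  have e1 : |Wk.bil w v| ≤ Wk.C * |w.1| * |v.1| + |Wk.B| * (|w.1| * |v.2| + |w.2| * |v.1|) +
      Wk.A * |w.2| * |v.2| := by
    unfold bil
    calc |Wk.C * w.1 * v.1 - Wk.B * (w.1 * v.2 + w.2 * v.1) + Wk.A * w.2 * v.2|
        ≤ |Wk.C * w.1 * v.1 - Wk.B * (w.1 * v.2 + w.2 * v.1)| + |Wk.A * w.2 * v.2| := abs_add_le _ _
      _ ≤ (|Wk.C * w.1 * v.1| + |Wk.B * (w.1 * v.2 + w.2 * v.1)|) + |Wk.A * w.2 * v.2| := by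
          gcongr; exact abs_sub _ _
      _ ≤ _ := by
          rw [abs_mul, abs_mul, abs_mul, abs_mul, abs_mul, abs_of_pos hA, abs_of_pos hC]
          gcongr
          calc |w.1 * v.2 + w.2 * v.1| ≤ |w.1 * v.2| + |w.2 * v.1| := abs_add_le _ _
            _ = _ := by rw [abs_mul, abs_mul]
  refine e1.trans ?_
  unfold K₁ sz
  have p1 := mul_nonneg hw1 hv1
  have p2 := mul_nonneg hw1 hv2
  have p3 := mul_nonneg hw2 hv1
  have p4 := mul_nonneg hw2 hv2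
  nlinarith [mul_nonneg hA.le p1, mul_nonneg hA.le p2, mul_nonneg hA.le p3, mul_nonneg hA.le p4,
    mul_nonneg hC.le p1, mul_nonneg hC.le p2, mul_nonneg hC.le p3, mul_nonneg hC.le p4,
    mul_nonneg hB p1, mul_nonneg hB p2, mul_nonneg hB p3, mul_nonneg hB p4]

lemma N_eq_bil (w : ℝ × ℝ) : Wk.N w = Wk.bil w w := by unfold N bil; ring

lemma N_le (w : ℝ × ℝ) : Wk.N w ≤ Wk.K₁ * sz w ^ 2 := by
  rw [N_eq_bil]
  calc Wk.bil w w ≤ |Wk.bil w w| := le_abs_self _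
    _ ≤ Wk.K₁ * sz w * sz w := Wk.abs_bil_le w w
    _ = _ := by ring

lemma sz_cst (z : Z2) : sz (cst z) = rr z := rfl

lemma N_add (w v : ℝ × ℝ) : Wk.N (w + v) = Wk.N w + (2 * Wk.bil w v + Wk.N v) := by
  unfold N bil; simp; ring

/-- third and sixth moments -/
noncomputable def m₃ : ℝ := ∑' i, Wk.μ i * rr (Wk.ξ i) ^ 3
noncomputable def m₆ : ℝ := ∑' i, Wk.μ i * rr (Wk.ξ i) ^ 6

lemma m₃_nonneg : 0 ≤ Wk.m₃ := tsum_nonneg fun i => by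
  have := Wk.nonneg i; have := rr_nonneg (Wk.ξ i); positivity
lemma m₆_nonneg : 0 ≤ Wk.m₆ := tsum_nonneg fun i => by
  have := Wk.nonneg i; have := rr_nonneg (Wk.ξ i); positivity

lemma hasSum_m₃ : HasSum (fun i => Wk.μ i * rr (Wk.ξ i) ^ 3) Wk.m₃ :=
  (Wk.summable_rr 3 (by norm_num)).hasSum
lemma hasSum_m₆ : HasSum (fun i => Wk.μ i * rr (Wk.ξ i) ^ 6) Wk.m₆ := Wk.mom6.hasSum

lemma hasSum_bil (w : ℝ × ℝ) : HasSum (fun i => Wk.μ i * Wk.bil w (cst (Wk.ξ i))) 0 := by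
  have h := (Wk.mean1.mul_right (Wk.C * w.1 - Wk.B * w.2)).add
    (Wk.mean2.mul_right (Wk.A * w.2 - Wk.B * w.1))
  exact hasSum_cg h (fun i => by simp only [bil, cst]; ring) (by ring)

lemma hasSum_bil_sq (w : ℝ × ℝ) :
    HasSum (fun i => Wk.μ i * Wk.bil w (cst (Wk.ξ i)) ^ 2) (Wk.Δ * Wk.N w) := by
  have h := ((Wk.hasSum_A.mul_right ((Wk.C * w.1 - Wk.B * w.2) ^ 2)).add
    (Wk.hasSum_B.mul_right (2 * (Wk.C * w.1 - Wk.B * w.2) * (Wk.A * w.2 - Wk.B * w.1)))).add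
    (Wk.hasSum_C.mul_right ((Wk.A * w.2 - Wk.B * w.1) ^ 2))
  exact hasSum_cg h (fun i => by simp only [bil, cst]; ring) (by unfold Δ N; ring)

lemma hasSum_N : HasSum (fun i => Wk.μ i * Wk.N (cst (Wk.ξ i))) (2 * Wk.Δ) := by
  have h := ((Wk.hasSum_A.mul_right Wk.C).add
    (Wk.hasSum_B.mul_right (-2 * Wk.B))).add
    (Wk.hasSum_C.mul_right Wk.A)
  exact hasSum_cg h (fun i => by simp only [N, cst]; ring) (by unfold Δ; ring)

/-- pointwise lower bound for the cube -/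
lemma cube_ge {g a b c d r : ℝ} (hg : 0 ≤ g) (hr : 0 ≤ r) (hd : 0 ≤ d) (hc : 0 ≤ c)
    (hb : |b| ≤ c * d * r) (ha0 : 0 ≤ a) (ha : a ≤ c * r ^ 2) :
    g ^ 3 - 3 * g ^ 2 * (2 * b + a) + 3 * g * (4 * b ^ 2 - 4 * c ^ 2 * d * r ^ 3) -
      c ^ 3 * (32 * d ^ 3 * r ^ 3 + 4 * r ^ 6) ≤ (g - (2 * b + a)) ^ 3 := by
  have hb1 := (abs_le.mp hb).1
  have hb2 := (abs_le.mp hb).2
  have e1 : 4 * b ^ 2 - 4 * c ^ 2 * d * r ^ 3 ≤ (2 * b + a) ^ 2 := by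
    have h1 : -(c ^ 2 * d * r ^ 3) ≤ b * a := by
      have h2 : |b * a| ≤ (c * d * r) * (c * r ^ 2) := by
        rw [abs_mul, abs_of_nonneg ha0]
        exact mul_le_mul hb ha ha0 (by positivity)
      have := (abs_le.mp h2).1
      nlinarith
    nlinarith [sq_nonneg a]
  have e2 : (2 * b + a) ^ 3 ≤ c ^ 3 * (32 * d ^ 3 * r ^ 3 + 4 * r ^ 6) := by
    have h1 : 2 * b + a ≤ c * r * (2 * d + r) := by nlinarith
    have h2 : (2 * b + a) ^ 3 ≤ (c * r * (2 * d + r)) ^ 3 := by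
      exact (Odd.strictMono_pow (by decide : Odd 3)).monotone h1
    refine h2.trans ?_
    have h3 : (2 * d + r) ^ 3 ≤ 4 * ((2 * d) ^ 3 + r ^ 3) := by
      nlinarith [mul_nonneg (by linarith : 0 ≤ 2 * d + r) (sq_nonneg (2 * d - r))]
    calc (c * r * (2 * d + r)) ^ 3 = c ^ 3 * r ^ 3 * (2 * d + r) ^ 3 := by ring
      _ ≤ c ^ 3 * r ^ 3 * (4 * ((2 * d) ^ 3 + r ^ 3)) := by gcongr
      _ = _ := by ring
  have e3 : (g - (2 * b + a)) ^ 3 = g ^ 3 - 3 * g ^ 2 * (2 * b + a) + 3 * g * (2 * b + a) ^ 2 -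
      (2 * b + a) ^ 3 := by ring
  rw [e3]
  have e4 := mul_le_mul_of_nonneg_left e1 (by positivity : 0 ≤ 3 * g)
  linarith

/-- explicit lower bound for the mean of the cube -/
noncomputable def lowB (g : ℝ) (w : ℝ × ℝ) : ℝ :=
  g ^ 3 - 6 * Wk.Δ * g ^ 2 + 12 * g * (Wk.Δ * Wk.N w) - 12 * g * Wk.K₁ ^ 2 * sz w * Wk.m₃ -
    Wk.K₁ ^ 3 * (32 * sz w ^ 3 * Wk.m₃ + 4 * Wk.m₆)

lemma ofReal_le_tsum {f h : ι → ℝ} {s : ℝ} (hs : HasSum (fun i => Wk.μ i * f i) s)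
    (hf : ∀ i, f i ≤ h i) :
    ENNReal.ofReal s ≤ ∑' i, ENNReal.ofReal (Wk.μ i) * ENNReal.ofReal (h i) := by
  -- positive part of `f`
  have h1 : ∀ i, ENNReal.ofReal (Wk.μ i) * ENNReal.ofReal (f i) ≤
      ENNReal.ofReal (Wk.μ i) * ENNReal.ofReal (h i) := fun i => by
    gcongr; exact hf i
  refine le_trans ?_ (ENNReal.tsum_le_tsum h1)
  have hsum := hs.summable
  have hpos : Summable (fun i => Wk.μ i * max (f i) 0) := by
    have h2 := hsum.abs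
    refine Summable.of_nonneg_of_le (fun i => mul_nonneg (Wk.nonneg i) (le_max_right _ _)) ?_ h2
    intro i
    rw [abs_mul, abs_of_nonneg (Wk.nonneg i)]
    apply mul_le_mul_of_nonneg_left _ (Wk.nonneg i)
    exact max_le (le_abs_self _) (abs_nonneg _)
  have h3 : s ≤ ∑' i, Wk.μ i * max (f i) 0 := by
    rw [← hs.tsum_eq]
    apply hsum.tsum_le_tsum _ hpos
    intro i
    exact mul_le_mul_of_nonneg_left (le_max_left _ _) (Wk.nonneg i)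
  refine (ENNReal.ofReal_le_ofReal h3).trans ?_
  rw [ENNReal.ofReal_tsum_of_nonneg (fun i => mul_nonneg (Wk.nonneg i) (le_max_right _ _)) hpos]
  refine ENNReal.tsum_le_tsum fun i => ?_
  rw [ENNReal.ofReal_mul (Wk.nonneg i)]
  have h4 : ENNReal.ofReal (max (f i) 0) = ENNReal.ofReal (f i) := by
    rcases le_total (f i) 0 with h | h
    · rw [max_eq_right h, ENNReal.ofReal_zero, ENNReal.ofReal_of_nonpos h]
    · rw [max_eq_left h]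
  rw [h4]

/-- one step estimate -/
lemma one_step {g E₀ : ℝ} (hg : 0 ≤ g) (w : ℝ × ℝ) :
    ENNReal.ofReal (Wk.lowB g w - E₀) ≤
      ∑' i, ENNReal.ofReal (Wk.μ i) *
        ENNReal.ofReal ((g + Wk.N w - Wk.N (w + cst (Wk.ξ i))) ^ 3 - E₀) := by
  have hs : HasSum (fun i => Wk.μ i * (g ^ 3 - 3 * g ^ 2 * (2 * Wk.bil w (cst (Wk.ξ i)) +
      Wk.N (cst (Wk.ξ i))) + 3 * g * (4 * Wk.bil w (cst (Wk.ξ i)) ^ 2 -
      4 * Wk.K₁ ^ 2 * sz w * rr (Wk.ξ i) ^ 3) -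
      Wk.K₁ ^ 3 * (32 * sz w ^ 3 * rr (Wk.ξ i) ^ 3 + 4 * rr (Wk.ξ i) ^ 6) - E₀))
      (Wk.lowB g w - E₀) := by
    have h := ((((((Wk.sum_one.mul_right (g ^ 3 - E₀)).add
      ((Wk.hasSum_bil w).mul_right (-(6 * g ^ 2)))).add
      (Wk.hasSum_N.mul_right (-(3 * g ^ 2)))).add
      ((Wk.hasSum_bil_sq w).mul_right (12 * g))).add
      (Wk.hasSum_m₃.mul_right (-(12 * g * Wk.K₁ ^ 2 * sz w) - Wk.K₁ ^ 3 * 32 * sz w ^ 3))).add
      (Wk.hasSum_m₆.mul_right (-(4 * Wk.K₁ ^ 3))))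
    exact hasSum_cg h (fun i => by ring) (by unfold lowB; ring)
  apply Wk.ofReal_le_tsum hs
  intro i
  have h1 := cube_ge (g := g) (a := Wk.N (cst (Wk.ξ i))) (b := Wk.bil w (cst (Wk.ξ i)))
    (c := Wk.K₁) (d := sz w) (r := rr (Wk.ξ i)) hg (rr_nonneg _) (sz_nonneg _) Wk.K₁_pos.le
    (Wk.abs_bil_le w (cst (Wk.ξ i))) (Wk.N_nonneg _) (Wk.N_le (cst (Wk.ξ i)))
  rw [Wk.N_add]
  have e : g + Wk.N w - (Wk.N w + (2 * Wk.bil w (cst (Wk.ξ i)) + Wk.N (cst (Wk.ξ i)))) =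
      g - (2 * Wk.bil w (cst (Wk.ξ i)) + Wk.N (cst (Wk.ξ i))) := by ring
  rw [e]
  linarith

end Walk

end Pool.Agent.TwoLIS
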