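import Pool.Agent.TwoLIS.WalkA

/-!
Contraction lemma: from a ball of radius `0.9 R` to a ball of radius `0.75 R` in `~ R ^ 2` steps.
-/

namespace Pool.Agent.TwoLIS

open scoped ENNReal
open Filter Topology

lemma alg_ineq {Δ e₁ e₂ : ℝ} (hΔ : 0 < Δ) (he₁ : 0 ≤ e₁) (he₂ : 0 ≤ e₂) :
    ∃ l C : ℝ, 0 < l ∧ 0 < C ∧ ∀ᶠ R : ℝ in atTop, ∀ ρ' g : ℝ, R ^ 2 / 2 ≤ ρ' → g ≤ ρ' →
      C * R < g + Δ / 3 →
      (1 - l / R ^ 2) * ((g + Δ / 3) ^ 3 - (C * R) ^ 3) ≤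
        g ^ 3 - 6 * Δ * g ^ 2 + 12 * g * (Δ * (ρ' - g)) - e₁ * g * R - e₂ * R ^ 3 - (C * R) ^ 3 := by
  set c₀ : ℝ := Δ / 3 with hc₀
  set l : ℝ := 4 * (7 * Δ + 3) with hl
  set C : ℝ := 8 * e₂ / Δ + 1 with hC
  have hl0 : 0 < l := by positivity
  have hC0 : 0 < C := by positivity
  have hc0 : 0 < c₀ := by positivity
  have hCe : 8 * e₂ ≤ C * Δ := by
    rw [hC]; rw [add_mul, div_mul_cancel₀ _ hΔ.ne']; linarith
  refine ⟨l, C, hl0, hC0, ?_⟩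
  have t1 : Tendsto (fun R : ℝ => R) atTop atTop := tendsto_id
  have r1 : ∀ᶠ R : ℝ in atTop, 1 ≤ R := eventually_ge_atTop 1
  have r2 : ∀ᶠ R : ℝ in atTop, 2 * c₀ / C ≤ R := eventually_ge_atTop _
  have r3 : ∀ᶠ R : ℝ in atTop, 4 * e₁ / Δ ≤ R := eventually_ge_atTop _
  have r4 : ∀ᶠ R : ℝ in atTop, 12 * c₀ ^ 2 / Δ ≤ R := eventually_ge_atTop _
  have r5 : ∀ᶠ R : ℝ in atTop, 8 * (c₀ ^ 3 + l * C ^ 3) / (Δ * C) ≤ R := eventually_ge_atTop _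
  have r6 : ∀ᶠ R : ℝ in atTop, 4 * (3 * c₀ ^ 2 + e₁) ≤ R := eventually_ge_atTop _
  have r7 : ∀ᶠ R : ℝ in atTop, 16 * (c₀ ^ 3 + l * C ^ 3 + e₂) ≤ R := eventually_ge_atTop _
  filter_upwards [r1, r2, r3, r4, r5, r6, r7] with R r1 r2 r3 r4 r5 r6 r7
  intro ρ' g hρ hgρ hg
  have hR0 : 0 < R := by linarith
  rw [div_le_iff₀ hC0] at r2
  rw [div_le_iff₀ hΔ] at r3 r4
  rw [div_le_iff₀ (by positivity)] at r5
  have hg1 : C * R / 2 ≤ g := by linarith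
  have hg0 : 0 < g := by
    have : 0 < C * R / 2 := by positivity
    linarith
  have hR2 : R ≤ R ^ 2 := by nlinarith
  have hR3 : R ^ 2 ≤ R ^ 3 := by nlinarith [sq_nonneg R]
  have hR4 : R ^ 3 ≤ R ^ 4 := by
    have : 0 < R ^ 3 := by positivity
    nlinarith
  -- reduce
  have key : 3 * c₀ * g ^ 2 + 3 * c₀ ^ 2 * g + c₀ ^ 3 - l / R ^ 2 * g ^ 3 + l * C ^ 3 * R +
      6 * Δ * g ^ 2 + e₁ * g * R + e₂ * R ^ 3 ≤ 12 * g * (Δ * (ρ' - g)) := by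
    by_cases hcase : g ≤ R ^ 2 / 4
    · have hΔg : 0 < Δ * g := by positivity
      have hΔgR : 0 ≤ Δ * g * R ^ 2 := by positivity
      have h1 : R ^ 2 / 4 ≤ ρ' - g := by linarith
      have h2 : 12 * (Δ * g) * (R ^ 2 / 4) ≤ 12 * (Δ * g) * (ρ' - g) := by gcongr
      have h3 : 0 ≤ l / R ^ 2 * g ^ 3 := by positivity
      have h4 : (7 * Δ) * (g * g) ≤ (7 * Δ) * (g * (R ^ 2 / 4)) := by gcongr
      have h4' : 3 * c₀ * g ^ 2 + 6 * Δ * g ^ 2 = (7 * Δ) * (g * g) := by rw [hc₀]; ring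
      have h5 : 12 * c₀ ^ 2 * g ≤ Δ * g * R ^ 2 := by
        have : 12 * c₀ ^ 2 ≤ R ^ 2 * Δ := r4.trans (by gcongr)
        calc 12 * c₀ ^ 2 * g ≤ R ^ 2 * Δ * g := by gcongr
          _ = _ := by ring
      have h6 : 4 * (e₁ * g * R) ≤ Δ * g * R ^ 2 := by
        calc 4 * (e₁ * g * R) = 4 * e₁ * (g * R) := by ring
          _ ≤ R * Δ * (g * R) := by gcongr
          _ = _ := by ring
      have hCg : Δ * (C * R / 2) * R ^ 2 ≤ Δ * g * R ^ 2 := by gcongr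
      have h7 : 4 * (e₂ * R ^ 3) ≤ Δ * g * R ^ 2 := by
        refine le_trans ?_ hCg
        calc 4 * (e₂ * R ^ 3) = (8 * e₂) * (R ^ 3 / 2) := by ring
          _ ≤ (C * Δ) * (R ^ 3 / 2) := by gcongr
          _ = _ := by ring
      have h8 : 4 * (c₀ ^ 3 + l * C ^ 3 * R) ≤ Δ * g * R ^ 2 := by
        refine le_trans ?_ hCg
        have e2 : c₀ ^ 3 + l * C ^ 3 * R ≤ (c₀ ^ 3 + l * C ^ 3) * R := by
          have : c₀ ^ 3 * 1 ≤ c₀ ^ 3 * R := by gcongr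
          linarith
        calc 4 * (c₀ ^ 3 + l * C ^ 3 * R) ≤ 4 * ((c₀ ^ 3 + l * C ^ 3) * R) := by gcongr
          _ = (8 * (c₀ ^ 3 + l * C ^ 3)) * (R / 2) := by ring
          _ ≤ (R * (Δ * C)) * (R / 2) := by gcongr
          _ = (Δ * C / 2) * R ^ 2 := by ring
          _ ≤ (Δ * C / 2) * R ^ 3 := by gcongr
          _ = _ := by ring
      linarith
    · push Not at hcase
      have h1 : 0 ≤ 12 * g * (Δ * (ρ' - g)) := by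
        have : 0 ≤ ρ' - g := by linarith
        positivity
      have h2 : (7 * Δ + 3) * g ^ 2 ≤ l / R ^ 2 * g ^ 3 := by
        rw [hl, div_mul_eq_mul_div, le_div_iff₀ (by positivity)]
        have : (7 * Δ + 3) * g ^ 2 * R ^ 2 ≤ (7 * Δ + 3) * g ^ 2 * (4 * g) := by
          gcongr; linarith
        calc (7 * Δ + 3) * g ^ 2 * R ^ 2 ≤ (7 * Δ + 3) * g ^ 2 * (4 * g) := this
          _ = _ := by ring
      have h3 : 3 * c₀ * g ^ 2 + 6 * Δ * g ^ 2 = 7 * Δ * g ^ 2 := by rw [hc₀]; ring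
      have h4 : 3 * c₀ ^ 2 * g + e₁ * g * R ≤ g ^ 2 := by
        have e1 : 3 * c₀ ^ 2 + e₁ * R ≤ (3 * c₀ ^ 2 + e₁) * R := by
          have : 3 * c₀ ^ 2 * 1 ≤ 3 * c₀ ^ 2 * R := by gcongr
          linarith
        have e2 : (3 * c₀ ^ 2 + e₁) * R ≤ R ^ 2 / 4 := by
          have : 4 * (3 * c₀ ^ 2 + e₁) * R ≤ R * R := by gcongr
          linarith
        have e3 : 3 * c₀ ^ 2 + e₁ * R ≤ g := by linarith
        calc 3 * c₀ ^ 2 * g + e₁ * g * R = (3 * c₀ ^ 2 + e₁ * R) * g := by ring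
          _ ≤ g * g := by gcongr
          _ = _ := by ring
      have h5 : c₀ ^ 3 + l * C ^ 3 * R + e₂ * R ^ 3 ≤ g ^ 2 := by
        have e1 : c₀ ^ 3 + l * C ^ 3 * R + e₂ * R ^ 3 ≤ (c₀ ^ 3 + l * C ^ 3 + e₂) * R ^ 3 := by
          have q1 : c₀ ^ 3 * 1 ≤ c₀ ^ 3 * R ^ 3 := by
            gcongr; linarith
          have q2 : l * C ^ 3 * R ≤ l * C ^ 3 * R ^ 3 := by
            gcongr; linarith
          linarith
        have e2 : (c₀ ^ 3 + l * C ^ 3 + e₂) * R ^ 3 ≤ R ^ 4 / 16 := by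
          have : 16 * (c₀ ^ 3 + l * C ^ 3 + e₂) * R ^ 3 ≤ R * R ^ 3 := by gcongr
          have e4 : R * R ^ 3 = R ^ 4 := by ring
          linarith
        have e3 : R ^ 4 / 16 ≤ g ^ 2 := by
          have : (R ^ 2 / 4) ^ 2 ≤ g ^ 2 := by gcongr
          calc R ^ 4 / 16 = (R ^ 2 / 4) ^ 2 := by ring
            _ ≤ _ := this
        linarith
      have h6 : 0 ≤ g ^ 2 := sq_nonneg g
      linarith
  have hexp : (1 - l / R ^ 2) * ((g + c₀) ^ 3 - (C * R) ^ 3) =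
      (g + c₀) ^ 3 - (C * R) ^ 3 - l / R ^ 2 * (g + c₀) ^ 3 + l * C ^ 3 * R := by
    field_simp
    ring
  have hmono : l / R ^ 2 * g ^ 3 ≤ l / R ^ 2 * (g + c₀) ^ 3 := by
    gcongr; linarith
  rw [hexp]
  have hcube : (g + c₀) ^ 3 = g ^ 3 + 3 * c₀ * g ^ 2 + 3 * c₀ ^ 2 * g + c₀ ^ 3 := by ring
  linarith

namespace Walk

variable {ι : Type*} (Wk : Walk ι)

/-- constant in the contraction -/
noncomputable def c₀ : ℝ := Wk.Δ / 3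

lemma c₀_pos : 0 < Wk.c₀ := by unfold c₀; have := Wk.Δ_pos; positivity

lemma sz_le (w : ℝ × ℝ) (R : ℝ) (hR : 0 ≤ R) (h : Wk.N w ≤ R ^ 2) :
    sz w ≤ (Real.sqrt (Wk.A / Wk.Δ) + Real.sqrt (Wk.C / Wk.Δ)) * R := by
  have hΔ := Wk.Δ_pos
  have hA := Wk.A_pos
  have hC := Wk.C_pos
  have h1 : |w.1| ≤ Real.sqrt (Wk.A / Wk.Δ) * R := by
    apply abs_le_of_sq_le_sq _ (by positivity)
    rw [mul_pow, Real.sq_sqrt (by positivity), div_mul_eq_mul_div, le_div_iff₀ hΔ]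
    have := Wk.N_ge1 w
    nlinarith
  have h2 : |w.2| ≤ Real.sqrt (Wk.C / Wk.Δ) * R := by
    apply abs_le_of_sq_le_sq _ (by positivity)
    rw [mul_pow, Real.sq_sqrt (by positivity), div_mul_eq_mul_div, le_div_iff₀ hΔ]
    have := Wk.N_ge2 w
    nlinarith
  unfold sz
  linarith

/-- **One step of the contraction** -/
lemma step_contr : ∃ l C : ℝ, 0 < l ∧ 0 < C ∧ ∀ᶠ R : ℝ in atTop, ∀ (ρ' : ℝ) (w : ℝ × ℝ),
    R ^ 2 / 2 ≤ ρ' → ρ' + Wk.c₀ ≤ R ^ 2 →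
    ENNReal.ofReal ((1 - l / R ^ 2) * ((ρ' + Wk.c₀ - Wk.N w) ^ 3 - (C * R) ^ 3)) ≤
      ∑' i, ENNReal.ofReal (Wk.μ i) *
        ENNReal.ofReal ((ρ' - Wk.N (w + cst (Wk.ξ i))) ^ 3 - (C * R) ^ 3) := by
  set S := Real.sqrt (Wk.A / Wk.Δ) + Real.sqrt (Wk.C / Wk.Δ) with hS
  have hS0 : 0 ≤ S := by positivity
  have hK := Wk.K₁_pos
  have hm3 := Wk.m₃_nonneg
  have hm6 := Wk.m₆_nonneg
  set e₁ : ℝ := 12 * Wk.K₁ ^ 2 * S * Wk.m₃ with he₁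
  set e₂ : ℝ := Wk.K₁ ^ 3 * (32 * S ^ 3 * Wk.m₃ + 4 * Wk.m₆) with he₂
  obtain ⟨l, C, hl, hC, hev⟩ := alg_ineq (Δ := Wk.Δ) (e₁ := e₁) (e₂ := e₂) Wk.Δ_pos
    (by positivity) (by positivity)
  refine ⟨l, C, hl, hC, ?_⟩
  filter_upwards [hev, eventually_ge_atTop 1, eventually_ge_atTop (Wk.c₀ / C),
    eventually_ge_atTop l] with R hR h1 h2 h3
  intro ρ' w hρ1 hρ2
  have hR0 : 0 < R := by linarith
  have hl1 : 0 ≤ 1 - l / R ^ 2 := by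
    have : l / R ^ 2 ≤ 1 := by
      rw [div_le_one (by positivity)]; nlinarith
    linarith
  by_cases hb : (ρ' + Wk.c₀ - Wk.N w) ^ 3 ≤ (C * R) ^ 3
  · rw [ENNReal.ofReal_of_nonpos]
    · exact bot_le
    · exact mul_nonpos_of_nonneg_of_nonpos hl1 (by linarith)
  · push Not at hb
    set g : ℝ := ρ' - Wk.N w with hg
    have hb' : C * R < g + Wk.Δ / 3 := by
      have h4 : (C * R) ^ 3 < (g + Wk.Δ / 3) ^ 3 := by
        have : ρ' + Wk.c₀ - Wk.N w = g + Wk.Δ / 3 := by rw [hg, c₀]; ring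
        rwa [this] at hb
      exact (Odd.strictMono_pow (by decide : Odd 3)).lt_iff_lt.mp h4
    have hg0 : 0 ≤ g := by
      rw [div_le_iff₀ hC] at h2
      have : Wk.c₀ = Wk.Δ / 3 := rfl
      linarith
    have hN0 := Wk.N_nonneg w
    have hgρ : g ≤ ρ' := by rw [hg]; linarith
    have hNR : Wk.N w ≤ R ^ 2 := by
      have := Wk.c₀_pos
      linarith
    have hsz := Wk.sz_le w R hR0.le hNR
    rw [← hS] at hsz
    have hsz0 := sz_nonneg w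
    have h4 := hR ρ' g hρ1 hgρ hb'
    have h5 := Wk.one_step (E₀ := (C * R) ^ 3) hg0 w
    have h6 : (1 - l / R ^ 2) * ((ρ' + Wk.c₀ - Wk.N w) ^ 3 - (C * R) ^ 3) ≤
        Wk.lowB g w - (C * R) ^ 3 := by
      have e1 : ρ' + Wk.c₀ - Wk.N w = g + Wk.Δ / 3 := by rw [hg, c₀]; ring
      rw [e1]
      refine h4.trans ?_
      unfold lowB
      have e2 : Wk.N w = ρ' - g := by rw [hg]; ring
      rw [e2]
      have e3 : 12 * g * Wk.K₁ ^ 2 * sz w * Wk.m₃ ≤ e₁ * g * R := by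
        calc 12 * g * Wk.K₁ ^ 2 * sz w * Wk.m₃ ≤ 12 * g * Wk.K₁ ^ 2 * (S * R) * Wk.m₃ := by gcongr
          _ = _ := by rw [he₁]; ring
      have e4 : Wk.K₁ ^ 3 * (32 * sz w ^ 3 * Wk.m₃ + 4 * Wk.m₆) ≤ e₂ * R ^ 3 := by
        have f1 : (1:ℝ) ≤ R ^ 3 := one_le_pow₀ h1
        calc Wk.K₁ ^ 3 * (32 * sz w ^ 3 * Wk.m₃ + 4 * Wk.m₆) ≤
            Wk.K₁ ^ 3 * (32 * (S * R) ^ 3 * Wk.m₃ + 4 * Wk.m₆ * R ^ 3) := by
              have f2 : 4 * Wk.m₆ * 1 ≤ 4 * Wk.m₆ * R ^ 3 := by gcongr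
              have f3 : 32 * sz w ^ 3 * Wk.m₃ ≤ 32 * (S * R) ^ 3 * Wk.m₃ := by gcongr
              have f4 : 32 * sz w ^ 3 * Wk.m₃ + 4 * Wk.m₆ ≤
                32 * (S * R) ^ 3 * Wk.m₃ + 4 * Wk.m₆ * R ^ 3 := by linarith
              gcongr
          _ = _ := by rw [he₂]; ring
      linarith
    have e5 : ∀ i, g + Wk.N w - Wk.N (w + cst (Wk.ξ i)) = ρ' - Wk.N (w + cst (Wk.ξ i)) := by
      intro i; rw [hg]; ring
    simp only [e5] at h5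
    exact (ENNReal.ofReal_le_ofReal h6).trans h5

end Walk

end Pool.Agent.TwoLIS
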