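import Pool.Agent.TwoLIS.WalkB

/-!
Iterated contraction.
-/

namespace Pool.Agent.TwoLIS

open scoped ENNReal
open Filter Topology

namespace Walk

lemma cst_add (z z' : Z2) : cst (z + z') = cst z + cst z' := by
  simp [cst]

variable {ι : Type*} (Wk : Walk ι)

lemma iter {l C R : ℝ} (hR0 : 0 < R) (hC : 0 ≤ C) (hl : 0 ≤ 1 - l / R ^ 2)
    (hstep : ∀ (ρ' : ℝ) (w : ℝ × ℝ), R ^ 2 / 2 ≤ ρ' → ρ' + Wk.c₀ ≤ R ^ 2 →
      ENNReal.ofReal ((1 - l / R ^ 2) * ((ρ' + Wk.c₀ - Wk.N w) ^ 3 - (C * R) ^ 3)) ≤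
      ∑' i, ENNReal.ofReal (Wk.μ i) *
        ENNReal.ofReal ((ρ' - Wk.N (w + cst (Wk.ξ i))) ^ 3 - (C * R) ^ 3))
    (y : ℝ × ℝ) (hball : ∀ z : Z2, Wk.N (cst z - y) ≤ R ^ 2 → Quad z) (m : ℕ) (ρT : ℝ)
    (h1 : R ^ 2 / 2 ≤ ρT) (h2 : ρT + Wk.c₀ * m ≤ R ^ 2) (z : Z2) :
    ENNReal.ofReal ((1 - l / R ^ 2) ^ m *
      ((ρT + Wk.c₀ * m - Wk.N (cst z - y)) ^ 3 - (C * R) ^ 3)) ≤
      Wk.W m (fun z => ENNReal.ofReal ((ρT - Wk.N (cst z - y)) ^ 3 - (C * R) ^ 3)) z := by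
  induction m generalizing z with
  | zero => simp [W]
  | succ m ih =>
    have hc0 := Wk.c₀_pos
    push_cast at h2
    have h2' : ρT + Wk.c₀ * m ≤ R ^ 2 := by linarith
    have h3 : R ^ 2 / 2 ≤ ρT + Wk.c₀ * m := by
      have : 0 ≤ Wk.c₀ * m := by positivity
      linarith
    have h4 := hstep (ρT + Wk.c₀ * m) (cst z - y) h3 (by linarith)
    have e1 : ρT + Wk.c₀ * ((m + 1 : ℕ) : ℝ) = ρT + Wk.c₀ * m + Wk.c₀ := by push_cast; ring
    rw [e1, pow_succ, mul_assoc, ENNReal.ofReal_mul (pow_nonneg hl m)]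
    calc ENNReal.ofReal ((1 - l / R ^ 2) ^ m) *
          ENNReal.ofReal ((1 - l / R ^ 2) *
            ((ρT + Wk.c₀ * m + Wk.c₀ - Wk.N (cst z - y)) ^ 3 - (C * R) ^ 3))
        ≤ ENNReal.ofReal ((1 - l / R ^ 2) ^ m) * ∑' i, ENNReal.ofReal (Wk.μ i) *
          ENNReal.ofReal ((ρT + Wk.c₀ * m - Wk.N (cst z - y + cst (Wk.ξ i))) ^ 3 - (C * R) ^ 3) := by
          gcongr
      _ ≤ _ := by
          rw [← ENNReal.tsum_mul_left]
          simp only [W]
          refine ENNReal.tsum_le_tsum fun i => ?_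
          have e2 : cst z - y + cst (Wk.ξ i) = cst (z + Wk.ξ i) - y := by
            rw [cst_add]; abel
          rw [e2, mul_left_comm, ← ENNReal.ofReal_mul (pow_nonneg hl m)]
          gcongr
          split_ifs with hq
          · exact ih h2' _
          · have h5 : R ^ 2 < Wk.N (cst (z + Wk.ξ i) - y) := by
              by_contra hc
              exact hq (hball _ (not_lt.mp hc))
            rw [ENNReal.ofReal_of_nonpos]
            apply mul_nonpos_of_nonneg_of_nonpos (pow_nonneg hl m)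
            have h6 : (ρT + Wk.c₀ * m - Wk.N (cst (z + Wk.ξ i) - y)) ^ 3 ≤ 0 := by
              apply Odd.pow_nonpos (by decide)
              linarith
            have h7 : 0 ≤ (C * R) ^ 3 := by positivity
            linarith

/-- number of steps of a contraction at scale `R` -/
noncomputable def Tm (R : ℝ) : ℕ := ⌊R ^ 2 / (2 * Wk.c₀)⌋₊

lemma one_sub_ge_exp {x : ℝ} (h0 : 0 ≤ x) (h1 : x ≤ 1 / 2) : Real.exp (-(2 * x)) ≤ 1 - x := by
  have h2 : 1 + 2 * x ≤ Real.exp (2 * x) := by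
    have := Real.add_one_le_exp (2 * x); linarith
  have h3 : 0 < Real.exp (2 * x) := Real.exp_pos _
  rw [Real.exp_neg, inv_le_comm₀ h3 (by linarith)]
  refine le_trans ?_ h2
  rw [inv_le_comm₀ (by linarith) (by linarith), inv_le_comm₀ (by linarith) (by linarith)]
  rw [inv_le_iff_one_le_mul₀ (by linarith)]
  nlinarith

/-- **Contraction lemma** -/
theorem contraction : ∃ c : ℝ, 0 < c ∧ c ≤ 1 ∧ ∀ᶠ R : ℝ in atTop, ∀ y : ℝ × ℝ,
    (∀ z : Z2, Wk.N (cst z - y) ≤ R ^ 2 → Quad z) → ∀ z : Z2, Wk.N (cst z - y) ≤ 0.81 * R ^ 2 →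
    ∀ (g : Z2 → ℝ≥0∞) (a : ℝ≥0∞),
      (∀ z', Quad z' → Wk.N (cst z' - y) ≤ 0.55 * R ^ 2 → a ≤ g z') →
      ENNReal.ofReal c * a ≤ Wk.W (Wk.Tm R) g z := by
  obtain ⟨l, C, hl, hC, hev⟩ := Wk.step_contr
  have hc0 := Wk.c₀_pos
  refine ⟨Real.exp (-(l / Wk.c₀)) * 0.006, by positivity, ?_, ?_⟩
  · have : Real.exp (-(l / Wk.c₀)) ≤ 1 := by
      apply Real.exp_le_one_iff.mpr
      have : 0 ≤ l / Wk.c₀ := by positivity
      linarith
    linarith
  filter_upwards [hev, eventually_ge_atTop 1, eventually_ge_atTop (2 * l),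
    eventually_ge_atTop (20 * Wk.c₀), eventually_ge_atTop (2000 * C ^ 3)] with R hR r1 r2 r3 r4
  intro y hball z hz g a hg
  have hR0 : 0 < R := by linarith
  have hRR : R ≤ R ^ 2 := by nlinarith
  have hx : l / R ^ 2 ≤ 1 / 2 := by
    rw [div_le_iff₀ (by positivity)]; linarith
  have hx0 : 0 ≤ l / R ^ 2 := by positivity
  have hθ : 0 ≤ 1 - l / R ^ 2 := by linarith
  set T := Wk.Tm R with hT
  have hT1 : Wk.c₀ * T ≤ R ^ 2 / 2 := by
    have h1 : (T:ℝ) ≤ R ^ 2 / (2 * Wk.c₀) := by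
      rw [hT, Tm]; exact Nat.floor_le (by positivity)
    calc Wk.c₀ * T ≤ Wk.c₀ * (R ^ 2 / (2 * Wk.c₀)) := by gcongr
      _ = _ := by field_simp
  have hT2 : R ^ 2 / 2 - Wk.c₀ ≤ Wk.c₀ * T := by
    have h1 : R ^ 2 / (2 * Wk.c₀) < T + 1 := by
      rw [hT, Tm]; exact Nat.lt_floor_add_one _
    have h2 : Wk.c₀ * (R ^ 2 / (2 * Wk.c₀)) ≤ Wk.c₀ * (T + 1) := by gcongr
    have h3 : Wk.c₀ * (R ^ 2 / (2 * Wk.c₀)) = R ^ 2 / 2 := by field_simp
    linarith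
  set ρT : ℝ := R ^ 2 - Wk.c₀ * T with hρT
  have h1 := Wk.iter hR0 hC.le hθ hR y hball T ρT (by linarith) (by linarith) z
  have e1 : ρT + Wk.c₀ * T = R ^ 2 := by rw [hρT]; ring
  rw [e1] at h1
  -- upper bound for the final function
  set G : Z2 → ℝ≥0∞ := fun z => ENNReal.ofReal ((ρT - Wk.N (cst z - y)) ^ 3 - (C * R) ^ 3) with hG
  have hGle : ∀ z', Quad z' → a * G z' ≤ ENNReal.ofReal (R ^ 6) * g z' := by
    intro z' hq
    by_cases hc : Wk.N (cst z' - y) ≤ 0.55 * R ^ 2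
    · have h2 : G z' ≤ ENNReal.ofReal (R ^ 6) := by
        rw [hG]
        apply ENNReal.ofReal_le_ofReal
        have h3 := Wk.N_nonneg (cst z' - y)
        have h4 : (ρT - Wk.N (cst z' - y)) ^ 3 ≤ (R ^ 2) ^ 3 := by
          apply (Odd.strictMono_pow (by decide : Odd 3)).monotone
          have : 0 ≤ Wk.c₀ * T := by positivity
          linarith
        have h5 : (0:ℝ) ≤ (C * R) ^ 3 := by positivity
        have h6 : (R ^ 2) ^ 3 = R ^ 6 := by ring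
        linarith
      calc a * G z' ≤ g z' * ENNReal.ofReal (R ^ 6) := mul_le_mul' (hg z' hq hc) h2
        _ = _ := mul_comm _ _
    · push Not at hc
      have h2 : G z' = 0 := by
        rw [hG]
        apply ENNReal.ofReal_of_nonpos
        have h4 : (ρT - Wk.N (cst z' - y)) ^ 3 ≤ 0 := by
          apply Odd.pow_nonpos (by decide)
          nlinarith
        have h5 : (0:ℝ) ≤ (C * R) ^ 3 := by positivity
        linarith
      rw [h2]; simp
  have h2 : a * Wk.W T G z ≤ ENNReal.ofReal (R ^ 6) * Wk.W T g z := by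
    rw [← W_mul, ← W_mul]
    exact Wk.W_mono T hGle z (hball z (hz.trans (by nlinarith)))
  -- lower bound
  have hθT : Real.exp (-(l / Wk.c₀)) ≤ (1 - l / R ^ 2) ^ T := by
    have h3 := one_sub_ge_exp hx0 hx
    have h4 : Real.exp (-(2 * (l / R ^ 2))) ^ T ≤ (1 - l / R ^ 2) ^ T :=
      pow_le_pow_left₀ (Real.exp_pos _).le h3 T
    refine le_trans ?_ h4
    rw [← Real.exp_nat_mul, Real.exp_le_exp]
    have h5 : (T:ℝ) ≤ R ^ 2 / (2 * Wk.c₀) := by
      rw [le_div_iff₀ (by positivity)]; linarith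
    have h6 : (T:ℝ) * (2 * (l / R ^ 2)) ≤ R ^ 2 / (2 * Wk.c₀) * (2 * (l / R ^ 2)) := by gcongr
    have h7 : R ^ 2 / (2 * Wk.c₀) * (2 * (l / R ^ 2)) = l / Wk.c₀ := by field_simp
    linarith
  have hcube : 0.006 * R ^ 6 ≤ (R ^ 2 - Wk.N (cst z - y)) ^ 3 - (C * R) ^ 3 := by
    have h3 : (0.19 * R ^ 2) ^ 3 ≤ (R ^ 2 - Wk.N (cst z - y)) ^ 3 := by
      apply (Odd.strictMono_pow (by decide : Odd 3)).monotone
      linarith
    have h4 : (C * R) ^ 3 ≤ 0.0005 * R ^ 6 := by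
      have h5 : R * R ^ 3 ≤ R ^ 6 := by
        have : (1:ℝ) ≤ R ^ 2 := by nlinarith
        have h6 : R * R ^ 3 * 1 ≤ R * R ^ 3 * R ^ 2 := by gcongr
        calc R * R ^ 3 = R * R ^ 3 * 1 := by ring
          _ ≤ _ := h6
          _ = _ := by ring
      calc (C * R) ^ 3 = 0.0005 * (2000 * C ^ 3 * R ^ 3) := by ring
        _ ≤ 0.0005 * (R * R ^ 3) := by gcongr
        _ ≤ _ := by gcongr
    have h5 : (0.19 * R ^ 2) ^ 3 = 0.006859 * R ^ 6 := by ring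
    have h6 : 0 ≤ R ^ 6 := by positivity
    linarith
  have h3 : ENNReal.ofReal (Real.exp (-(l / Wk.c₀)) * 0.006) * ENNReal.ofReal (R ^ 6) ≤
      Wk.W T G z := by
    refine le_trans ?_ h1
    rw [← ENNReal.ofReal_mul (by positivity)]
    apply ENNReal.ofReal_le_ofReal
    calc Real.exp (-(l / Wk.c₀)) * 0.006 * R ^ 6 = Real.exp (-(l / Wk.c₀)) * (0.006 * R ^ 6) := by ring
      _ ≤ (1 - l / R ^ 2) ^ T * ((R ^ 2 - Wk.N (cst z - y)) ^ 3 - (C * R) ^ 3) := by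
          gcongr
  have hR6 : ENNReal.ofReal (R ^ 6) ≠ 0 := by
    rw [Ne, ENNReal.ofReal_eq_zero, not_le]; positivity
  have h4 : ENNReal.ofReal (R ^ 6) * (ENNReal.ofReal (Real.exp (-(l / Wk.c₀)) * 0.006) * a) ≤
      ENNReal.ofReal (R ^ 6) * Wk.W T g z := by
    refine le_trans ?_ h2
    calc ENNReal.ofReal (R ^ 6) * (ENNReal.ofReal (Real.exp (-(l / Wk.c₀)) * 0.006) * a) =
        a * (ENNReal.ofReal (Real.exp (-(l / Wk.c₀)) * 0.006) * ENNReal.ofReal (R ^ 6)) := by ring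
      _ ≤ _ := by gcongr
  exact (ENNReal.mul_le_mul_iff_right hR6 ENNReal.ofReal_ne_top).mp h4

end Walk

end Pool.Agent.TwoLIS
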