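import Pool.Agent.TwoLIS.WalkC

/-!
Multi-scale argument: polynomial lower bound for the weighted number of quadrant paths.
-/

namespace Pool.Agent.TwoLIS

open scoped ENNReal
open Filter Topology

namespace Walk

variable {ι : Type*} (Wk : Walk ι)

/-- direction of the centres -/
noncomputable def dd : ℝ × ℝ := (Real.sqrt (Wk.A / Wk.Δ), Real.sqrt (Wk.C / Wk.Δ))

lemma ball_quad {R : ℝ} (hR : 0 ≤ R) (z : Z2) (h : Wk.N (cst z - R • Wk.dd) ≤ R ^ 2) : Quad z := by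
  have hΔ := Wk.Δ_pos
  have hA := Wk.A_pos
  have hC := Wk.C_pos
  have h1 := Wk.N_ge1 (cst z - R • Wk.dd)
  have h2 := Wk.N_ge2 (cst z - R • Wk.dd)
  have e1 : |(z.1:ℝ) - R * Real.sqrt (Wk.A / Wk.Δ)| ≤ Real.sqrt (Wk.A / Wk.Δ) * R := by
    apply abs_le_of_sq_le_sq _ (by positivity)
    rw [mul_pow, Real.sq_sqrt (by positivity), div_mul_eq_mul_div, le_div_iff₀ hΔ]
    simp only [cst, dd, Prod.fst_sub, Prod.smul_fst, smul_eq_mul] at h1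
    have h3 : Wk.A * Wk.N (cst z - R • Wk.dd) ≤ Wk.A * R ^ 2 := by gcongr
    simp only [cst, dd] at h3
    linarith
  have e2 : |(z.2:ℝ) - R * Real.sqrt (Wk.C / Wk.Δ)| ≤ Real.sqrt (Wk.C / Wk.Δ) * R := by
    apply abs_le_of_sq_le_sq _ (by positivity)
    rw [mul_pow, Real.sq_sqrt (by positivity), div_mul_eq_mul_div, le_div_iff₀ hΔ]
    simp only [cst, dd, Prod.snd_sub, Prod.smul_snd, smul_eq_mul] at h2
    have h3 : Wk.C * Wk.N (cst z - R • Wk.dd) ≤ Wk.C * R ^ 2 := by gcongr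
    simp only [cst, dd] at h3
    linarith
  have f1 := (abs_le.mp e1).1
  have f2 := (abs_le.mp e2).1
  constructor
  · have : (0:ℝ) ≤ z.1 := by linarith
    exact_mod_cast this
  · have : (0:ℝ) ≤ z.2 := by linarith
    exact_mod_cast this

lemma N_smul (a : ℝ) (w : ℝ × ℝ) : Wk.N (a • w) = a ^ 2 * Wk.N w := by
  simp only [N, Prod.smul_fst, Prod.smul_snd, smul_eq_mul]; ring

lemma N_add_le (u v : ℝ × ℝ) : Wk.N (u + v) ≤ 1.2 * Wk.N u + 6 * Wk.N v := by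
  have h1 := Wk.N_nonneg (u - (5:ℝ) • v)
  have h2 : Wk.N (u - (5:ℝ) • v) = Wk.N u - 10 * Wk.bil u v + 25 * Wk.N v := by
    simp only [N, bil, Prod.fst_sub, Prod.snd_sub, Prod.smul_fst, Prod.smul_snd, smul_eq_mul]; ring
  rw [N_add]
  linarith

lemma move {R R' : ℝ} (z : Z2) (h : Wk.N (cst z - R • Wk.dd) ≤ 0.55 * R ^ 2) :
    Wk.N (cst z - R' • Wk.dd) ≤ 0.66 * R ^ 2 + 6 * (R - R') ^ 2 * Wk.N Wk.dd := by
  have e : cst z - R' • Wk.dd = (cst z - R • Wk.dd) + (R - R') • Wk.dd := by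
    rw [sub_smul]; abel
  rw [e]
  refine (Wk.N_add_le _ _).trans ?_
  rw [N_smul]
  linarith

lemma W_up (t : ℕ) (g : Z2 → ℝ≥0∞) (z : Z2) (hz : Quad z) :
    ENNReal.ofReal (Wk.μ Wk.up) * Wk.W t g (z + (0, 1)) ≤ Wk.W (t + 1) g z := by
  simp only [W]
  refine le_trans ?_ (ENNReal.le_tsum Wk.up)
  have : Quad (z + Wk.ξ Wk.up) := by
    rw [Wk.up_ξ]; exact ⟨by simpa using hz.1, by have := hz.2; simp; omega⟩
  rw [if_pos this, Wk.up_ξ]

lemma W_rt (t : ℕ) (g : Z2 → ℝ≥0∞) (z : Z2) (hz : Quad z) :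
    ENNReal.ofReal (Wk.μ Wk.rt) * Wk.W t g (z + (1, 0)) ≤ Wk.W (t + 1) g z := by
  simp only [W]
  refine le_trans ?_ (ENNReal.le_tsum Wk.rt)
  have : Quad (z + Wk.ξ Wk.rt) := by
    rw [Wk.rt_ξ]; exact ⟨by have := hz.1; simp; omega, by simpa using hz.2⟩
  rw [if_pos this, Wk.rt_ξ]

lemma W_ups (n t : ℕ) (g : Z2 → ℝ≥0∞) (z : Z2) (hz : Quad z) :
    ENNReal.ofReal (Wk.μ Wk.up) ^ n * Wk.W t g (z + (0, (n:ℤ))) ≤ Wk.W (n + t) g z := by
  induction n generalizing z with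
  | zero =>
    have e : z + ((0:ℤ), ((0:ℕ):ℤ)) = z := by ext <;> simp
    rw [e]; simp
  | succ n ih =>
    have hq : Quad (z + (0, 1)) := ⟨by simpa using hz.1, by have := hz.2; simp; omega⟩
    have e1 : n + 1 + t = (n + t) + 1 := by ring
    rw [e1]
    refine le_trans ?_ (Wk.W_up (n + t) g z hz)
    have h1 := ih (z + (0, 1)) hq
    have e2 : z + (0, 1) + (0, (n:ℤ)) = z + (0, ((n + 1 : ℕ) : ℤ)) := by
      ext
      · simp
      · simp; ring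
    rw [e2] at h1
    calc ENNReal.ofReal (Wk.μ Wk.up) ^ (n + 1) * Wk.W t g (z + (0, ((n + 1 : ℕ) : ℤ))) =
        ENNReal.ofReal (Wk.μ Wk.up) * (ENNReal.ofReal (Wk.μ Wk.up) ^ n *
          Wk.W t g (z + (0, ((n + 1 : ℕ) : ℤ)))) := by rw [pow_succ]; ring
      _ ≤ _ := by gcongr

lemma W_rts (n t : ℕ) (g : Z2 → ℝ≥0∞) (z : Z2) (hz : Quad z) :
    ENNReal.ofReal (Wk.μ Wk.rt) ^ n * Wk.W t g (z + ((n:ℤ), 0)) ≤ Wk.W (n + t) g z := by
  induction n generalizing z with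
  | zero =>
    have e : z + (((0:ℕ):ℤ), (0:ℤ)) = z := by ext <;> simp
    rw [e]; simp
  | succ n ih =>
    have hq : Quad (z + (1, 0)) := ⟨by have := hz.1; simp; omega, by simpa using hz.2⟩
    have e1 : n + 1 + t = (n + t) + 1 := by ring
    rw [e1]
    refine le_trans ?_ (Wk.W_rt (n + t) g z hz)
    have h1 := ih (z + (1, 0)) hq
    have e2 : z + (1, 0) + ((n:ℤ), 0) = z + (((n + 1 : ℕ) : ℤ), 0) := by
      ext
      · simp; ring
      · simp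
    rw [e2] at h1
    calc ENNReal.ofReal (Wk.μ Wk.rt) ^ (n + 1) * Wk.W t g (z + (((n + 1 : ℕ) : ℤ), 0)) =
        ENNReal.ofReal (Wk.μ Wk.rt) * (ENNReal.ofReal (Wk.μ Wk.rt) ^ n *
          Wk.W t g (z + (((n + 1 : ℕ) : ℤ), 0))) := by rw [pow_succ]; ring
      _ ≤ _ := by gcongr

lemma W_pos (t : ℕ) {g : Z2 → ℝ≥0∞} (hg : ∀ z, Quad z → 0 < g z) (z : Z2) (hz : Quad z) :
    0 < Wk.W t g z := by
  have h1 := Wk.W_ups t 0 g z hz
  refine lt_of_lt_of_le ?_ h1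
  have h2 : Quad (z + (0, (t:ℤ))) := ⟨by simpa using hz.1, by have := hz.2; simp; omega⟩
  have h3 := hg _ h2
  have h4 : 0 < ENNReal.ofReal (Wk.μ Wk.up) := ENNReal.ofReal_pos.mpr Wk.up_pos
  exact ENNReal.mul_pos (pow_ne_zero _ h4.ne') (by simpa [W] using h3.ne')

/-- radii -/
noncomputable def Rk (R κ : ℝ) (k : ℕ) : ℝ := R * κ ^ k

/-- durations -/
noncomputable def Tk (R κ : ℝ) (k : ℕ) : ℕ := Wk.Tm (Rk R κ k)

/-- total duration of the descent -/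
noncomputable def Dk (R κ : ℝ) (k : ℕ) : ℕ := ∑ j ∈ Finset.range k, Wk.Tk R κ j

/-- total duration of the ascent -/
noncomputable def Uk (R κ : ℝ) (k : ℕ) : ℕ := ∑ j ∈ Finset.range k, Wk.Tk R κ (j + 1)

/-- **Polynomial lower bound** -/
theorem lower (ω : Z2 → ℝ≥0∞) (hω : ∀ z, Quad z → 0 < ω z) :
    ∃ a b : ℝ, 0 < a ∧ ∃ n₀ : ℕ, ∀ n : ℕ, n₀ ≤ n →
      ENNReal.ofReal (a * (n:ℝ) ^ (-b)) ≤ Wk.W n ω (0, 0) := by
  obtain ⟨c, hc0, hc1, hev⟩ := Wk.contraction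
  obtain ⟨R₀, hR₀⟩ := eventually_atTop.mp hev
  have hΔ := Wk.Δ_pos
  have hcc := Wk.c₀_pos
  have hNd := Wk.N_nonneg Wk.dd
  have hK1 := Wk.K₁_pos
  -- ratio
  set κ' : ℝ := min (1 / 25) (1 / (12 * (1 + Wk.N Wk.dd))) with hκ'
  have hκ'0 : 0 < κ' := lt_min (by norm_num) (by positivity)
  have hκ'1 : κ' ≤ 1 / 25 := min_le_left _ _
  have hκ'2 : 6 * κ' ^ 2 * Wk.N Wk.dd ≤ 0.05 := by
    have h1 : κ' ≤ 1 / (12 * (1 + Wk.N Wk.dd)) := min_le_right _ _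
    have h2 : κ' * (12 * (1 + Wk.N Wk.dd)) ≤ 1 := by
      rwa [le_div_iff₀ (by positivity)] at h1
    have h3 : κ' * Wk.N Wk.dd ≤ 1 / 12 := by nlinarith
    nlinarith
  set κ : ℝ := 1 + κ' with hκ
  have hκ1 : 1 < κ := by rw [hκ]; linarith
  have hκ2 : κ ^ 2 ≤ 1.1 := by rw [hκ]; nlinarith
  -- initial radius
  set R : ℝ := max R₀ (max 1 (max (4 * Wk.c₀) (8 * Wk.K₁))) with hR
  have hRR₀ : R₀ ≤ R := le_max_left _ _
  have hR1 : 1 ≤ R := le_trans (le_max_left _ _) (le_max_right _ _)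
  have hRc : 4 * Wk.c₀ ≤ R :=
    le_trans (le_trans (le_max_left _ _) (le_max_right _ _)) (le_max_right _ _)
  have hRK : 8 * Wk.K₁ ≤ R :=
    le_trans (le_trans (le_max_right _ _) (le_max_right _ _)) (le_max_right _ _)
  have hR0 : 0 < R := by linarith
  have hRk0 : ∀ k, 0 < Rk R κ k := fun k => by unfold Rk; positivity
  have hRkge : ∀ k, R ≤ Rk R κ k := fun k => by
    unfold Rk
    have : (1:ℝ) ≤ κ ^ k := one_le_pow₀ hκ1.le
    nlinarith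
  have hRsucc : ∀ k, Rk R κ (k + 1) = κ * Rk R κ k := fun k => by unfold Rk; ring
  -- durations
  have hT1 : ∀ k, 2 * (κ ^ 2) ^ k ≤ Rk R κ k ^ 2 / (2 * Wk.c₀) := by
    intro k
    rw [le_div_iff₀ (by positivity)]
    unfold Rk
    have h1 : (R * κ ^ k) ^ 2 = R ^ 2 * (κ ^ 2) ^ k := by rw [mul_pow, ← pow_mul, ← pow_mul, mul_comm k 2]
    rw [h1]
    have h2 : 4 * Wk.c₀ ≤ R ^ 2 := by nlinarith
    have h3 : (0:ℝ) < (κ ^ 2) ^ k := by positivity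
    nlinarith
  have hTge : ∀ k, (κ ^ 2) ^ k ≤ (Wk.Tk R κ k : ℝ) := by
    intro k
    have h1 : Rk R κ k ^ 2 / (2 * Wk.c₀) < (Wk.Tk R κ k : ℝ) + 1 := by
      unfold Tk Tm; exact Nat.lt_floor_add_one _
    have h2 := hT1 k
    have h3 : (1:ℝ) ≤ (κ ^ 2) ^ k := one_le_pow₀ (by nlinarith)
    linarith
  have hTpos : ∀ k, 1 ≤ Wk.Tk R κ k := by
    intro k
    have h1 := hTge k
    have h3 : (1:ℝ) ≤ (κ ^ 2) ^ k := one_le_pow₀ (by nlinarith)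
    have h4 : (1:ℝ) ≤ (Wk.Tk R κ k : ℝ) := h3.trans h1
    exact_mod_cast h4
  have hTsucc : ∀ k, Wk.Tk R κ (k + 1) ≤ 2 * Wk.Tk R κ k := by
    intro k
    have h1 : (Wk.Tk R κ (k + 1) : ℝ) ≤ Rk R κ (k + 1) ^ 2 / (2 * Wk.c₀) := by
      unfold Tk Tm; exact Nat.floor_le (by positivity)
    have h2 : Rk R κ k ^ 2 / (2 * Wk.c₀) < (Wk.Tk R κ k : ℝ) + 1 := by
      unfold Tk Tm; exact Nat.lt_floor_add_one _
    have h3 : Rk R κ (k + 1) ^ 2 / (2 * Wk.c₀) ≤ 1.1 * (Rk R κ k ^ 2 / (2 * Wk.c₀)) := by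
      rw [hRsucc, mul_pow, mul_div_assoc]
      gcongr
    have h4 : (1:ℝ) ≤ (Wk.Tk R κ k : ℝ) := by exact_mod_cast hTpos k
    have h5 : (Wk.Tk R κ (k + 1) : ℝ) < 2 * (Wk.Tk R κ k : ℝ) + 1 := by linarith
    have h6 : Wk.Tk R κ (k + 1) < 2 * Wk.Tk R κ k + 1 := by exact_mod_cast h5
    omega
  -- contraction at scale k
  have contr : ∀ k, ∀ z : Z2, Wk.N (cst z - Rk R κ k • Wk.dd) ≤ 0.81 * Rk R κ k ^ 2 →
      ∀ (g : Z2 → ℝ≥0∞) (a : ℝ≥0∞),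
      (∀ z', Quad z' → Wk.N (cst z' - Rk R κ k • Wk.dd) ≤ 0.55 * Rk R κ k ^ 2 → a ≤ g z') →
      ENNReal.ofReal c * a ≤ Wk.W (Wk.Tk R κ k) g z := by
    intro k z hz g a hg
    exact hR₀ (Rk R κ k) (hRR₀.trans (hRkge k)) (Rk R κ k • Wk.dd)
      (fun z hz => Wk.ball_quad (hRk0 k).le z hz) z hz g a hg
  -- waiting
  have wait : ∀ (k t : ℕ) (a : ℝ≥0∞),
      (∀ z', Quad z' → Wk.N (cst z' - Rk R κ k • Wk.dd) ≤ 0.55 * Rk R κ k ^ 2 → a ≤ Wk.W t ω z') →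
      ∀ j : ℕ, ∀ z, Wk.N (cst z - Rk R κ k • Wk.dd) ≤ 0.55 * Rk R κ k ^ 2 → Quad z →
      ENNReal.ofReal c ^ j * a ≤ Wk.W (j * Wk.Tk R κ k + t) ω z := by
    intro k t a ha j
    induction j with
    | zero => intro z hz hq; simpa using ha z hq hz
    | succ j ih =>
      intro z hz hq
      have e1 : (j + 1) * Wk.Tk R κ k + t = Wk.Tk R κ k + (j * Wk.Tk R κ k + t) := by ring
      rw [e1, W_add]
      have h1 := contr k z (hz.trans (by have := sq_nonneg (Rk R κ k); linarith))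
        (Wk.W (j * Wk.Tk R κ k + t) ω) (ENNReal.ofReal c ^ j * a)
        (fun z' hq' hz' => ih z' hz' hq')
      calc ENNReal.ofReal c ^ (j + 1) * a = ENNReal.ofReal c * (ENNReal.ofReal c ^ j * a) := by
            rw [pow_succ]; ring
        _ ≤ _ := h1
  -- going down one scale
  have down : ∀ (k t : ℕ) (a : ℝ≥0∞),
      (∀ z', Quad z' → Wk.N (cst z' - Rk R κ k • Wk.dd) ≤ 0.55 * Rk R κ k ^ 2 → a ≤ Wk.W t ω z') →
      ∀ z, Wk.N (cst z - Rk R κ (k + 1) • Wk.dd) ≤ 0.55 * Rk R κ (k + 1) ^ 2 →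
      ENNReal.ofReal c * a ≤ Wk.W (Wk.Tk R κ k + t) ω z := by
    intro k t a ha z hz
    rw [W_add]
    apply contr k z _ _ a ha
    refine (Wk.move z hz).trans ?_
    rw [hRsucc]
    have h1 : (κ * Rk R κ k) ^ 2 = κ ^ 2 * Rk R κ k ^ 2 := by ring
    have h2 : 6 * (κ * Rk R κ k - Rk R κ k) ^ 2 * Wk.N Wk.dd =
        (6 * κ' ^ 2 * Wk.N Wk.dd) * Rk R κ k ^ 2 := by rw [hκ]; ring
    rw [h1, h2]
    have h3 : 0 ≤ Rk R κ k ^ 2 := sq_nonneg _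
    have h4 : κ ^ 2 * Rk R κ k ^ 2 ≤ 1.1 * Rk R κ k ^ 2 := by gcongr
    have h5 : (6 * κ' ^ 2 * Wk.N Wk.dd) * Rk R κ k ^ 2 ≤ 0.05 * Rk R κ k ^ 2 := by gcongr
    linarith
  -- going up one scale
  have upp : ∀ (k t : ℕ) (a : ℝ≥0∞),
      (∀ z', Quad z' → Wk.N (cst z' - Rk R κ (k + 1) • Wk.dd) ≤ 0.55 * Rk R κ (k + 1) ^ 2 →
        a ≤ Wk.W t ω z') →
      ∀ z, Wk.N (cst z - Rk R κ k • Wk.dd) ≤ 0.55 * Rk R κ k ^ 2 →
      ENNReal.ofReal c * a ≤ Wk.W (Wk.Tk R κ (k + 1) + t) ω z := by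
    intro k t a ha z hz
    rw [W_add]
    apply contr (k + 1) z _ _ a ha
    refine (Wk.move z hz).trans ?_
    rw [hRsucc]
    have h1 : (κ * Rk R κ k) ^ 2 = κ ^ 2 * Rk R κ k ^ 2 := by ring
    have h2 : 6 * (Rk R κ k - κ * Rk R κ k) ^ 2 * Wk.N Wk.dd =
        (6 * κ' ^ 2 * Wk.N Wk.dd) * Rk R κ k ^ 2 := by rw [hκ]; ring
    rw [h1, h2]
    have h3 : 0 ≤ Rk R κ k ^ 2 := sq_nonneg _
    have h4 : 1 * Rk R κ k ^ 2 ≤ κ ^ 2 * Rk R κ k ^ 2 := by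
      gcongr; nlinarith
    have h5 : (6 * κ' ^ 2 * Wk.N Wk.dd) * Rk R κ k ^ 2 ≤ 0.05 * Rk R κ k ^ 2 := by gcongr
    linarith
  -- base constant
  obtain ⟨a₀, ha₀, hbase⟩ : ∃ a₀ : ℝ≥0∞, 0 < a₀ ∧ ∀ z, Quad z →
      Wk.N (cst z - Rk R κ 0 • Wk.dd) ≤ 0.55 * Rk R κ 0 ^ 2 → ∀ t, t ≤ 3 * Wk.Tk R κ 0 →
      a₀ ≤ Wk.W t ω z := by
    set M : ℤ := ⌈2 * (Real.sqrt (Wk.A / Wk.Δ) + Real.sqrt (Wk.C / Wk.Δ)) * R⌉ with hM
    have hM0 : 0 ≤ M := by rw [hM]; positivity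
    set F := (Finset.Icc (0:ℤ) M ×ˢ Finset.Icc (0:ℤ) M) ×ˢ Finset.range (3 * Wk.Tk R κ 0 + 1) with hF
    have hne : F.Nonempty := ⟨((0, 0), 0), by simp [hF, hM0]⟩
    obtain ⟨p, hp, hmin⟩ := Finset.exists_min_image F (fun p => Wk.W p.2 ω p.1) hne
    refine ⟨Wk.W p.2 ω p.1, ?_, ?_⟩
    · apply Wk.W_pos _ hω
      simp only [hF, Finset.mem_product, Finset.mem_Icc] at hp
      exact ⟨hp.1.1.1, hp.1.2.1⟩
    · intro z hq hz t ht
      have h0 : Rk R κ 0 = R := by unfold Rk; simp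
      rw [h0] at hz
      apply hmin (z, t)
      have h1 : Wk.N (cst z - R • Wk.dd) ≤ R ^ 2 := hz.trans (by nlinarith [sq_nonneg R])
      have h2 := Wk.sz_le _ R hR0.le h1
      have h3 := abs_nonneg (cst z - R • Wk.dd).1
      have h4 := abs_nonneg (cst z - R • Wk.dd).2
      unfold sz at h2
      have h5 : (cst z - R • Wk.dd).1 = (z.1:ℝ) - R * Real.sqrt (Wk.A / Wk.Δ) := rfl
      have h6 : (cst z - R • Wk.dd).2 = (z.2:ℝ) - R * Real.sqrt (Wk.C / Wk.Δ) := rfl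
      have h7 := le_abs_self (cst z - R • Wk.dd).1
      have h8 := le_abs_self (cst z - R • Wk.dd).2
      rw [h5] at h7 h3 h2
      rw [h6] at h8 h4 h2
      have s1 : 0 ≤ Real.sqrt (Wk.A / Wk.Δ) * R := by positivity
      have s2 : 0 ≤ Real.sqrt (Wk.C / Wk.Δ) * R := by positivity
      have h9 := Int.le_ceil (2 * (Real.sqrt (Wk.A / Wk.Δ) + Real.sqrt (Wk.C / Wk.Δ)) * R)
      rw [← hM] at h9
      simp only [hF, Finset.mem_product, Finset.mem_Icc, Finset.mem_range]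
      refine ⟨⟨⟨hq.1, ?_⟩, hq.2, ?_⟩, by omega⟩
      · have : (z.1:ℝ) ≤ M := by linarith
        exact_mod_cast this
      · have : (z.2:ℝ) ≤ M := by linarith
        exact_mod_cast this
  -- descent
  have descent : ∀ k, ∀ z, Quad z → Wk.N (cst z - Rk R κ k • Wk.dd) ≤ 0.55 * Rk R κ k ^ 2 →
      ∀ t, Wk.Dk R κ k ≤ t → t ≤ Wk.Dk R κ k + 3 * Wk.Tk R κ k →
      (ENNReal.ofReal c ^ 4) ^ k * a₀ ≤ Wk.W t ω z := by
    intro k
    induction k with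
    | zero =>
      intro z hq hz t _ ht
      simp only [pow_zero, one_mul]
      apply hbase z hq hz t
      simpa [Dk] using ht
    | succ k ih =>
      intro z hq hz t ht1 ht2
      have hD : Wk.Dk R κ (k + 1) = Wk.Dk R κ k + Wk.Tk R κ k := by
        unfold Dk; rw [Finset.sum_range_succ]
      set T' := Wk.Tk R κ (k + 1) with hT'
      have hT'pos : 0 < T' := hTpos (k + 1)
      set e := t - Wk.Dk R κ (k + 1) with he
      set j := e / T' with hj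
      set e' := e % T' with he'
      have hej : e = T' * j + e' := (Nat.div_add_mod e T').symm
      have he'lt : e' < T' := Nat.mod_lt _ hT'pos
      have hj3 : j ≤ 3 := by
        have h1 : e ≤ 3 * T' := by omega
        exact Nat.div_le_of_le_mul (by rw [mul_comm]; exact h1)
      have ht : t = j * T' + (Wk.Tk R κ k + (Wk.Dk R κ k + e')) := by
        have : j * T' = T' * j := mul_comm _ _
        omega
      have hT2 := hTsucc k
      have h1 : ∀ z', Quad z' → Wk.N (cst z' - Rk R κ k • Wk.dd) ≤ 0.55 * Rk R κ k ^ 2 →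
          (ENNReal.ofReal c ^ 4) ^ k * a₀ ≤ Wk.W (Wk.Dk R κ k + e') ω z' :=
        fun z' hq' hz' => ih z' hq' hz' _ (by omega) (by omega)
      have h2 := down k (Wk.Dk R κ k + e') _ h1
      have h3 := wait (k + 1) (Wk.Tk R κ k + (Wk.Dk R κ k + e')) _ (fun z' _ hz' => h2 z' hz') j z hz hq
      rw [← hT', ← ht] at h3
      refine le_trans ?_ h3
      have hcle : ENNReal.ofReal c ≤ 1 := by
        rw [← ENNReal.ofReal_one]; exact ENNReal.ofReal_le_ofReal hc1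
      have h4 : ENNReal.ofReal c ^ 4 ≤ ENNReal.ofReal c ^ (j + 1) :=
        pow_le_pow_right_of_le_one' hcle (by omega)
      calc (ENNReal.ofReal c ^ 4) ^ (k + 1) * a₀ =
          ENNReal.ofReal c ^ 4 * ((ENNReal.ofReal c ^ 4) ^ k * a₀) := by rw [pow_succ]; ring
        _ ≤ ENNReal.ofReal c ^ (j + 1) * ((ENNReal.ofReal c ^ 4) ^ k * a₀) := by gcongr
        _ = _ := by rw [pow_succ]; ring
  -- ascent
  have ascent : ∀ k, ∀ (t : ℕ) (a : ℝ≥0∞),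
      (∀ z', Quad z' → Wk.N (cst z' - Rk R κ k • Wk.dd) ≤ 0.55 * Rk R κ k ^ 2 → a ≤ Wk.W t ω z') →
      ∀ z, Quad z → Wk.N (cst z - Rk R κ 0 • Wk.dd) ≤ 0.55 * Rk R κ 0 ^ 2 →
      ENNReal.ofReal c ^ k * a ≤ Wk.W (Wk.Uk R κ k + t) ω z := by
    intro k
    induction k with
    | zero => intro t a ha z hq hz; simpa [Uk] using ha z hq hz
    | succ k ih =>
      intro t a ha z hq hz
      have h1 := ih (Wk.Tk R κ (k + 1) + t) (ENNReal.ofReal c * a)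
        (fun z' _ hz' => upp k t a ha z' hz') z hq hz
      have hU : Wk.Uk R κ (k + 1) = Wk.Uk R κ k + Wk.Tk R κ (k + 1) := by
        unfold Uk; rw [Finset.sum_range_succ]
      rw [hU, add_assoc]
      refine le_trans (le_of_eq ?_) h1
      rw [pow_succ]; ring
  -- start
  set x₀ : ℕ := ⌊R * Real.sqrt (Wk.A / Wk.Δ)⌋₊ with hx₀
  set y₀ : ℕ := ⌊R * Real.sqrt (Wk.C / Wk.Δ)⌋₊ with hy₀
  have hstart : Wk.N (cst ((x₀:ℤ), (y₀:ℤ)) - Rk R κ 0 • Wk.dd) ≤ 0.55 * Rk R κ 0 ^ 2 := by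
    have h0 : Rk R κ 0 = R := by unfold Rk; simp
    rw [h0]
    have h1 := Wk.N_le (cst ((x₀:ℤ), (y₀:ℤ)) - R • Wk.dd)
    have h2 : sz (cst ((x₀:ℤ), (y₀:ℤ)) - R • Wk.dd) ≤ 2 := by
      unfold sz
      have e1 : (cst ((x₀:ℤ), (y₀:ℤ)) - R • Wk.dd).1 = (x₀:ℝ) - R * Real.sqrt (Wk.A / Wk.Δ) := by
        simp [cst, dd]
      have e2 : (cst ((x₀:ℤ), (y₀:ℤ)) - R • Wk.dd).2 = (y₀:ℝ) - R * Real.sqrt (Wk.C / Wk.Δ) := by
        simp [cst, dd]
      rw [e1, e2]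
      have f1 : (x₀:ℝ) ≤ R * Real.sqrt (Wk.A / Wk.Δ) := Nat.floor_le (by positivity)
      have f2 : R * Real.sqrt (Wk.A / Wk.Δ) < x₀ + 1 := Nat.lt_floor_add_one _
      have f3 : (y₀:ℝ) ≤ R * Real.sqrt (Wk.C / Wk.Δ) := Nat.floor_le (by positivity)
      have f4 : R * Real.sqrt (Wk.C / Wk.Δ) < y₀ + 1 := Nat.lt_floor_add_one _
      have g1 : |(x₀:ℝ) - R * Real.sqrt (Wk.A / Wk.Δ)| ≤ 1 := by
        rw [abs_le]; constructor <;> linarith
      have g2 : |(y₀:ℝ) - R * Real.sqrt (Wk.C / Wk.Δ)| ≤ 1 := by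
        rw [abs_le]; constructor <;> linarith
      linarith
    have h3 := sz_nonneg (cst ((x₀:ℤ), (y₀:ℤ)) - R • Wk.dd)
    have h4 : sz (cst ((x₀:ℤ), (y₀:ℤ)) - R • Wk.dd) ^ 2 ≤ 4 := by nlinarith
    have h5 : Wk.K₁ * sz (cst ((x₀:ℤ), (y₀:ℤ)) - R • Wk.dd) ^ 2 ≤ Wk.K₁ * 4 := by gcongr
    nlinarith
  -- main lower bound
  set t₀ : ℕ := x₀ + y₀ with ht₀
  set ms : ℝ≥0∞ := ENNReal.ofReal (Wk.μ Wk.rt) ^ x₀ * ENNReal.ofReal (Wk.μ Wk.up) ^ y₀ with hms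
  have hmain : ∀ (K n : ℕ), t₀ + Wk.Uk R κ K + Wk.Dk R κ K ≤ n →
      n ≤ t₀ + Wk.Uk R κ K + Wk.Dk R κ K + 3 * Wk.Tk R κ K →
      ms * (ENNReal.ofReal c ^ K * ((ENNReal.ofReal c ^ 4) ^ K * a₀)) ≤ Wk.W n ω (0, 0) := by
    intro K n h1 h2
    obtain ⟨t, rfl⟩ : ∃ t, n = x₀ + (y₀ + (Wk.Uk R κ K + t)) :=
      ⟨n - (x₀ + (y₀ + Wk.Uk R κ K)), by omega⟩
    have h3 := ascent K t _ (fun z' hq' hz' => descent K z' hq' hz' t (by omega) (by omega))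
      ((x₀:ℤ), (y₀:ℤ)) ⟨by positivity, by positivity⟩ hstart
    have h4 := Wk.W_ups y₀ (Wk.Uk R κ K + t) ω ((x₀:ℤ), 0) ⟨by positivity, le_rfl⟩
    have h5 := Wk.W_rts x₀ (y₀ + (Wk.Uk R κ K + t)) ω (0, 0) ⟨le_rfl, le_rfl⟩
    have e1 : (((x₀:ℤ), (0:ℤ)) : Z2) + (0, (y₀:ℤ)) = ((x₀:ℤ), (y₀:ℤ)) := by simp
    have e2 : ((0, 0) : Z2) + ((x₀:ℤ), 0) = ((x₀:ℤ), 0) := by simp
    rw [e1] at h4
    rw [e2] at h5
    refine le_trans ?_ h5
    rw [hms, mul_assoc]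
    gcongr
    refine le_trans ?_ h4
    gcongr
  -- choice of the scale
  set f : ℕ → ℕ := fun K => t₀ + Wk.Uk R κ K + Wk.Dk R κ K with hf
  have hfsucc : ∀ K, f (K + 1) = f K + Wk.Tk R κ (K + 1) + Wk.Tk R κ K := by
    intro K
    simp only [hf, Uk, Dk]
    rw [Finset.sum_range_succ, Finset.sum_range_succ]; ring
  have hfge : ∀ K, K ≤ f K := by
    intro K
    induction K with
    | zero => exact Nat.zero_le _
    | succ K ih => rw [hfsucc]; have := hTpos K; omega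
  have hfT : ∀ K, Wk.Tk R κ (K + 1) ≤ f (K + 1) := by
    intro K; rw [hfsucc]; omega
  have hκ21 : 1 < κ ^ 2 := by nlinarith
  have hlogκ : 0 < Real.log (κ ^ 2) := Real.log_pos hκ21
  -- total factor
  have hcle : ENNReal.ofReal c ≤ 1 := by
    rw [← ENNReal.ofReal_one]; exact ENNReal.ofReal_le_ofReal hc1
  set a₁ : ℝ≥0∞ := min (ms * a₀) 1 with ha₁
  have hms0 : 0 < ms := by
    rw [hms]
    have h1 : 0 < ENNReal.ofReal (Wk.μ Wk.up) := ENNReal.ofReal_pos.mpr Wk.up_pos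
    have h2 : 0 < ENNReal.ofReal (Wk.μ Wk.rt) := ENNReal.ofReal_pos.mpr Wk.rt_pos
    exact ENNReal.mul_pos (pow_ne_zero _ h2.ne') (pow_ne_zero _ h1.ne')
  have ha₁0 : 0 < a₁ := lt_min (ENNReal.mul_pos hms0.ne' ha₀.ne') one_pos
  have ha₁t : a₁ ≠ ∞ := ne_top_of_le_ne_top ENNReal.one_ne_top (min_le_right _ _)
  have ha₁r : 0 < a₁.toReal := ENNReal.toReal_pos ha₁0.ne' ha₁t
  refine ⟨a₁.toReal, 5 * (-Real.log c) / Real.log (κ ^ 2), ha₁r, max t₀ 1, ?_⟩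
  intro n hn
  have hn0 : t₀ ≤ n := le_trans (le_max_left _ _) hn
  have hn1 : 1 ≤ n := le_trans (le_max_right _ _) hn
  have hf0 : f 0 = t₀ := by simp [hf, Uk, Dk]
  set K := Nat.findGreatest (fun K => f K ≤ n) n with hK
  have hK1 : f K ≤ n := by
    have := @Nat.findGreatest_spec 0 (fun K => f K ≤ n) _ n (Nat.zero_le _) (by rw [hf0]; exact hn0)
    exact this
  have hK2 : n < f (K + 1) := by
    by_contra hc
    push Not at hc
    have h1 : K + 1 ≤ n := (hfge (K + 1)).trans hc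
    have h2 := Nat.le_findGreatest (P := fun K => f K ≤ n) h1 hc
    omega
  have hK3 : n ≤ f K + 3 * Wk.Tk R κ K := by
    rw [hfsucc] at hK2
    have := hTsucc K
    omega
  have h1 := hmain K n hK1 hK3
  refine le_trans ?_ h1
  -- bound for K
  have hKn : (κ ^ 2) ^ K ≤ n := by
    rcases Nat.eq_zero_or_pos K with h | h
    · rw [h, pow_zero]; exact_mod_cast hn1
    · obtain ⟨K', hK'⟩ : ∃ K', K = K' + 1 := ⟨K - 1, by omega⟩
      have h2 := hTge K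
      have h3 : Wk.Tk R κ K ≤ n := by
        rw [hK'] at hK1 ⊢
        exact (hfT K').trans hK1
      have h4 : (Wk.Tk R κ K : ℝ) ≤ n := by exact_mod_cast h3
      linarith
  have hKlog : K * Real.log (κ ^ 2) ≤ Real.log n := by
    have h2 := Real.log_le_log (by positivity) hKn
    rwa [Real.log_pow] at h2
  have hn' : (0:ℝ) < n := by exact_mod_cast hn1
  have hclog : Real.log c ≤ 0 := Real.log_nonpos hc0.le hc1
  have hpow : (n:ℝ) ^ (-(5 * (-Real.log c) / Real.log (κ ^ 2))) ≤ c ^ (5 * K) := by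
    have e1 : c ^ (5 * K) = Real.exp (((5 * K : ℕ) : ℝ) * Real.log c) := by
      rw [Real.exp_nat_mul, Real.exp_log hc0]
    rw [e1, Real.rpow_def_of_pos hn', Real.exp_le_exp]
    push_cast
    have h2 : (K:ℝ) ≤ Real.log n / Real.log (κ ^ 2) := by
      rw [le_div_iff₀ hlogκ]; exact hKlog
    have h3 : (K:ℝ) * (5 * (-Real.log c)) ≤ Real.log n / Real.log (κ ^ 2) * (5 * (-Real.log c)) := by
      gcongr
      linarith
    have h4 : Real.log n * -(5 * -Real.log c / Real.log (κ ^ 2)) =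
        -(Real.log n / Real.log (κ ^ 2) * (5 * (-Real.log c))) := by ring
    rw [h4]
    linarith
  calc ENNReal.ofReal (a₁.toReal * (n:ℝ) ^ (-(5 * (-Real.log c) / Real.log (κ ^ 2)))) ≤
      ENNReal.ofReal (a₁.toReal * c ^ (5 * K)) := by
        apply ENNReal.ofReal_le_ofReal; gcongr
    _ = a₁ * ENNReal.ofReal c ^ (5 * K) := by
        rw [ENNReal.ofReal_mul ha₁r.le, ENNReal.ofReal_toReal ha₁t, ENNReal.ofReal_pow hc0.le]
    _ ≤ (ms * a₀) * ENNReal.ofReal c ^ (5 * K) := by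
        gcongr; exact min_le_left _ _
    _ = _ := by
        have : 5 * K = K + 4 * K := by ring
        rw [this, pow_add, pow_mul]; ring

end Walk

end Pool.Agent.TwoLIS
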