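import Pool.Agent.TwoLIS.StkSurj
import Pool.Agent.TwoLIS.Params3

/-!
Exact weights of valid words.
-/

namespace Pool.Agent.TwoLIS

open Md Ty
open scoped ENNReal
open Pool.Agent.BaxterLIS (Chain)

/-- exact exponential weights -/
structure WT (P : Prm) where
  κ : ℝ
  u : ℝ
  v : ℝ
  h : Md → ℝ
  κ0 : 0 < κ
  u0 : 0 < u
  u1 : u ≤ 1
  v0 : 0 < v
  v1 : v ≤ 1
  h0 : ∀ m, 0 < h m
  hI : h I = 1
  eI1 : P.qR * h R = h I
  eI0 : (1 - P.qR) * h L = h I
  eR0 : (1 - P.y) * h I * u = h R * κ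
  eR1 : P.y * (if P.ty = semi then u else 1) = v
  eL1 : P.qL * h M = h L * u
  eM1 : P.x = u
  eL0 : (1 - P.qL) * h I * v = h L * κ
  eM0 : (1 - P.x) * h I * (if P.ty = semi then v else 1) = h M * κ

variable {P : Prm} (Q : WT P)

/-- potential of a state -/
noncomputable def WT.Θ (s : St) : ℝ := Q.h s.mode * Q.u ^ s.left.length * Q.v ^ s.right.length

lemma WT.Θ_pos (s : St) : 0 < Q.Θ s := by
  have := Q.h0 s.mode; have := Q.u0; have := Q.v0
  unfold WT.Θ; positivity

lemma flip_weight {s : St} {b : Bool} (hk : okk s b) :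
    P.pr s.mode b * Q.Θ (stp P.ty s b) * Q.κ ^ s.n = Q.Θ s * Q.κ ^ (stp P.ty s b).n := by
  have a1 := Q.eI1
  have a2 := Q.eI0
  have a3 := Q.eR0
  have a4 := Q.eR1
  have a5 := Q.eL1
  have a6 := Q.eM1
  have a7 := Q.eL0
  have a8 := Q.eM0
  have hI := Q.hI
  obtain ⟨m, l, c, r, n⟩ := s
  unfold WT.Θ
  cases hty : P.ty <;> cases m <;> cases b <;>
    simp only [hty, stp, Prm.pr, List.length_cons, if_true, if_false, reduceCtorEq] at * 
  · -- semi I false
    linear_combination (Q.u ^ l.length * Q.v ^ r.length * Q.κ ^ n) * a2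
  · linear_combination (Q.u ^ l.length * Q.v ^ r.length * Q.κ ^ n) * a1
  · -- R false
    rw [pow_succ, pow_succ]
    linear_combination (Q.u ^ l.length * Q.v ^ r.length * Q.κ ^ n) * a3
  · -- semi R true
    obtain ⟨x, r', rfl⟩ := List.exists_cons_of_ne_nil (show r ≠ [] from hk)
    simp only [List.tail_cons, List.length_cons]
    rw [pow_succ, pow_succ]
    linear_combination (Q.h R * Q.u ^ l.length * Q.v ^ r'.length * Q.κ ^ n) * a4
  · -- L false
    rw [pow_succ, pow_succ]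
    linear_combination (Q.u ^ l.length * Q.v ^ r.length * Q.κ ^ n) * a7
  · obtain ⟨x, l', rfl⟩ := List.exists_cons_of_ne_nil (show l ≠ [] from hk)
    simp only [List.tail_cons, List.length_cons]
    rw [pow_succ]
    linear_combination (Q.u ^ l'.length * Q.v ^ r.length * Q.κ ^ n) * a5
  · -- semi M false
    rw [pow_succ, pow_succ]
    linear_combination (Q.u ^ l.length * Q.v ^ r.length * Q.κ ^ n) * a8
  · obtain ⟨x, l', rfl⟩ := List.exists_cons_of_ne_nil (show l ≠ [] from hk)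
    simp only [List.tail_cons, List.length_cons]
    rw [pow_succ]
    linear_combination (Q.h M * Q.u ^ l'.length * Q.v ^ r.length * Q.κ ^ n) * a6
  · -- strong
    linear_combination (Q.u ^ l.length * Q.v ^ r.length * Q.κ ^ n) * a2
  · linear_combination (Q.u ^ l.length * Q.v ^ r.length * Q.κ ^ n) * a1
  · rw [pow_succ, pow_succ]
    linear_combination (Q.u ^ l.length * Q.v ^ r.length * Q.κ ^ n) * a3
  · obtain ⟨x, r', rfl⟩ := List.exists_cons_of_ne_nil (show r ≠ [] from hk)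
    simp only [List.tail_cons, List.length_cons]
    rw [pow_succ]
    linear_combination (Q.h R * Q.u ^ l.length * Q.v ^ r'.length * Q.κ ^ n) * a4
  · rw [pow_succ, pow_succ]
    linear_combination (Q.u ^ l.length * Q.v ^ r.length * Q.κ ^ n) * a7
  · obtain ⟨x, l', rfl⟩ := List.exists_cons_of_ne_nil (show l ≠ [] from hk)
    simp only [List.tail_cons, List.length_cons]
    rw [pow_succ]
    linear_combination (Q.u ^ l'.length * Q.v ^ r.length * Q.κ ^ n) * a5
  · rw [pow_succ]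
    linear_combination (Q.u ^ l.length * Q.v ^ r.length * Q.κ ^ n) * a8
  · obtain ⟨x, l', rfl⟩ := List.exists_cons_of_ne_nil (show l ≠ [] from hk)
    simp only [List.tail_cons, List.length_cons]
    rw [pow_succ]
    linear_combination (Q.h M * Q.u ^ l'.length * Q.v ^ r.length * Q.κ ^ n) * a6

/-- exact weight of a valid word -/
lemma run_weight {s s' : St} {w : List Bool} (h : Run P.ty s w s') :
    P.ch.wt s.mode w * ENNReal.ofReal (Q.Θ s' * Q.κ ^ s.n) =
      ENNReal.ofReal (Q.Θ s * Q.κ ^ s'.n) := by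
  induction h with
  | nil => simp
  | @cons s b w s' hk hr ih =>
    have h1 := flip_weight Q hk
    rw [stp_mode] at ih
    have hκ := Q.κ0
    have hp := P.pr_pos s.mode b
    have e1 := Q.Θ_pos s
    have e2 := Q.Θ_pos (stp P.ty s b)
    have e3 := Q.Θ_pos s'
    -- multiply by a positive factor
    have hne : ENNReal.ofReal (Q.Θ (stp P.ty s b) * Q.κ ^ (stp P.ty s b).n) ≠ 0 := by
      rw [Ne, ENNReal.ofReal_eq_zero, not_le]; positivity
    have hnt : ENNReal.ofReal (Q.Θ (stp P.ty s b) * Q.κ ^ (stp P.ty s b).n) ≠ ∞ := ENNReal.ofReal_ne_top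
    rw [← ENNReal.mul_left_inj hne hnt]
    have ew : P.ch.wt s.mode (b :: w) = ENNReal.ofReal (P.pr s.mode b) * P.ch.wt (nM s.mode b) w := rfl
    rw [ew]
    calc ENNReal.ofReal (P.pr s.mode b) * P.ch.wt (nM s.mode b) w *
          ENNReal.ofReal (Q.Θ s' * Q.κ ^ s.n) *
          ENNReal.ofReal (Q.Θ (stp P.ty s b) * Q.κ ^ (stp P.ty s b).n)
        = (P.ch.wt (nM s.mode b) w * ENNReal.ofReal (Q.Θ s' * Q.κ ^ (stp P.ty s b).n)) *
          ENNReal.ofReal (P.pr s.mode b * Q.Θ (stp P.ty s b) * Q.κ ^ s.n) := by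
          rw [show P.ch.wt (nM s.mode b) w * ENNReal.ofReal (Q.Θ s' * Q.κ ^ (stp P.ty s b).n) *
            ENNReal.ofReal (P.pr s.mode b * Q.Θ (stp P.ty s b) * Q.κ ^ s.n) =
            P.ch.wt (nM s.mode b) w * (ENNReal.ofReal (Q.Θ s' * Q.κ ^ (stp P.ty s b).n) *
            ENNReal.ofReal (P.pr s.mode b * Q.Θ (stp P.ty s b) * Q.κ ^ s.n)) by ring]
          rw [show ENNReal.ofReal (P.pr s.mode b) * P.ch.wt (nM s.mode b) w *
            ENNReal.ofReal (Q.Θ s' * Q.κ ^ s.n) *
            ENNReal.ofReal (Q.Θ (stp P.ty s b) * Q.κ ^ (stp P.ty s b).n) =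
            P.ch.wt (nM s.mode b) w * (ENNReal.ofReal (P.pr s.mode b) *
            (ENNReal.ofReal (Q.Θ s' * Q.κ ^ s.n) *
            ENNReal.ofReal (Q.Θ (stp P.ty s b) * Q.κ ^ (stp P.ty s b).n))) by ring]
          rw [← ENNReal.ofReal_mul (by positivity), ← ENNReal.ofReal_mul (by positivity),
            ← ENNReal.ofReal_mul (by positivity)]
          congr 2; ring
      _ = ENNReal.ofReal (Q.Θ (stp P.ty s b) * Q.κ ^ s'.n) *
          ENNReal.ofReal (Q.Θ s * Q.κ ^ (stp P.ty s b).n) := by rw [ih, h1]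
      _ = _ := by
          rw [← ENNReal.ofReal_mul (by positivity), ← ENNReal.ofReal_mul (by positivity)]
          congr 1; ring

/-- valid words of size `n` have weight at least `κ ^ (n-1)` -/
lemma word_weight {s' : St} {w : List Bool} (h : Run P.ty init w s') (hm : s'.mode = I) :
    ENNReal.ofReal (Q.κ ^ (s'.n - 1)) ≤ P.ch.wt I w := by
  have h1 := run_weight Q h
  have hn : 1 ≤ s'.n := run_n_le h
  have hκ := Q.κ0
  have hu0 := Q.u0
  have hv0 := Q.v0
  have e1 : Q.Θ s' ≤ 1 := by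
    unfold WT.Θ
    rw [hm, Q.hI, one_mul]
    have h2 : Q.u ^ s'.left.length ≤ 1 := pow_le_one₀ Q.u0.le Q.u1
    have h3 : Q.v ^ s'.right.length ≤ 1 := pow_le_one₀ Q.v0.le Q.v1
    have h4 : 0 ≤ Q.v ^ s'.right.length := by positivity
    nlinarith
  have e2 : Q.Θ init = 1 := by simp [WT.Θ, init, Q.hI]
  rw [e2, one_mul] at h1
  have e3 : s'.n = (s'.n - 1) + 1 := by omega
  have hinit : init.n = 1 := rfl
  have hmode : init.mode = I := rfl
  rw [hinit, hmode, pow_one] at h1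
  have hk0 : ENNReal.ofReal Q.κ ≠ 0 := by rw [Ne, ENNReal.ofReal_eq_zero, not_le]; exact hκ
  have h5 : ENNReal.ofReal (Q.κ ^ (s'.n - 1)) * ENNReal.ofReal Q.κ ≤
      P.ch.wt I w * ENNReal.ofReal Q.κ := by
    calc ENNReal.ofReal (Q.κ ^ (s'.n - 1)) * ENNReal.ofReal Q.κ =
        ENNReal.ofReal (Q.κ ^ s'.n) := by
          rw [← ENNReal.ofReal_mul (by positivity), ← pow_succ, ← e3]
      _ = P.ch.wt I w * ENNReal.ofReal (Q.Θ s' * Q.κ) := h1.symm
      _ ≤ P.ch.wt I w * ENNReal.ofReal Q.κ := by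
          gcongr
          nlinarith
  exact (ENNReal.mul_le_mul_iff_left hk0 ENNReal.ofReal_ne_top).mp h5

end Pool.Agent.TwoLIS
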