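import Pool.Agent.TwoLIS.Wt
import Pool.Agent.TwoLIS.WalkD

/-!
Weights for the two classes; the associated quadrant walks.
-/

namespace Pool.Agent.TwoLIS

open Md Ty
open scoped ENNReal
open Filter Topology

/-- weights, semi-Baxter -/
noncomputable def Qsemi : WT Psemi where
  κ := gr ^ 5
  u := gr
  v := gr ^ 2
  h := fun m => match m with
    | I => 1
    | R => 2 + gr
    | L => 1 + gr
    | M => 1 + gr
  κ0 := by have := gr_lb; positivity
  u0 := by have := gr_lb; linarith
  u1 := by have := gr_ub; linarith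
  v0 := by have := gr_lb; positivity
  v1 := by have := gr_lb; have := gr_ub; nlinarith
  h0 := by
    have := gr_lb
    intro m; cases m <;> simp only <;> linarith
  hI := rfl
  eI1 := by
    simp only [Psemi]
    linear_combination -gr_sq
  eI0 := by
    simp only [Psemi]
    linear_combination gr_sq
  eR0 := by
    simp only [Psemi]
    linear_combination ((-1) * gr + (-1) * gr^3 + (-1) * gr^4) * gr_sq
  eR1 := by
    simp only [Psemi, if_true]
    ring
  eL1 := by
    simp only [Psemi]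
    ring
  eM1 := rfl
  eL0 := by
    simp only [Psemi]
    linear_combination ((-1) * gr^2 + (-1) * gr^4) * gr_sq
  eM0 := by
    simp only [Psemi, if_true]
    linear_combination ((-1) * gr^2 + (-1) * gr^4) * gr_sq

/-- weights, strong-Baxter -/
noncomputable def Qstrong : WT Pstrong where
  κ := sb ^ 4 * (2/11 + 1/11 * sb + 4/11 * sb^2)
  u := sb ^ 2
  v := sb ^ 3
  h := fun m => match m with
    | I => 1
    | R => 1 + sb + sb ^ 3
    | L => (1 + sb + sb ^ 3) * (sb + sb ^ 2) * (3/5 + 1/5 * sb - 1/5 * sb ^ 2)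
    | M => (1 + sb + sb ^ 3) * (sb + sb ^ 2)
  κ0 := by have := sb_lb; positivity
  u0 := by have := sb_lb; positivity
  u1 := by have := sb_lb; have := sb_ub; nlinarith
  v0 := by have := sb_lb; positivity
  v1 := by
    have := sb_lb; have := sb_ub
    have := sb_cu
    nlinarith
  h0 := by
    have h1 := sb_lb
    have h2 := sb_ub
    have h3 : 0 < sb := by linarith
    have h4 : 0 < 3/5 + 1/5 * sb - 1/5 * sb ^ 2 := by nlinarith
    intro m; cases m <;> simp only <;> positivity
  hI := rfl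
  eI1 := by
    simp only [Pstrong]
    linear_combination ((9/11) + (-3/11) * sb + (4/11) * sb^2) * sb_cu
  eI0 := by
    simp only [Pstrong]
    linear_combination ((1) + (-27/55) * sb + (-1/11) * sb^2 + (1/5) * sb^3 + (-18/55) * sb^4 + (-3/55) * sb^5 + (4/55) * sb^6) * sb_cu
  eR0 := by
    simp only [Pstrong]
    linear_combination ((-9/11) * sb^4 + (3/11) * sb^5 + (-4/11) * sb^6) * sb_cu
  eR1 := by
    simp only [Pstrong, reduceCtorEq, if_false]
    linear_combination -sb_cu
  eL1 := by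
    simp only [Pstrong]
    linear_combination ((-2/5) * sb + (-3/5) * sb^2 + (-1/5) * sb^4 + (-1/5) * sb^5 + (1/5) * sb^6) * sb_cu
  eM1 := rfl
  eL0 := by
    simp only [Pstrong]
    linear_combination ((-3/5) * sb^3 + (-1/5) * sb^4 + (-16/55) * sb^5 + (-27/55) * sb^6 + (-7/55) * sb^8 + (-3/55) * sb^9 + (4/55) * sb^10) * sb_cu
  eM0 := by
    simp only [Pstrong, reduceCtorEq, if_false]
    linear_combination ((-1) + (-1) * sb^3 + (-9/11) * sb^5 + (-6/11) * sb^6 + (-1/11) * sb^7 + (-4/11) * sb^8) * sb_cu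

/-- displacement parameter -/
def alz : Ty → ℤ
  | semi => 1
  | strong => 0

/-- mean zero conditions -/
structure MZ (P : Prm) : Prop where
  m1 : P.qR * (1 + alz P.ty * (P.y / (1 - P.y))) = (1 - P.qR) * (P.qL / (1 - P.x))
  m2 : P.qR * (P.y / (1 - P.y)) = (1 - P.qR) * ((1 - P.qL) + alz P.ty * P.qL)

lemma MZsemi : MZ Psemi := by
  have h1 := gr_lb
  have h2 := gr_ub
  have h3 := gr_sq
  have h4 : (1 - gr) ≠ 0 := by linarith
  constructor
  · simp only [Psemi, alz, Int.cast_one]
    field_simp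
    linear_combination -h3
  · simp only [Psemi, alz, Int.cast_one]
    field_simp
    ring

lemma MZstrong : MZ Pstrong := by
  have h1 := sb_lb
  have h2 := sb_ub
  have h3 := sb_cu
  have h4 : (1 - sb ^ 2) ≠ 0 := by
    have : 0 < 1 - sb ^ 2 := by nlinarith
    exact this.ne'
  have h5 : (1 - (1 - sb ^ 2)) ≠ 0 := by
    have : 0 < 1 - (1 - sb ^ 2) := by nlinarith
    exact this.ne'
  constructor
  · simp only [Pstrong, alz, Int.cast_zero, zero_mul, add_zero, mul_one]
    rw [← mul_div_assoc, eq_div_iff h4]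
    linear_combination ((8/55) + (-16/55) * sb) * h3
  · simp only [Pstrong, alz, Int.cast_zero, zero_mul, add_zero]
    rw [← mul_div_assoc, div_eq_iff h5]
    linear_combination ((-2/11) + (-1/11) * sb + (7/55) * sb^2 + (-4/55) * sb^3) * h3

/-- probabilities of the macro-steps -/
noncomputable def wμ (P : Prm) : ℕ ⊕ ℕ → ℝ
  | Sum.inl b => P.qR * (P.y ^ b * (1 - P.y))
  | Sum.inr 0 => (1 - P.qR) * (1 - P.qL)
  | Sum.inr (a + 1) => (1 - P.qR) * (P.qL * (P.x ^ a * (1 - P.x)))

/-- displacements of the macro-steps -/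
def wξ (ty : Ty) : ℕ ⊕ ℕ → Z2
  | Sum.inl b => (1 + alz ty * b, -(b : ℤ))
  | Sum.inr 0 => (0, 1)
  | Sum.inr (a + 1) => (-((a : ℤ) + 1), alz ty)

lemma geo_affine {y : ℝ} (h0 : 0 < y) (h1 : y < 1) (p q : ℝ) :
    HasSum (fun b : ℕ => (y ^ b * (1 - y)) * (p + q * b)) (p + q * (y / (1 - y))) := by
  have h2 : (1 - y) ≠ 0 := by linarith
  have g1 : HasSum (fun b : ℕ => y ^ b) (1 - y)⁻¹ := hasSum_geometric_of_lt_one h0.le h1
  have g2 : HasSum (fun b : ℕ => (b:ℝ) * y ^ b) (y / (1 - y) ^ 2) :=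
    hasSum_coe_mul_geometric_of_norm_lt_one (by rw [Real.norm_eq_abs, abs_of_pos h0]; exact h1)
  have g3 := (g1.mul_left (p * (1 - y))).add (g2.mul_left (q * (1 - y)))
  refine hasSum_cg g3 (fun b => by ring) ?_
  field_simp

lemma geo_mom {y : ℝ} (h0 : 0 < y) (h1 : y < 1) :
    Summable (fun b : ℕ => y ^ b * ((b:ℝ) + 1) ^ 6) := by
  have g : Summable (fun n : ℕ => (n:ℝ) ^ 6 * y ^ n) :=
    summable_pow_mul_geometric_of_norm_lt_one 6 (by rw [Real.norm_eq_abs, abs_of_pos h0]; exact h1)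
  have g2 := ((summable_nat_add_iff 1).mpr g).mul_left (y⁻¹)
  refine g2.congr fun b => ?_
  push_cast
  rw [pow_succ y b]
  field_simp

variable {P : Prm}

lemma wμ_nonneg (P : Prm) (i : ℕ ⊕ ℕ) : 0 ≤ wμ P i := by
  have := P.qR0; have := P.qR1; have := P.y0; have := P.y1
  have := P.qL0; have := P.qL1; have := P.x0; have := P.x1
  have h1 : 0 < 1 - P.qR := by linarith
  have h2 : 0 < 1 - P.qL := by linarith
  have h3 : 0 < 1 - P.y := by linarith
  have h4 : 0 < 1 - P.x := by linarith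
  match i with
  | Sum.inl b => simp only [wμ]; positivity
  | Sum.inr 0 => simp only [wμ]; positivity
  | Sum.inr (a + 1) => simp only [wμ]; positivity

/-- summation over the macro-steps of a function which is affine on the three families -/
lemma hasSum_macro (P : Prm) (f : ℕ ⊕ ℕ → ℝ) (p q s p' q' : ℝ)
    (h1 : ∀ b : ℕ, f (Sum.inl b) = p + q * b) (h2 : f (Sum.inr 0) = s)
    (h3 : ∀ a : ℕ, f (Sum.inr (a + 1)) = p' + q' * a) :
    HasSum (fun i => wμ P i * f i) (P.qR * (p + q * (P.y / (1 - P.y))) +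
      ((1 - P.qR) * (1 - P.qL) * s + (1 - P.qR) * P.qL * (p' + q' * (P.x / (1 - P.x))))) := by
  apply HasSum.sum
  · have g := (geo_affine P.y0 P.y1 p q).mul_left P.qR
    refine hasSum_cg g (fun b => ?_) rfl
    simp only [Function.comp, wμ, h1]; ring
  · have g := (geo_affine P.x0 P.x1 p' q').mul_left ((1 - P.qR) * P.qL)
    have g2 : HasSum (fun n : ℕ => ((fun i => wμ P i * f i) ∘ Sum.inr) (n + 1))
        ((1 - P.qR) * P.qL * (p' + q' * (P.x / (1 - P.x)))) := by
      refine hasSum_cg g (fun b => ?_) rfl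
      simp only [Function.comp, wμ, h3]; ring
    have g3 := g2.zero_add
    refine hasSum_cg g3 (fun b => rfl) ?_
    simp only [Function.comp, wμ, h2]

lemma rr_le_inl (ty : Ty) (b : ℕ) : rr (wξ ty (Sum.inl b)) ≤ 2 * ((b:ℝ) + 1) := by
  cases ty
  · simp only [rr, wξ, alz]
    push_cast
    rw [abs_of_nonneg (by positivity), abs_neg, abs_of_nonneg (by positivity)]
    linarith
  · simp only [rr, wξ, alz]
    push_cast
    rw [abs_of_nonneg (by positivity), abs_neg, abs_of_nonneg (by positivity)]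
    have : (0:ℝ) ≤ b := Nat.cast_nonneg b
    linarith

lemma rr_le_inr (ty : Ty) (a : ℕ) : rr (wξ ty (Sum.inr (a + 1))) ≤ 2 * ((a:ℝ) + 1) := by
  have h0 : (0:ℝ) ≤ a := Nat.cast_nonneg a
  cases ty
  · simp only [rr, wξ, alz]
    push_cast
    rw [abs_neg, abs_of_nonneg (by positivity : (0:ℝ) ≤ (a:ℝ) + 1)]
    simp only [abs_one]
    linarith
  · simp only [rr, wξ, alz]
    push_cast
    rw [abs_neg, abs_of_nonneg (by positivity : (0:ℝ) ≤ (a:ℝ) + 1)]
    simp only [abs_zero]
    linarith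

/-- the quadrant walk of a class -/
noncomputable def wk (P : Prm) (hz : MZ P) : Walk (ℕ ⊕ ℕ) where
  μ := wμ P
  ξ := wξ P.ty
  nonneg := wμ_nonneg P
  sum_one := by
    have h := hasSum_macro P (fun _ => 1) 1 0 1 1 0 (fun _ => by ring) rfl (fun _ => by ring)
    refine hasSum_cg h (fun i => by ring) ?_
    ring
  mean1 := by
    have h := hasSum_macro P (fun i => ((wξ P.ty i).1:ℝ)) 1 (alz P.ty) 0 (-1) (-1)
      (fun b => by simp [wξ]) (by simp [wξ]) (fun a => by simp [wξ] <;> ring)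
    refine hasSum_cg h (fun i => rfl) ?_
    have h1 := hz.m1
    have h4 : (1 - P.x) ≠ 0 := by have := P.x1; linarith
    rw [h1]
    field_simp
    ring
  mean2 := by
    have h := hasSum_macro P (fun i => ((wξ P.ty i).2:ℝ)) 0 (-1) 1 (alz P.ty) 0
      (fun b => by simp [wξ]) (by simp [wξ]) (fun a => by simp [wξ])
    refine hasSum_cg h (fun i => rfl) ?_
    have h1 := hz.m2
    linear_combination h1
  mom6 := by
    have hy := geo_mom P.y0 P.y1
    have hx := geo_mom P.x0 P.x1
    have a1 := P.qR0; have a2 := P.qR1; have a3 := P.y0; have a4 := P.y1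
    have a5 := P.qL0; have a6 := P.qL1; have a7 := P.x0; have a8 := P.x1
    have b1 : 0 < 1 - P.qR := by linarith
    have b2 : 0 < 1 - P.qL := by linarith
    have b3 : 0 < 1 - P.y := by linarith
    have b4 : 0 < 1 - P.x := by linarith
    have s1 : Summable ((fun i => wμ P i * rr (wξ P.ty i) ^ 6) ∘ Sum.inl) := by
      refine Summable.of_nonneg_of_le (f := fun b : ℕ => (P.qR * (1 - P.y) * 64) *
        (P.y ^ b * ((b:ℝ) + 1) ^ 6)) ?_ ?_ (hy.mul_left _)
      · intro b
        have := wμ_nonneg P (Sum.inl b)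
        simp only [Function.comp]
        have h2 : 0 ≤ rr (wξ P.ty (Sum.inl b)) := Walk.rr_nonneg _
        positivity
      · intro b
        simp only [Function.comp, wμ]
        have h1 : rr (wξ P.ty (Sum.inl b)) ^ 6 ≤ (2 * ((b:ℝ) + 1)) ^ 6 :=
          pow_le_pow_left₀ (Walk.rr_nonneg _) (rr_le_inl P.ty b) 6
        calc P.qR * (P.y ^ b * (1 - P.y)) * rr (wξ P.ty (Sum.inl b)) ^ 6 ≤
            P.qR * (P.y ^ b * (1 - P.y)) * (2 * ((b:ℝ) + 1)) ^ 6 := by gcongr
          _ = _ := by ring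
    have s2 : Summable ((fun i => wμ P i * rr (wξ P.ty i) ^ 6) ∘ Sum.inr) := by
      rw [← summable_nat_add_iff 1]
      refine Summable.of_nonneg_of_le (f := fun a : ℕ => ((1 - P.qR) * P.qL * (1 - P.x) * 64) *
        (P.x ^ a * ((a:ℝ) + 1) ^ 6)) ?_ ?_ (hx.mul_left _)
      · intro a
        have := wμ_nonneg P (Sum.inr (a + 1))
        simp only [Function.comp]
        have h2 : 0 ≤ rr (wξ P.ty (Sum.inr (a + 1))) := Walk.rr_nonneg _
        positivity
      · intro a
        simp only [Function.comp, wμ]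
        have h1 : rr (wξ P.ty (Sum.inr (a + 1))) ^ 6 ≤ (2 * ((a:ℝ) + 1)) ^ 6 :=
          pow_le_pow_left₀ (Walk.rr_nonneg _) (rr_le_inr P.ty a) 6
        calc (1 - P.qR) * (P.qL * (P.x ^ a * (1 - P.x))) * rr (wξ P.ty (Sum.inr (a + 1))) ^ 6 ≤
            (1 - P.qR) * (P.qL * (P.x ^ a * (1 - P.x))) * (2 * ((a:ℝ) + 1)) ^ 6 := by gcongr
          _ = _ := by ring
    exact (s1.hasSum.sum s2.hasSum).summable
  up := Sum.inr 0
  up_ξ := rfl
  up_pos := by
    have a2 := P.qR1; have a6 := P.qL1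
    have b1 : 0 < 1 - P.qR := by linarith
    have b2 : 0 < 1 - P.qL := by linarith
    simp only [wμ]; positivity
  rt := Sum.inl 0
  rt_ξ := by simp [wξ]
  rt_pos := by
    have a1 := P.qR0; have a4 := P.y1
    have b3 : 0 < 1 - P.y := by linarith
    simp only [wμ]; positivity

end Pool.Agent.TwoLIS
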